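import Pool.Agent.Lib.MP_5591bc_ag.Cv.Fund

/-! All branches at a point. -/

namespace Pool.Agent.Lib.MP_5591bc_ag.Cv

open Polynomial Set Filter Topology Matrix G M A B E Z Cu
open scoped Polynomial.Bivariate

noncomputable section

variable {σ K ν : Type} [Field K] [NumberField K] [Algebra K ℂ] [Fintype σ] [DecidableEq σ]
  [Fintype ν] [DecidableEq ν] {T : MvPolynomial σ K} {q : (MvPolynomial σ K)[X]} {r n m : ℕ}
  {B : σ → Matrix ν ν (MvPolynomial σ K)[X]} {U U' V V' : Set (σ → ℂ)}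
  {P P' : (σ → ℂ) → Matrix (Option ν) (Option ν) ℂ} {s t : σ → ℂ} {z : ℂ} {w : ν → ℕ}
  {J : Matrix ν ν ℝ}
  {f : (MvPolynomial σ K)[X][X][Y]} {d : (MvPolynomial σ K)[X][X]}
  {A : ν → (MvPolynomial σ K)[X][X][Y]} {R : Fin r → (σ → ℂ) → Matrix (Option ν) (Option ν) ℂ}
  {Bh : σ → Matrix (Ix ν r) (Ix ν r) (MvPolynomial σ K)}

theorem Fam2.fb (h : Fam2 T q r B f d m A w) (hP : PerS T q B f d m A w V P) (ht : t ∈ V) :
    Cu.Fb (sp (evz t (P t none none)) f) (d.map (evz t (P t none none))) m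
      (fun i => sp (evz t (P t none none)) (A i)) w (bl (P t)) :=
  ⟨h.mf.map _, h.md.map _, h.w1, h.half, hP.2 t ht⟩

theorem Fam2.lf (h : Fam2 T q r B f d m A w) (hP : PerS T q B f d m A w V P) (ht : V ∈ 𝓝 t) :
    LF (fun x => evz x (P x none none)) f d m A w (fun x => bl (P x)) t :=
  ⟨fun p => evz_an ((hP.1 t (mem_of_mem_nhds ht)).1 none none) p,
    fun i j => (hP.1 t (mem_of_mem_nhds ht)).1 (some i) (some j), h.mf, h.md,
    mem_of_superset ht fun _ hz => h.fb hP hz⟩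

omit [NumberField K] in
theorem allx_loc {W : Fin r → Set (σ → ℂ)} (hW : ∀ b, W b ∈ 𝓝 t)
    (hR : ∀ b, PerS T q B f d m A w (W b) (R b))
    (hi : Function.Injective fun b => R b t none none) :
    ∃ V : Set (σ → ℂ), t ∈ V ∧ (∀ b, V ⊆ W b) ∧ All T q B V R ∧
      ∀ b, PerS T q B f d m A w V (R b) := by
  have c : ∀ b, ContinuousAt (fun x => R b x none none) t := fun b =>
    (((hR b).1 t (mem_of_mem_nhds (hW b))).1 none none).continuousAt
  have e1 : ∀ᶠ x in 𝓝 t, ∀ b, x ∈ W b := eventually_all.2 hW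
  have e2 : ∀ᶠ x in 𝓝 t, ∀ b b', b ≠ b' → R b x none none - R b' x none none ≠ 0 :=
    eventually_all.2 fun b => eventually_all.2 fun b' => by
      by_cases e : b = b'
      · exact Eventually.of_forall fun _ k => absurd e k
      · exact (((c b).sub (c b')).eventually_ne (sub_ne_zero.2 fun k => e (hi k))).mono
          fun _ k _ => k
  obtain ⟨ε, ε0, hε⟩ := Metric.mem_nhds_iff.1 (e1.and e2)
  have s1 : ∀ b, Metric.ball t ε ⊆ W b := fun b x hx => (hε hx).1 b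
  have p : ∀ b, PerS T q B f d m A w (Metric.ball t ε) (R b) := fun b =>
    ⟨fun x hx => (hR b).1 x (s1 b hx), fun x hx => (hR b).2 x (s1 b hx)⟩
  refine ⟨_, Metric.mem_ball_self ε0, s1, ⟨Metric.isOpen_ball,
    (convex_ball t ε).isPreconnected, ⟨t, Metric.mem_ball_self ε0⟩, fun b => (p b).1,
    fun b x hx => ((p b).2 x hx).2.2.2.1, fun x hx b b' e => ?_⟩, p⟩
  by_contra k
  exact (hε hx).2 b b' k (sub_eq_zero.2 e)

theorem Fam2.all (h : Fam2 T q r B f d m A w) (hT : MvPolynomial.aeval t T ≠ 0) :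
    ∃ (V : Set (σ → ℂ)) (R : Fin r → (σ → ℂ) → Matrix (Option ν) (Option ν) ℂ),
      t ∈ V ∧ All T q B V R ∧ ∀ b, PerS T q B f d m A w V (R b) := by
  obtain ⟨ξ, hξ, hz⟩ := h.cv.roots hT
  choose W hW R e hR using fun b => h.cov t (ξ b) hT ((hz _).2 ⟨b, rfl⟩)
  obtain ⟨V, h1, -, h2, h3⟩ := allx_loc hW hR (by simpa only [e] using hξ)
  exact ⟨V, R, h1, h2, h3⟩

theorem Fam2.all0 [NeZero r] (h : Fam2 T q r B f d m A w) (hP : PerS T q B f d m A w U P)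
    (hU : U ∈ 𝓝 t) (hT : MvPolynomial.aeval t T ≠ 0) :
    ∃ (V : Set (σ → ℂ)) (R : Fin r → (σ → ℂ) → Matrix (Option ν) (Option ν) ℂ),
      V ⊆ U ∧ All T q B V R ∧ R 0 = P := by
  obtain ⟨ξ, hξ, hz⟩ := h.cv.roots hT
  obtain ⟨b0, hb⟩ := (hz _).1 (hP.1 t (mem_of_mem_nhds hU)).2.2.1
  have k : ∀ b : Fin r, ∃ W ∈ 𝓝 t, ∃ Q, Q t none none = ξ (Equiv.swap 0 b0 b) ∧
      PerS T q B f d m A w W Q ∧ (b = 0 → W = U ∧ Q = P) := fun b => by
    by_cases e : b = 0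
    · exact ⟨U, hU, P, by rw [e, Equiv.swap_apply_left, hb], hP, fun _ => ⟨rfl, rfl⟩⟩
    · obtain ⟨W, hW, Q, h1, h2⟩ := h.cov t _ hT ((hz _).2 ⟨Equiv.swap 0 b0 b, rfl⟩)
      exact ⟨W, hW, Q, h1, h2, fun k => absurd k e⟩
  choose W hW R e hR h0 using k
  obtain ⟨V, -, h1, h2, -⟩ := allx_loc hW hR (by
    simp only [e]
    exact hξ.comp (Equiv.swap 0 b0).injective)
  exact ⟨V, R, (h0 0 rfl).1 ▸ h1 0, h2, (h0 0 rfl).2⟩

end

end Pool.Agent.Lib.MP_5591bc_ag.Cv
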