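import Pool.Agent.Lib.MP_5591bc_ag.Cv.Cell
import Pool.Agent.Lib.MP_5591bc_ag.J.MainU
import Pool.Agent.Lib.MP_5591bc_ag.Z.Fund

/-! The count of the exceptional points (edited copy of `K.Cnt`). -/

namespace Pool.Agent.Lib.MP_5591bc_ag.Cv

open Matrix Filter Topology G R W M N E Z J K Metric

noncomputable section

theorem cntD0 {σ K ν : Type} [Fintype σ] [DecidableEq σ] [Field K] [NumberField K] [Algebra K ℂ]
    [Fintype ν] [DecidableEq ν] {T : MvPolynomial σ K} {B : σ → Matrix ν ν (MvPolynomial σ K)}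
    (T0 : T ≠ 0) (h : GalM T B) : ∃ C : ℕ, ∀ (δ r : ℕ) (U : Set (σ → ℂ))
      (P : (σ → ℂ) → Matrix ν ν ℂ) (C1 C0 : Matrix ν ν ℂ), IsOpen U →
      IsPreconnected U → FundM T B U P → ConnD T U P C1 C0 → Proj T U P C1 C0 →
      FinMon K U P C1 C0 r →
      ∀ (d : ℕ) (H : ℝ), 2 ≤ H → ∀ (S₀ : Set ((σ → ℂ) × Matrix ν ν ℂ))
        (S : Finset (σ → ℂ)), (∀ t ∈ S, MvPolynomial.aeval t T ≠ 0 ∧
        (∀ j, ∃ q : Polynomial ℤ, q ≠ 0 ∧ (∀ i, |(q.coeff i : ℝ)| ≤ H) ∧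
          Polynomial.aeval (t j) q = 0) ∧
        ∃ U' P', ContM U P U' P' ∧ t ∈ U' ∧ ((t, P' t * C1) ∈ S₀ ∧ Lone T U P C1 C0 S₀ P' t) ∧
          ∃ (E : IntermediateField K ℂ) (x : σ → E) (z : Matrix ν ν E),
            (∀ j, (x j : ℂ) = t j) ∧ (∀ i j, (z i j : ℂ) = (P' t * C1) i j) ∧
            FiniteDimensional ℚ E ∧ Module.finrank ℚ E ≤ d ∧ ¬ GoodRM U' P' C1 C0 δ x z) →
        (S.card : ℝ) ≤ (C * (δ + r + 1) * d * Real.log H) ^
          (C * (δ + 1) ^ (Fintype.card σ * Fintype.card (ν × ν))) := by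
  choose c hc using fun j => cellD T0 h (OT j)
  obtain ⟨C, hC⟩ := cntBU T c
  refine ⟨C, fun δ r U P C1 C0 ho hU hP h1 h2 h3 d H H2 S₀ S hS => le_of_le_of_eq
    (hC _ (r + δ + 1) (by positivity) (by positivity) (BadD T B U P C1 C0 S₀ δ)
      (fun j => hc j δ r U P C1 C0 S₀ ho hU hP h1 h2 h3) d H H2 S fun t ht => ?_)
    (by rw [← pow_mul, mul_comm (Fintype.card (ν × ν)), add_comm r δ]; push_cast; rfl)⟩
  obtain ⟨e, b, U', P', k, m, hF, E, x, z, hx, hz, f, hd, hb⟩ := hS t ht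
  obtain ⟨V, v1, v2, v3, -, v5⟩ := cont_fund T0 ho hU hP k m e
  obtain ⟨o, c, a⟩ := cont_dom ho hU (fun i j t ht => ((hP t ht).2 i j).1) k
  obtain rfl : pc x = t := funext hx
  exact ⟨e, b, E, x, rfl, f, hd, V, P', .step _ _ _ _ _ k v1 v2
    (fun i j t ht => ((v5 t ht).2 i j).1) m v3 (.of_forall fun _ => rfl), v5, v3, hF, z,
    Matrix.ext hz, fun g => hb (good_mulR (γ := 1) v1 o c (fun t ht i j => a i j t ht) v3 m
      (by simp) (.of_forall fun _ => ⟨rfl, by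
        rw [Matrix.map_one _ (map_zero _) (map_one _), Matrix.mul_one]⟩) g)⟩

end

end Pool.Agent.Lib.MP_5591bc_ag.Cv
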