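import Pool.Agent.Lib.MP_5591bc_ag.J.Ring
import Pool.Agent.Lib.MP_5591bc_ag.K.Set

/-! Connectedness of one block of the Galois group. -/

namespace Pool.Agent.Lib.MP_5591bc_ag.Cv

open Matrix Filter Topology G R W M N J
open V (evm)

noncomputable section

/-- the ideal of the identity component of the Galois group: it contains the values of the
relations over `Pl'`, and its elements in `𝓑` are values of relations over `Pl` -/
structure GG2 {A Pl Pl' O : Type} [Fintype A] [DecidableEq A] [CommRing Pl] [Algebra ℂ Pl]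
    [CommRing Pl'] [Algebra ℂ Pl'] [CommRing O] [Algebra ℂ O] (τ : Pl →ₐ[ℂ] O) (ev : Pl →ₐ[ℂ] ℂ)
    (τ' : Pl' →ₐ[ℂ] O) (ev' : Pl' →ₐ[ℂ] ℂ) (G : Matrix A A O)
    (𝓑 : Subalgebra ℂ (MvPolynomial (A × A) ℂ)) (I : Ideal (MvPolynomial (A × A) ℂ)) : Prop where
  prime : I.IsPrime
  one : ∀ p ∈ I, evm (RingHom.id ℂ) 1 p = 0
  conv : ∀ (n : Type) [Fintype n] [DecidableEq n] (ρ : Matrix n n (MvPolynomial (A × A) ℂ)),
    RepU.{0, 0} ρ → ∀ y : n → ℂ, GTay τ' ev' (ρ.map (evm (algebraMap ℂ O) G)) y →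
      ∀ l ∈ GRel τ' (ρ.map (evm (algebraMap ℂ O) G) *ᵥ fun j => algebraMap ℂ O (y j)),
        (fun j => MvPolynomial.C (ev' (l j))) ⬝ᵥ (ρ *ᵥ fun j => MvPolynomial.C (y j)) ∈ I
  lift : ∀ (n : Type) [Fintype n] [DecidableEq n] (ρ : Matrix n n (MvPolynomial (A × A) ℂ)),
    RepU.{0, 0} ρ → ∀ y : n → ℂ, GTay τ ev (ρ.map (evm (algebraMap ℂ O) G)) y → ∀ b : n → ℂ,
      (fun j => MvPolynomial.C (b j)) ⬝ᵥ (ρ *ᵥ fun j => MvPolynomial.C (y j)) ∈ I →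
      (fun j => MvPolynomial.C (b j)) ⬝ᵥ (ρ *ᵥ fun j => MvPolynomial.C (y j)) ∈ 𝓑 →
        ∃ l ∈ GRel τ (ρ.map (evm (algebraMap ℂ O) G) *ᵥ fun j => algebraMap ℂ O (y j)),
          ∀ j, ev (l j) = b j

variable {σ ν : Type} [Fintype σ] [Fintype ν] [DecidableEq ν]

/-- the determinant of `Z c` and the entries of `C0 * adj (Z c)` as polynomials in `Z` -/
def djP (C0 c : Matrix ν ν ℂ) (o : Option (ν × ν)) : MvPolynomial (ν × ν) ℂ :=
  o.elim (V.Xm ν * c.map MvPolynomial.C).det fun a => (C0.map MvPolynomial.C *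
    (V.Xm ν * c.map MvPolynomial.C).adjugate : Matrix ν ν (MvPolynomial (ν × ν) ℂ)) a.1 a.2

/-- `Q(Z)` is a polynomial in `det (Z c)` and `C0 * adj (Z c)` -/
def DJ (C0 c : Matrix ν ν ℂ) (Q : MvPolynomial (ν × ν) ℂ) : Prop :=
  ∃ G : MvPolynomial (Option (ν × ν)) ℂ, ∀ Z : Matrix ν ν ℂ,
    MvPolynomial.eval (fun a => Z a.1 a.2) Q = MvPolynomial.eval (dj C0 (Z * c)) G

/-- `ℂ(t, P C1)` is algebraically closed in the field generated by `P C0`, `det P`, `C0 * adj P`,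
for the Taylor series of all branches -/
def ConnD {K : Type} [Field K] [Algebra K ℂ] (T : MvPolynomial σ K) (U : Set (σ → ℂ))
    (P : (σ → ℂ) → Matrix ν ν ℂ) (C1 C0 : Matrix ν ν ℂ) : Prop :=
  ∀ U' P', ContM U P U' P' → ∀ s ∈ U', MvPolynomial.aeval s T ≠ 0 →
    ∃ 𝒜 : Subring (MvPowerSeries σ ℂ), ConnTN (SN fun a => tayM (uuN P' C1 · a) s) 𝒜 ∧
      (∀ p ∈ SN fun a => tayM (uuN P' C1 · a) s, p ∈ 𝒜) ∧
      (∀ i j, tayM (fun t => (P' t * C0) i j) s ∈ 𝒜) ∧ ∀ o, tayM (fun t => dj C0 (P' t) o) s ∈ 𝒜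

omit [Fintype ν] [DecidableEq ν] in
theorem cv_trans {U V W : Set (σ → ℂ)} {P Q Y : (σ → ℂ) → Matrix ν ν ℂ}
    (h : ContM U P V Q) (k : ContM V Q W Y) : ContM U P W Y := by
  induction k with
  | base => exact h
  | step _ _ _ _ s _ o c a s1 s2 e ih => exact .step _ _ _ _ s ih o c a s1 s2 e

theorem ConnD.cont {K : Type} [Field K] [Algebra K ℂ] {T : MvPolynomial σ K}
    {U U' : Set (σ → ℂ)} {P P' : (σ → ℂ) → Matrix ν ν ℂ} {C1 C0 : Matrix ν ν ℂ}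
    (h : ConnD T U P C1 C0) (k : ContM U P U' P') : ConnD T U' P' C1 C0 :=
  fun _ _ k' => h _ _ (cv_trans k k')

end

end Pool.Agent.Lib.MP_5591bc_ag.Cv
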