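import Pool.Agent.Lib.MP_5591bc_ag.Cv.Down
import Pool.Agent.Lib.MP_5591bc_ag.Cv.SetW

/-! Connectedness passes to the direct image. -/

namespace Pool.Agent.Lib.MP_5591bc_ag.Cv

open Polynomial Set Filter Topology Matrix G M A B E Z N J Cu
open scoped Polynomial.Bivariate

noncomputable section

section
variable {Ω : Type*} {F : Subalgebra ℂ (Ω → ℂ)} {α β γ : Type*}

theorem cn_const (c : ℂ) : (fun _ => c) ∈ F := F.algebraMap_mem c

theorem cn_mul {a b : Ω → ℂ} (ha : a ∈ F) (hb : b ∈ F) : (fun t => a t * b t) ∈ F := mul_mem ha hb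

theorem cn_pow {a : Ω → ℂ} (ha : a ∈ F) (k : ℕ) : (fun t => a t ^ k) ∈ F := pow_mem ha k

theorem cn_sum [Fintype α] {g : α → Ω → ℂ} (h : ∀ i, g i ∈ F) : (fun t => ∑ i, g i t) ∈ F := by
  rw [show (fun t => ∑ i, g i t) = ∑ i, g i from funext fun t => (Finset.sum_apply _ _ _).symm]
  exact sum_mem fun i _ => h i

theorem cn_prod [Fintype α] {g : α → Ω → ℂ} (h : ∀ i, g i ∈ F) : (fun t => ∏ i, g i t) ∈ F := by
  rw [show (fun t => ∏ i, g i t) = ∏ i, g i from funext fun t => (Finset.prod_apply _ _ _).symm]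
  exact prod_mem fun i _ => h i

theorem cn_ite (p : Prop) [Decidable p] {a b : Ω → ℂ} (ha : a ∈ F) (hb : b ∈ F) :
    (fun t => if p then a t else b t) ∈ F := by
  by_cases h : p
  · simpa only [if_pos h] using ha
  · simpa only [if_neg h] using hb

theorem cn_mm [Fintype β] {L : Ω → Matrix α β ℂ} {L' : Ω → Matrix β γ ℂ}
    (h : ∀ i j, (fun t => L t i j) ∈ F) (h' : ∀ i j, (fun t => L' t i j) ∈ F) (i : α) (j : γ) :
    (fun t => (L t * L' t) i j) ∈ F := cn_sum fun k => cn_mul (h i k) (h' k j)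

theorem cn_det [Fintype α] [DecidableEq α] {L : Ω → Matrix α α ℂ}
    (h : ∀ i j, (fun t => L t i j) ∈ F) : (fun t => (L t).det) ∈ F := by
  simp only [det_apply']
  exact cn_sum fun τ => cn_mul (cn_const _) (cn_prod fun i => h _ _)

theorem cn_adj [Fintype α] [DecidableEq α] {L : Ω → Matrix α α ℂ}
    (h : ∀ i j, (fun t => L t i j) ∈ F) (i j : α) : (fun t => (L t).adjugate i j) ∈ F := by
  simp only [adjugate_apply]
  refine cn_det fun a b => ?_
  simp only [updateRow_apply]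
  exact cn_ite _ (cn_const _) (h a b)

theorem cn_aeval {k : Type*} [CommRing k] [Algebra k ℂ] {u : Ω → α → ℂ}
    (h : ∀ a, (fun t => u t a) ∈ F) (p : MvPolynomial α k) :
    (fun t => MvPolynomial.aeval (u t) p) ∈ F := by
  induction p using MvPolynomial.induction_on with
  | C a => simpa only [MvPolynomial.aeval_C] using cn_const _
  | add p p' hp hp' =>
    simp only [map_add]
    exact add_mem hp hp'
  | mul_X p a hp => simpa only [map_mul, MvPolynomial.aeval_X] using cn_mul hp (h a)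

theorem cn_key {μ ι : Type} [Fintype μ] [DecidableEq μ] [Fintype ι] [DecidableEq ι] {c : μ → ι}
    {Z A : Matrix ι ι ℂ} {a : ℂ} (h : a • (Z * pr c) = A * Z) :
    (a * (Z.submatrix c c).det) • (pr c * Z.adjugate) =
      Z.det • (bm c * ((Z.submatrix c c).adjugate * A.submatrix c id)) := by
  have e1 : (Z * pr c).submatrix c id = Z.submatrix c c * (bm c)ᵀ := by
    rw [B.pr, ← Matrix.mul_assoc, mul_bm]
    rfl
  have e2 : a • (Z.submatrix c c * ((bm c)ᵀ * Z.adjugate)) = Z.det • A.submatrix c id := by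
    have := congrArg (fun L => (L * Z.adjugate).submatrix c id) h
    simp only [Matrix.mul_assoc A, mul_adjugate, Matrix.mul_smul, Matrix.mul_one,
      Matrix.smul_mul] at this
    rw [← Matrix.mul_assoc, ← e1]
    exact this
  rw [← Matrix.mul_smul (bm c), ← Matrix.mul_smul (Z.submatrix c c).adjugate, ← e2,
    Matrix.mul_smul, ← Matrix.mul_assoc (Z.submatrix c c).adjugate, adjugate_mul, Matrix.smul_mul,
    Matrix.one_mul, smul_smul, Matrix.mul_smul, B.pr, Matrix.mul_assoc]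

end

section
variable {σ : Type}

/-- the series with a multiple in `R` by a non zero element of `R` -/
def cnS (R : Subalgebra ℂ (MvPowerSeries σ ℂ)) : Subring (MvPowerSeries σ ℂ) where
  carrier := {f | ∃ d ∈ R, d ≠ 0 ∧ d * f ∈ R}
  mul_mem' := fun {f g} ⟨d, hd, d0, h⟩ ⟨e, he, e0, k⟩ => ⟨d * e, mul_mem hd he, mul_ne_zero d0 e0,
    by rw [mul_mul_mul_comm]; exact mul_mem h k⟩
  one_mem' := ⟨1, one_mem _, one_ne_zero, by rw [mul_one]; exact one_mem _⟩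
  add_mem' := fun {f g} ⟨d, hd, d0, h⟩ ⟨e, he, e0, k⟩ => ⟨d * e, mul_mem hd he, mul_ne_zero d0 e0,
    by
      rw [show d * e * (f + g) = e * (d * f) + d * (e * g) by ring]
      exact add_mem (mul_mem he h) (mul_mem hd k)⟩
  zero_mem' := ⟨1, one_mem _, one_ne_zero, by rw [mul_zero]; exact zero_mem _⟩
  neg_mem' := fun {f} ⟨d, hd, d0, h⟩ => ⟨d, hd, d0, by rw [mul_neg]; exact neg_mem h⟩

theorem cn_le {R : Subalgebra ℂ (MvPowerSeries σ ℂ)} {f : MvPowerSeries σ ℂ} (h : f ∈ R) :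
    f ∈ cnS R := ⟨1, one_mem _, one_ne_zero, by rwa [one_mul]⟩

theorem cn_conn {S R : Subalgebra ℂ (MvPowerSeries σ ℂ)} (h : ConnTN S R) : ConnTN S (cnS R) := by
  rintro u ⟨d, hd, d0, hu⟩ v ⟨e, he, e0, hv⟩ k p hp v0 hj hs
  obtain ⟨a, ha, b, hb, b0, r⟩ := h (e * (d * u)) (mul_mem he hu) (d * (e * v)) (mul_mem hd hv) k p
    hp (mul_ne_zero d0 (mul_ne_zero e0 v0)) hj (by
      rw [← mul_zero ((d * e) ^ k), ← hs, Finset.mul_sum]
      refine Finset.sum_congr rfl fun j hj => ?_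
      obtain ⟨i, rfl⟩ := Nat.exists_eq_add_of_le (Nat.lt_succ_iff.1 (Finset.mem_range.1 hj))
      rw [Nat.add_sub_cancel_left]
      ring)
  refine ⟨a, ha, b, hb, b0, mul_left_cancel₀ (mul_ne_zero d0 e0) ?_⟩
  linear_combination r

variable [Fintype σ] [DecidableEq σ]

/-- the functions analytic at `s` with Taylor series in `R` -/
def cnF (R : Subalgebra ℂ (MvPowerSeries σ ℂ)) (s : σ → ℂ) : Subalgebra ℂ ((σ → ℂ) → ℂ) where
  carrier := {g | AnalyticAt ℂ g s ∧ tayM g s ∈ R}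
  mul_mem' := fun {a b} ha hb => ⟨ha.1.mul hb.1, by
    rw [show a * b = fun t => a t * b t from rfl, tayM_mul ha.1 hb.1]
    exact mul_mem ha.2 hb.2⟩
  add_mem' := fun {a b} ha hb => ⟨ha.1.add hb.1, by
    rw [show a + b = fun t => a t + b t from rfl, tayM_add ha.1 hb.1]
    exact add_mem ha.2 hb.2⟩
  algebraMap_mem' c := ⟨analyticAt_const, by
    rw [show algebraMap ℂ ((σ → ℂ) → ℂ) c = fun _ => c from rfl, tayM_const]
    exact R.algebraMap_mem c⟩

variable {R : Subalgebra ℂ (MvPowerSeries σ ℂ)} {s : σ → ℂ} {d g g' : (σ → ℂ) → ℂ}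

theorem cn_congr (h : g ∈ cnF R s) (e : ∀ᶠ t in 𝓝 s, g t = g' t) : g' ∈ cnF R s :=
  ⟨h.1.congr e, tayM_congr e ▸ h.2⟩

theorem cn_coord {κ : Type*} (Ψ : κ → MvPowerSeries σ ℂ) (l : σ) :
    (fun t => t l) ∈ cnF (SN Ψ) s :=
  ⟨(ContinuousLinearMap.proj (R := ℂ) (φ := fun _ : σ => ℂ) l).analyticAt s, by
    rw [tayM_coord]
    exact add_mem (Algebra.subset_adjoin (.inl ⟨l, rfl⟩)) ((SN Ψ).algebraMap_mem _)⟩

theorem cn_sat (hd : d ∈ cnF R s) (d0 : d s ≠ 0) (hg : AnalyticAt ℂ g s) (hg' : g' ∈ cnF R s)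
    (e : ∀ᶠ t in 𝓝 s, g' t = d t * g t) : tayM g s ∈ cnS R :=
  ⟨tayM d s, hd.2, fun h => d0 (by rw [← constantCoeff_tayM hd.1, h, map_zero]), by
    rw [← tayM_mul hd.1 hg]
    exact (cn_congr hg' e).2⟩

omit [Fintype σ] [DecidableEq σ] in
theorem cn_SN {κ κ' : Type*} {Ψ : κ → MvPowerSeries σ ℂ} {Ψ' : κ' → MvPowerSeries σ ℂ}
    (h : ∀ a, Ψ a ∈ SN Ψ') : SN Ψ ≤ SN Ψ' := by
  refine Algebra.adjoin_le ?_
  rintro _ (⟨l, rfl⟩ | ⟨a, rfl⟩)
  exacts [Algebra.subset_adjoin (.inl ⟨l, rfl⟩), h a]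

end

variable {σ K ν : Type} [Field K] [NumberField K] [Algebra K ℂ] [Fintype σ] [DecidableEq σ]
  [Fintype ν] [DecidableEq ν] {T : MvPolynomial σ K} {q : (MvPolynomial σ K)[X]} {r n m : ℕ}
  {B : σ → Matrix ν ν (MvPolynomial σ K)[X]} {U U' V V' : Set (σ → ℂ)}
  {P P' : (σ → ℂ) → Matrix (Option ν) (Option ν) ℂ} {s t : σ → ℂ} {z : ℂ} {w : ν → ℕ}
  {J : Matrix ν ν ℝ}
  [NeZero r] [NeZero n] {B2 : σ → Matrix (Iy ν r n) (Iy ν r n) (MvPolynomial σ K)}
  {Ph Ph' : (σ → ℂ) → Matrix (Iy ν r n) (Iy ν r n) ℂ} {Z : Matrix (Iy ν r n) (Iy ν r n) ℂ}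
  {M : Matrix (Option ν) (Option ν) ℂ}

section
variable {Q : (σ → ℂ) → Matrix (Option ν) (Option ν) ℂ} {R : Subalgebra ℂ (MvPowerSeries σ ℂ)}

theorem cn_pw (sh : ∀ᶠ t in 𝓝 s, Shp (Ph t) (Q t))
    (od : ∀ᶠ t in 𝓝 s, ∀ i, Q t (some i) none = 0 ∧ Q t none (some i) = 0)
    (hR : (fun t => Q t none none) ∈ cnF R s) (a : Iy ν r n × Iy ν r n) :
    (fun t => uuN Ph (c1 ν r n) t a) ∈ cnF R s := by
  refine cn_congr (cn_ite (a.1.1.1 = none ∧ a.1.2 = 0 ∧ a.2 = i0 r n none) (cn_pow hR a.1.1.2)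
    (cn_const 0)) ?_
  filter_upwards [sh, od] with t h1 h2
  rw [uuN, h1.mul_c1 h2]
  rfl

theorem cn_sz (od : ∀ᶠ t in 𝓝 s, ∀ i, Q t (some i) none = 0 ∧ Q t none (some i) = 0)
    (hR : (fun t => Q t none none) ∈ cnF R s) (a : Option ν × Option ν) :
    (fun t => uuN Q (sz ν 1) t a) ∈ cnF R s := by
  refine cn_congr (cn_ite (none = a.1 ∧ none = a.2) hR (cn_const 0)) ?_
  filter_upwards [od] with t h2
  rw [uuN, mul_sz h2]
  rfl

theorem cn_eq (sh : ∀ᶠ t in 𝓝 s, Shp (Ph t) (Q t))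
    (od : ∀ᶠ t in 𝓝 s, ∀ i, Q t (some i) none = 0 ∧ Q t none (some i) = 0)
    (aQ : AnalyticAt ℂ (fun t => Q t none none) s) (hQ : ∀ t, Q t = bk q t (Ph t)) :
    (SN fun a => tayM (uuN Q (sz ν 1) · a) s) = SN fun a => tayM (uuN Ph (c1 ν r n) · a) s := by
  have z0 : (fun t => Q t none none) ∈ cnF ⊤ s := ⟨aQ, trivial⟩
  have z1 : (fun t => Q t none none) ∈ cnF (SN fun a => tayM (uuN Q (sz ν 1) · a) s) s := by
    refine cn_congr (g := fun t => uuN Q (sz ν 1) t (none, none))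
      ⟨(cn_sz od z0 _).1, brg_mem _ (none, none)⟩ ?_
    filter_upwards [od] with t h2
    rw [uuN, mul_sz h2]
    exact single_apply_same _ _ _
  have z2 : (fun t => Q t none none) ∈ cnF (SN fun a => tayM (uuN Ph (c1 ν r n) · a) s) s := by
    refine cn_congr (cn_sum fun a : Fin r => cn_mul (cn_aeval (cn_coord _) ((X %ₘ q).coeff a))
      (b := fun t => uuN Ph (c1 ν r n) t (((none, a), 0), i0 r n none))
      ⟨(cn_pw sh od z0 _).1, brg_mem _ _⟩) (.of_forall fun t => ?_)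
    simp [hQ, bk, uuN]
  exact le_antisymm (cn_SN fun a => (cn_sz od z2 a).2) (cn_SN fun a => (cn_pw sh od z1 a).2)

theorem cn_col (sh : ∀ᶠ t in 𝓝 s, Shp (Ph t) (Q t)) (mQ : ∀ i j, (fun t => Q t i j) ∈ cnF R s)
    (i j : Iy ν r n) : (fun t => (Ph t * pr (ic ν r n)) i j) ∈ cnF R s := by
  refine cn_congr (cn_mm (L := fun t => (Ph t).submatrix id (ic ν r n))
    (L' := fun _ => (bm (ic ν r n))ᵀ) (fun a b => ?_) (fun _ _ => cn_const _) i j)
    (.of_forall fun t => by rw [B.pr, ← Matrix.mul_assoc, mul_bm])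
  refine cn_congr (cn_ite (a.2 = 0) (cn_mul (cn_pow (mQ none none) a.1.2)
    (cn_ite (a.1.1 = none ∧ some b = none) (cn_const 1) (mQ a.1.1 (some b)))) (cn_const 0)) ?_
  filter_upwards [sh] with t ht
  exact (ht a (some b)).symm

end

theorem cn_dj {μ ι : Type} [Fintype μ] [DecidableEq μ] [Fintype ι] [DecidableEq ι] {c : μ → ι}
    {R : Subalgebra ℂ (MvPowerSeries σ ℂ)} {L A : (σ → ℂ) → Matrix ι ι ℂ} {a b : (σ → ℂ) → ℂ}
    (aL : ∀ i j, AnalyticAt ℂ (fun t => L t i j) s) (ha : a ∈ cnF R s) (hb : b ∈ cnF R s)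
    (a0 : a s ≠ 0) (b0 : b s ≠ 0) (d0 : ((L s).submatrix c c).det ≠ 0)
    (mp : (fun t => b t * (L t).det) ∈ cnF R s)
    (mY : ∀ i j, (fun t => (L t).submatrix c c i j) ∈ cnF R s)
    (mA : ∀ i j, (fun t => A t i j) ∈ cnF R s) (e : ∀ᶠ t in 𝓝 s, a t • (L t * pr c) = A t * L t)
    (o : Option (ι × ι)) : tayM (fun t => dj (pr c) (L t) o) s ∈ cnS R := by
  have tP : ∀ i j, (fun t => L t i j) ∈ cnF ⊤ s := fun i j => ⟨aL i j, trivial⟩
  rcases o with _ | ⟨i, j⟩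
  · exact cn_sat hb b0 (cn_det tP).1 mp (.of_forall fun _ => rfl)
  · refine cn_sat (cn_mul hb (cn_mul ha (cn_det mY))) (mul_ne_zero b0 (mul_ne_zero a0 d0))
      (cn_mm (L := fun _ => pr c) (fun _ _ => cn_const _) (cn_adj tP) i j).1
      (cn_mul mp (cn_mm (L := fun _ => bm c) (fun _ _ => cn_const _)
        (cn_mm (L' := fun t => (A t).submatrix c id) (cn_adj mY) fun i j => mA _ _) i j)) ?_
    filter_upwards [e] with t ht
    have e := congrFun₂ (cn_key ht) i j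
    rw [Matrix.smul_apply, Matrix.smul_apply, smul_eq_mul, smul_eq_mul] at e
    rw [mul_assoc, ← e, ← mul_assoc]
    rfl

theorem Up.conn (h : Up T q B B2 U P V Ph) (hJ : PolS T U P J w)
    (hj : Proj T V Ph (c1 ν r n) (pr (ic ν r n)))
    (hd : ∃ (N : ℕ) (p : MvPolynomial σ ℂ), ∀ t ∈ V,
      MvPolynomial.aeval t T ^ N * (Ph t).det = MvPolynomial.eval t p)
    (hC : ConnRM U P fun t => P t * sz ν 1) : ConnD T V Ph (c1 ν r n) (pr (ic ν r n)) := by
  intro U' P' k s hs hT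
  obtain ⟨kM, sh⟩ := h.down k
  obtain ⟨Q, hQ⟩ : ∃ Q : (σ → ℂ) → Matrix (Option ν) (Option ν) ℂ, ∀ t, Q t = bk q t (P' t) :=
    ⟨_, fun _ => rfl⟩
  rw [← funext hQ] at kM
  simp only [← hQ] at sh
  have d0 := (hJ.hs _ _ kM s hs hT).2
  obtain ⟨ho, hc, fs⟩ := h.fs.cont h.ho h.hc kM
  have nb := ho.mem_nhds hs
  have aQ := fun t ht => (fs t ht).1
  have aP := (brg_cont h.op h.co (fun t ht i j => ((h.fm t ht).2 i j).1) k).2.2 s hs
  have hC' : ConnTN (SN fun a => tayM (uuN Q (sz ν 1) · a) s)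
      (Set.range (evN s fun a : Option ν × Option ν => tayM (Q · a.1 a.2) s)) :=
    (connRM_iff ho hc aQ (brg_an aQ _) hs).1 (hC.cont h.ho h.hc (fun t ht => (h.fs t ht).1) _ kM)
  obtain ⟨-, N, A, hA⟩ := proj_cont h.op hj k
  obtain ⟨N', p, hp⟩ := hd
  have hp' := det_cont (C1 := c1 ν r n) (A := MvPolynomial.rename Sum.inl p) h.op
    (fun t ht => by rw [hp t ht, MvPolynomial.eval_rename]; rfl) k
  have sh' : ∀ᶠ t in 𝓝 s, Shp (P' t) (Q t) := mem_of_superset nb sh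
  have od : ∀ᶠ t in 𝓝 s, ∀ i, Q t (some i) none = 0 ∧ Q t none (some i) = 0 :=
    mem_of_superset nb fun t ht => (fs t ht).2.1
  rw [cn_eq sh' od (aQ s hs _ _) hQ] at hC'
  obtain ⟨R, hR⟩ : ∃ R, R = SN fun a : Option ν × Option ν => tayM (Q · a.1 a.2) s := ⟨_, rfl⟩
  have mQ : ∀ i j, (fun t => Q t i j) ∈ cnF R s := fun i j =>
    ⟨aQ s hs i j, by rw [hR]; exact brg_mem _ (i, j)⟩
  have co : ∀ l, (fun t => t l) ∈ cnF R s := fun l => by rw [hR]; exact cn_coord _ l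
  have mT := cn_aeval co T
  have pw := cn_pw sh' od (mQ none none)
  have le : (SN fun a => tayM (uuN P' (c1 ν r n) · a) s) ≤ R := by
    rw [hR]
    exact cn_SN fun a => by rw [← hR]; exact (pw a).2
  refine ⟨cnS R, cn_conn (hC'.mono fun f hf => (mem_SN s).1 (by rw [← hR]; exact hf)),
    fun f hf => cn_le (le hf), fun i j => cn_le (cn_col sh' mQ i j).2,
    cn_dj (A := fun t => A.map (MvPolynomial.aeval (Sum.elim t fun a => uuN P' (c1 ν r n) t a)))
      aP (cn_pow mT N) (cn_pow mT N') (pow_ne_zero _ hT) (pow_ne_zero _ hT) ?_ ?_ ?_ ?_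
      (mem_of_superset nb hA)⟩
  · rwa [(sh s hs).sub]
  · refine cn_congr (cn_aeval co p) ?_
    filter_upwards [nb] with t ht
    rw [hp' t ht, MvPolynomial.eval_rename, MvPolynomial.aeval_eq_eval]
    rfl
  · refine fun i j => cn_congr (mQ (some i) (some j)) ?_
    filter_upwards [sh'] with t ht
    rw [ht.sub]
    rfl
  · refine fun i j => cn_aeval (u := fun t => Sum.elim t fun a => uuN P' (c1 ν r n) t a) ?_ _
    rintro (l | c)
    exacts [co l, pw c]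

end

end Pool.Agent.Lib.MP_5591bc_ag.Cv
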