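import Pool.Agent.Lib.MP_5591bc_ag.Cv.Fin

namespace Pool.Agent.Lib.MP_5591bc_ag.Cv.CurveOld

open Polynomial Filter Topology Matrix Pool.Agent.Lib.MP_5591bc_ag.M Pool.Agent.Lib.MP_5591bc_ag.N
  Pool.Agent.Lib.MP_5591bc_ag.K Pool.Agent.Lib.MP_5591bc_ag.Rg Pool.Agent.Lib.MP_5591bc_ag.Cv

/-- Families of plane curves `f(t, z, x, y) = 0` over a finite cover `q(t, z) = 0` of the space of
`k` parameters, unramified over `T ≠ 0`, with `2 g` forms whose periods form a lattice, the first
`g` of the first kind. If the monodromy is connected, a set of points of the cover of height at most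
`H` and degree at most `D` which fail the degree `δ` property, and (if `k ≠ 1`) lie outside the
Hodge locus and are not joined inside a weakly special locus, has at most
`(C (δ+1) D log H)^(C (δ+1)^N)` elements. -/
theorem curveOld (K : Type) [Field K] [NumberField K] [Algebra K ℂ] (k g m : ℕ)
    (T : MvPolynomial (Fin k) K) (hT : T ≠ 0) (q : Polynomial (MvPolynomial (Fin k) K))
    (hq : q.Monic) (he : C T ∈ Ideal.span {q, derivative q})
    (B : Fin k → Matrix (Fin (2 * g)) (Fin (2 * g)) (Polynomial (MvPolynomial (Fin k) K)))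
    (f : Polynomial (Polynomial (Polynomial (MvPolynomial (Fin k) K)))) (hf : f.Monic)
    (d : Polynomial (Polynomial (MvPolynomial (Fin k) K))) (hd : d.Monic)
    (A : Fin (2 * g) → Polynomial (Polynomial (Polynomial (MvPolynomial (Fin k) K))))
    (w : Fin (2 * g) → ℕ) (hw : ∀ i, w i = if (i : ℕ) < g then 1 else 0)
    (h : ∀ t z, MvPolynomial.aeval t T ≠ 0 → evz t z q = 0 →
      ∃ V ∈ 𝓝 t, ∃ P, P t none none = z ∧ PerS T q B f d m A w V P) :
    ∃ C N : ℕ, ∀ (δ : ℕ) (U : Set (Fin k → ℂ))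
      (P : (Fin k → ℂ) → Matrix (Option (Fin (2 * g))) (Option (Fin (2 * g))) ℂ),
      IsOpen U → IsPreconnected U → PerS T q B f d m A w U P →
      (ConnRM U P fun t => P t * single none none 1) →
      ∀ (D : ℕ) (H : ℝ), 2 ≤ H → ∀ S : Finset ((Fin k → ℂ) × ℂ),
        (∀ s ∈ S, MvPolynomial.aeval s.1 T ≠ 0 ∧
          (∀ l, ∃ p : ℤ[X], p ≠ 0 ∧ (∀ i, |(p.coeff i : ℝ)| ≤ H) ∧ aeval (s.1 l) p = 0) ∧
          ∃ U' P', ContM U P U' P' ∧ s.1 ∈ U' ∧ P' s.1 none none = s.2 ∧
            (k = 1 ∨ HGen 1 w (fun t => (P' t).submatrix some some) s.1 ∧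
              ∀ s' ∈ S, WS T U P (single none none 1) some 1 w P' s.1
                (s'.1, single none none s'.2) → s' = s) ∧
            ∃ (E : IntermediateField K ℂ) (x : Fin k → E) (z : E), (∀ l, (x l : ℂ) = s.1 l) ∧
              (z : ℂ) = s.2 ∧ FiniteDimensional ℚ E ∧ Module.finrank ℚ E ≤ D ∧
              ¬ GoodRM U' P' (single none none 1) (1 - single none none 1) δ x
                (single none none z)) →
        (S.card : ℝ) ≤ (C * (δ + 1) * D * Real.log H) ^ (C * (δ + 1) ^ N) := by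
  simpa only [Fintype.card_fin] using cntS (fam2_of hT hq he hf hd hw h)

end Pool.Agent.Lib.MP_5591bc_ag.Cv.CurveOld
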