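import Pool.Agent.Lib.MP_5591bc_ag.Cu.Defs

/-! Families of plane curves over a finite cover `q(t, z) = 0` of the space of parameters. -/

namespace Pool.Agent.Lib.MP_5591bc_ag.Cv

open Polynomial Matrix Cu
open scoped Polynomial.Bivariate

noncomputable section

variable {K σ ν : Type*} [Field K] [Algebra K ℂ]

/-- evaluation at the point `(t, z)` -/
def evz (t : σ → ℂ) (z : ℂ) : (MvPolynomial σ K)[X] →+* ℂ := eval₂RingHom (evt t) z

variable [Fintype σ] [DecidableEq σ] [Fintype ν] [DecidableEq ν]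

/-- `P` is holomorphic on `U` and block diagonal with blocks `Q` and `ζ`, where `q(t, ζ) = 0` and
`T ∂_l Q = B l (t, ζ) * Q` -/
def FundS (T : MvPolynomial σ K) (q : (MvPolynomial σ K)[X])
    (B : σ → Matrix ν ν (MvPolynomial σ K)[X]) (U : Set (σ → ℂ))
    (P : (σ → ℂ) → Matrix (Option ν) (Option ν) ℂ) : Prop :=
  ∀ t ∈ U, (∀ i j, AnalyticAt ℂ (fun z => P z i j) t) ∧
    (∀ i, P t (some i) none = 0 ∧ P t none (some i) = 0) ∧ evz t (P t none none) q = 0 ∧
    ∀ l i j, MvPolynomial.aeval t T * fderiv ℂ (fun z => P z (some i) (some j)) t (Pi.single l 1) =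
      ∑ a, evz t (P t none none) (B l i a) * P t (some a) (some j)

/-- moreover `Q t` is a period matrix of the forms `A i dx / d ^ m` on the curve
`f(t, ζ t, x, y) = 0` -/
def PerS (T : MvPolynomial σ K) (q : (MvPolynomial σ K)[X])
    (B : σ → Matrix ν ν (MvPolynomial σ K)[X]) (f : (MvPolynomial σ K)[X][X][Y])
    (d : (MvPolynomial σ K)[X][X]) (m : ℕ) (A : ν → (MvPolynomial σ K)[X][X][Y]) (w : ν → ℕ)
    (U : Set (σ → ℂ)) (P : (σ → ℂ) → Matrix (Option ν) (Option ν) ℂ) : Prop :=
  FundS T q B U P ∧ ∀ t ∈ U, Fib (f.map (mapRingHom (evz t (P t none none))))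
    (d.map (evz t (P t none none))) m (fun i => (A i).map (mapRingHom (evz t (P t none none)))) w
    ((P t).submatrix some some)

end

end Pool.Agent.Lib.MP_5591bc_ag.Cv
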