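import Pool.Agent.Lib.MP_5591bc_ag.Cv.SetP
import Pool.Agent.Lib.MP_5591bc_ag.Cu.Det

/-! A power of an algebraic determinant is rational. -/

namespace Pool.Agent.Lib.MP_5591bc_ag.Cv

open Polynomial Set Filter Topology Matrix G M A B E Z Cu
open scoped Polynomial.Bivariate

noncomputable section

variable {σ K ν : Type} [Field K] [NumberField K] [Algebra K ℂ] [Fintype σ] [DecidableEq σ]
  [Fintype ν] [DecidableEq ν] {T : MvPolynomial σ K} {B : σ → Matrix ν ν (MvPolynomial σ K)}
  {U V : Set (σ → ℂ)} {P Q : (σ → ℂ) → Matrix ν ν ℂ} {t : σ → ℂ}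

theorem fund_det (hP : FundM T B U P) (ht : t ∈ U) (l : σ) :
    MvPolynomial.aeval t T * fderiv ℂ (fun z => (P z).det) t (Pi.single l 1) =
      MvPolynomial.aeval t (B l).trace * (P t).det := by
  have df : ∀ i j, DifferentiableAt ℂ (fun z => P z i j) t := fun i j =>
    ((hP t ht).2 i j).1.differentiableAt
  have e1 : ∀ i, MvPolynomial.aeval t (B l i i) * (P t).det =
      ((P t).updateRow i (∑ a, MvPolynomial.aeval t (B l i a) • P t a)).det := fun i =>
    (det_updateRow_sum (P t) i fun a => MvPolynomial.aeval t (B l i a)).symm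
  have e2 : HasFDerivAt (fun z => (P z).det) (∑ π : Equiv.Perm ν,
      ((Equiv.Perm.sign π : ℤ) : ℂ) • ∑ i, (∏ j ∈ Finset.univ.erase i, P t j (π j)) •
        fderiv ℂ (fun z => P z i (π i)) t) t := by
    have : ∀ z, (P z).det = ∑ π : Equiv.Perm ν, ((Equiv.Perm.sign π : ℤ) : ℂ) *
        ∏ i, P z i (π i) := fun z => by rw [← det_transpose, det_apply']; rfl
    simp only [this]
    exact HasFDerivAt.fun_sum fun π _ =>
      (HasFDerivAt.finsetProd fun i _ => (df i (π i)).hasFDerivAt).const_mul _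
  rw [e2.fderiv, trace, map_sum, Finset.sum_mul]
  simp only [diag, e1, ContinuousLinearMap.sum_apply, ContinuousLinearMap.smul_apply, smul_eq_mul,
    Finset.mul_sum]
  rw [Finset.sum_comm]
  refine Finset.sum_congr rfl fun i _ => ?_
  rw [← det_transpose, det_apply']
  refine Finset.sum_congr rfl fun π _ => ?_
  rw [← Finset.mul_prod_erase _ _ (Finset.mem_univ i), transpose_apply, updateRow_self,
    Finset.sum_apply, Finset.prod_congr rfl fun j hj => (show ((P t).updateRow i _)ᵀ (π j) j =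
      P t j (π j) by rw [transpose_apply, updateRow_ne (Finset.ne_of_mem_erase hj)])]
  simp only [Pi.smul_apply, smul_eq_mul, ← ((hP t ht).2 i (π i)).2 l]
  ring

theorem dp_ev (p : MvPolynomial σ ℂ) (t : σ → ℂ) (l : σ) :
    fderiv ℂ (fun z => MvPolynomial.eval z p) t (Pi.single l 1) =
      MvPolynomial.eval t (MvPolynomial.pderiv l p) := by
  have df : ∀ p : MvPolynomial σ ℂ, DifferentiableAt ℂ (fun z => MvPolynomial.eval z p) t :=
    fun p => (cdet_ev p univ t trivial).differentiableAt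
  induction p using MvPolynomial.induction_on with
  | C a => simp
  | add p q hp hq =>
    simp only [map_add]
    rw [fderiv_fun_add (df p) (df q), ContinuousLinearMap.add_apply, hp, hq]
  | mul_X p n hp =>
    simp only [map_mul, MvPolynomial.eval_X]
    rw [fderiv_fun_mul (df p) (hasFDerivAt_apply n t).differentiableAt, (hasFDerivAt_apply n t).fderiv]
    simp only [ContinuousLinearMap.add_apply, ContinuousLinearMap.smul_apply, hp, smul_eq_mul,
      ContinuousLinearMap.proj_apply, Derivation.leibniz, map_add, map_mul, MvPolynomial.eval_X,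
      MvPolynomial.pderiv_X, Pi.single_apply]
    by_cases e : n = l <;> simp [e]

/-- the logarithmic derivative of `p δ ^ j` -/
theorem dp_term {S : MvPolynomial σ ℂ} {τ : MvPolynomial σ ℂ} {δ : (σ → ℂ) → ℂ} {l : σ}
    (hδ : DifferentiableAt ℂ δ t) (h : MvPolynomial.eval t S * fderiv ℂ δ t (Pi.single l 1) =
      MvPolynomial.eval t τ * δ t) (p : MvPolynomial σ ℂ) (j : ℕ) :
    MvPolynomial.eval t S * fderiv ℂ (fun z => MvPolynomial.eval z p * δ z ^ j) t (Pi.single l 1) =
      MvPolynomial.eval t (S * MvPolynomial.pderiv l p + j * τ * p) * δ t ^ j := by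
  have dp : DifferentiableAt ℂ (fun z => MvPolynomial.eval z p) t :=
    (cdet_ev p univ t trivial).differentiableAt
  induction j with
  | zero => simp [dp_ev]
  | succ j ih =>
    simp only [pow_succ, ← mul_assoc]
    rw [fderiv_fun_mul (dp.fun_mul (hδ.fun_pow j)) hδ]
    simp only [ContinuousLinearMap.add_apply, ContinuousLinearMap.smul_apply, smul_eq_mul,
      map_add, map_mul, map_natCast, Nat.cast_succ, map_one] at ih ⊢
    linear_combination MvPolynomial.eval t p * δ t ^ j * h + δ t * ih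

/-- an algebraic function with rational logarithmic derivative has a rational power -/
theorem dp_min {S : MvPolynomial σ ℂ} {τ : σ → MvPolynomial σ ℂ} {δ : (σ → ℂ) → ℂ} (ho : IsOpen V)
    (hne : V.Nonempty) (hδ : ∀ t ∈ V, DifferentiableAt ℂ δ t) (d0 : ∀ t ∈ V, δ t ≠ 0)
    (h : ∀ t ∈ V, ∀ l, MvPolynomial.eval t S * fderiv ℂ δ t (Pi.single l 1) =
      MvPolynomial.eval t (τ l) * δ t) (n : ℕ) (p : ℕ → MvPolynomial σ ℂ) (p0 : ∃ j ≤ n, p j ≠ 0)
    (hp : ∀ t ∈ V, ∑ j ∈ Finset.range (n + 1), MvPolynomial.eval t (p j) * δ t ^ j = 0) :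
    ∃ m > 0, ∃ a b : MvPolynomial σ ℂ, a ≠ 0 ∧ b ≠ 0 ∧ ∀ l,
      b * (S * MvPolynomial.pderiv l a) = (S * MvPolynomial.pderiv l b + (m : ℕ) * τ l * b) * a := by
  induction n generalizing p with
  | zero =>
    obtain ⟨j, hj, p0⟩ := p0
    obtain rfl := Nat.le_zero.1 hj
    obtain ⟨s, hs⟩ := hne
    obtain ⟨z, z0, z1⟩ := ((F.off_freq p0 s).and_eventually (ho.mem_nhds hs)).exists
    exact (z0 (by simpa using hp z z1)).elim
  | succ n ih =>
    by_cases a0 : p 0 = 0
    · refine ih (fun j => p (j + 1)) ?_ fun t ht => mul_right_cancel₀ (d0 t ht) ?_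
      · obtain ⟨_ | j, hj, p0⟩ := p0
        · exact (p0 a0).elim
        · exact ⟨j, by omega, p0⟩
      · have := hp t ht
        rw [Finset.sum_range_succ', a0, map_zero, zero_mul, add_zero] at this
        rw [zero_mul, ← this, Finset.sum_mul]
        exact Finset.sum_congr rfl fun j _ => by ring
    by_cases b0 : p (n + 1) = 0
    · refine ih p ⟨0, Nat.zero_le _, a0⟩ fun t ht => ?_
      have := hp t ht
      rwa [Finset.sum_range_succ, b0, map_zero, zero_mul, add_zero] at this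
    by_contra hc
    have : ¬ ∀ l, p (n + 1) * (S * MvPolynomial.pderiv l (p 0)) = (S * MvPolynomial.pderiv l
      (p (n + 1)) + ((n + 1 : ℕ) : MvPolynomial σ ℂ) * τ l * p (n + 1)) * p 0 :=
      fun e => hc ⟨n + 1, n.succ_pos, _, _, a0, b0, e⟩
    obtain ⟨l, hl⟩ := not_forall.1 this
    refine hc (ih (fun j => p (n + 1) * (S * MvPolynomial.pderiv l (p j) + j * τ l * p j) -
      (S * MvPolynomial.pderiv l (p (n + 1)) + ((n + 1 : ℕ) : MvPolynomial σ ℂ) * τ l * p (n + 1)) *
        p j) ⟨0, Nat.zero_le _, by simpa [sub_eq_zero] using hl⟩ fun t ht => ?_)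
    have e1 : ∑ j ∈ Finset.range (n + 1 + 1), MvPolynomial.eval t
        (S * MvPolynomial.pderiv l (p j) + j * τ l * p j) * δ t ^ j = 0 := by
      have e0 : (fun z => ∑ j ∈ Finset.range (n + 1 + 1), MvPolynomial.eval z (p j) * δ z ^ j)
          =ᶠ[𝓝 t] fun _ => 0 := mem_of_superset (ho.mem_nhds ht) hp
      have e2 := e0.fderiv_eq (𝕜 := ℂ)
      rw [fderiv_fun_sum fun j _ => (cdet_ev (p j) univ t trivial).differentiableAt.fun_mul
        ((hδ t ht).fun_pow j)] at e2
      rw [← Finset.sum_congr rfl fun j _ => dp_term (hδ t ht) (h t ht l) (p j) j, ← Finset.mul_sum,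
        ← ContinuousLinearMap.sum_apply, e2]
      simp
    have e3 := hp t ht
    rw [Finset.sum_range_succ] at e1 e3
    simp only [map_sub, map_mul (MvPolynomial.eval t) (p (n + 1)), map_mul (MvPolynomial.eval t) _ (p _),
      sub_mul, mul_assoc (MvPolynomial.eval t _), Finset.sum_sub_distrib, ← Finset.mul_sum]
    rw [eq_neg_of_add_eq_zero_left e1, eq_neg_of_add_eq_zero_left e3]
    ring

theorem dp_const {S a b : MvPolynomial σ ℂ} {τ : σ → MvPolynomial σ ℂ} {δ : (σ → ℂ) → ℂ} {m : ℕ}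
    (S0 : S ≠ 0) (a0 : a ≠ 0) (ho : IsOpen U) (hU : IsPreconnected U) (hδ : AnalyticOnNhd ℂ δ U)
    (h : ∀ t ∈ U, ∀ l, MvPolynomial.eval t S * fderiv ℂ δ t (Pi.single l 1) =
      MvPolynomial.eval t (τ l) * δ t)
    (e : ∀ l, b * (S * MvPolynomial.pderiv l a) =
      (S * MvPolynomial.pderiv l b + (m : ℕ) * τ l * b) * a) :
    ∃ c' : ℂ, ∀ t ∈ U, MvPolynomial.eval t b * δ t ^ m = c' * MvPolynomial.eval t a := by
  rcases U.eq_empty_or_nonempty with rfl | ⟨s₀, hs₀⟩
  · exact ⟨0, fun _ h => h.elim⟩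
  obtain ⟨s, s0, hs⟩ := ((F.off_freq (mul_ne_zero S0 a0) s₀).and_eventually (ho.mem_nhds hs₀)).exists
  obtain ⟨r, r0, hr⟩ := Metric.eventually_nhds_iff_ball.1 ((F.mon_ev s s0).and (ho.mem_nhds hs))
  have an : AnalyticOnNhd ℂ (fun z => MvPolynomial.eval z b * δ z ^ m) U := fun z hz =>
    (cdet_ev b U z hz).fun_mul ((hδ z hz).fun_pow m)
  have n0 : ∀ z ∈ Metric.ball s r, MvPolynomial.eval z S ≠ 0 ∧ MvPolynomial.eval z a ≠ 0 :=
    fun z hz => mul_ne_zero_iff.1 (by simpa only [map_mul] using (hr z hz).1)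
  obtain ⟨ψ, hψ⟩ : ∃ ψ : (σ → ℂ) → ℂ,
    ψ = fun z => MvPolynomial.eval z b * δ z ^ m / MvPolynomial.eval z a := ⟨_, rfl⟩
  have dψ : ∀ z ∈ Metric.ball s r, DifferentiableAt ℂ ψ z := fun z hz =>
    hψ ▸ ((an z (hr z hz).2).fun_div (cdet_ev a U z (hr z hz).2) (n0 z hz).2).differentiableAt
  have eψ : ∀ z ∈ Metric.ball s r, ψ z * MvPolynomial.eval z a =
      MvPolynomial.eval z b * δ z ^ m := fun z hz => hψ ▸ div_mul_cancel₀ _ (n0 z hz).2
  obtain ⟨c', hc⟩ := Metric.isOpen_ball.exists_is_const_of_fderiv_eq_zero (𝕜 := ℂ)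
    (convex_ball s r).isPreconnected (fun z hz => (dψ z hz).differentiableWithinAt) fun z hz => by
      refine ContinuousLinearMap.coe_injective (LinearMap.pi_ext' fun l => LinearMap.ext_ring ?_)
      change fderiv ℂ ψ z (Pi.single l 1) = 0
      have e0 : (fun z => ψ z * MvPolynomial.eval z a) =ᶠ[𝓝 z]
        fun z => MvPolynomial.eval z b * δ z ^ m :=
        mem_of_superset (Metric.isOpen_ball.mem_nhds hz) eψ
      have e1 := dp_term (hδ z (hr z hz).2).differentiableAt (h z (hr z hz).2 l) b m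
      rw [← e0.fderiv_eq, fderiv_fun_mul (dψ z hz) (cdet_ev a univ z trivial).differentiableAt] at e1
      have e2 := congrArg (MvPolynomial.eval z) (e l)
      simp only [ContinuousLinearMap.add_apply, ContinuousLinearMap.smul_apply, smul_eq_mul, dp_ev,
        map_mul (MvPolynomial.eval z) _ a, map_mul (MvPolynomial.eval z) b,
        map_mul (MvPolynomial.eval z) S] at e1 e2
      refine mul_left_cancel₀ (mul_ne_zero (n0 z hz).1 (pow_ne_zero 2 (n0 z hz).2)) ?_
      linear_combination MvPolynomial.eval z a * e1 - δ z ^ m * e2 -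
        MvPolynomial.eval z S * MvPolynomial.eval z (MvPolynomial.pderiv l a) * eψ z hz
  refine ⟨c', an.eqOn_of_preconnected_of_eventuallyEq
    (fun z hz => analyticAt_const.fun_mul (cdet_ev a U z hz)) hU hs ?_⟩
  filter_upwards [Metric.ball_mem_nhds s r0] with z hz
  rw [← eψ z hz, hc z hz]

theorem det_pow (T0 : T ≠ 0) (ho : IsOpen V) (hV : IsPreconnected V) (hne : V.Nonempty)
    (hQ : FundM T B V Q) {c : ℂ} (c0 : c ≠ 0)
    (h : ∀ t ∈ V, Cu.Gen K t → IsAlgebraic (Rt t) (c * (Q t).det ^ 2)) :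
    ∃ n > 0, ∃ a b : MvPolynomial σ ℂ, b ≠ 0 ∧ ∀ U P, IsOpen U → IsPreconnected U →
      FundM T B U P → ∃ c' : ℂ, ∀ t ∈ U,
        MvPolynomial.eval t b * (P t).det ^ n = c' * MvPolynomial.eval t a := by
  have ev : ∀ (t : σ → ℂ) (p : MvPolynomial σ K),
      MvPolynomial.eval t (p.map (algebraMap K ℂ)) = MvPolynomial.aeval t p := fun t p => by
    rw [MvPolynomial.eval_map]; rfl
  have an : ∀ {U P}, FundM T B U P → AnalyticOnNhd ℂ (fun z => (P z).det) U := fun h =>
    cdet_an fun t ht i j => ((h t ht).2 i j).1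
  have od : ∀ {U P}, FundM T B U P → ∀ t ∈ U, ∀ l, MvPolynomial.eval t (T.map (algebraMap K ℂ)) *
      fderiv ℂ (fun z => (P z).det) t (Pi.single l 1) =
        MvPolynomial.eval t ((B l).trace.map (algebraMap K ℂ)) * (P t).det := fun h t ht l => by
    rw [ev, ev, Cv.fund_det h ht]
  obtain ⟨n, p, ⟨j, hj, p0⟩, hp⟩ := det_alg K ho hV (g := fun t => c * (Q t).det ^ 2)
    (fun t ht => analyticAt_const.fun_mul ((an hQ t ht).fun_pow 2)) h
  obtain ⟨m, m0, a, b, a0, b0, e⟩ := dp_min ho hne (fun t ht => (an hQ t ht).differentiableAt)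
    (fun t ht => (hQ t ht).1) (od hQ) (2 * n)
    (fun k => ∑ j ∈ Finset.range (n + 1), if k = 2 * j then MvPolynomial.C (c ^ j) * p j else 0)
    ⟨2 * j, by omega, by
      rw [Finset.sum_eq_single j (fun i _ hi => if_neg (by omega))
        (fun hi => (hi (Finset.mem_range.2 (by omega))).elim), if_pos rfl]
      exact mul_ne_zero (by simp [c0]) p0⟩ fun t ht => by
      simp only [map_sum, Finset.sum_mul]
      rw [Finset.sum_comm, ← hp t ht]
      refine Finset.sum_congr rfl fun i hi => ?_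
      rw [Finset.sum_eq_single (2 * i) (fun k _ hk => by rw [if_neg hk, map_zero, zero_mul])
        (fun hk => (hk (Finset.mem_range.2 (by have := Finset.mem_range.1 hi; omega))).elim),
        if_pos rfl, map_mul, MvPolynomial.eval_C]
      ring
  exact ⟨m, m0, a, b, b0, fun U P o hU hP => dp_const (fun e => T0 (MvPolynomial.map_injective _
    (algebraMap K ℂ).injective (e.trans (map_zero _).symm))) a0 o hU (an hP) (od hP) e⟩

end

end Pool.Agent.Lib.MP_5591bc_ag.Cv
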