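import Pool.Agent.Lib.MP_5591bc_ag.Cv.Root

/-! The fundamental matrix of the direct image. -/

namespace Pool.Agent.Lib.MP_5591bc_ag.Cv

open Polynomial Set Filter Topology Matrix G M A B E Z Cu
open scoped Polynomial.Bivariate

noncomputable section

variable {σ K ν : Type} [Field K] [NumberField K] [Algebra K ℂ] [Fintype σ] [DecidableEq σ]
  [Fintype ν] [DecidableEq ν] {T : MvPolynomial σ K} {q : (MvPolynomial σ K)[X]} {r n m : ℕ}
  {B : σ → Matrix ν ν (MvPolynomial σ K)[X]} {U U' V V' : Set (σ → ℂ)}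
  {P P' : (σ → ℂ) → Matrix (Option ν) (Option ν) ℂ} {s t : σ → ℂ} {z : ℂ} {w : ν → ℕ}
  {J : Matrix ν ν ℝ}
  {f : (MvPolynomial σ K)[X][X][Y]} {d : (MvPolynomial σ K)[X][X]}
  {A : ν → (MvPolynomial σ K)[X][X][Y]} {R : Fin r → (σ → ℂ) → Matrix (Option ν) (Option ν) ℂ}
  {Bh : σ → Matrix (Ix ν r) (Ix ν r) (MvPolynomial σ K)}

omit [Fintype σ] [DecidableEq σ] in
theorem push_det {M : Matrix (Option ν) (Option ν) ℂ}
    (h : ∀ i, M (some i) none = 0 ∧ M none (some i) = 0) :
    (of fun i j => if i = none ∧ j = none then 1 else M i j).det = (bl M).det := by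
  have e : (of fun i j => if i = none ∧ j = none then 1 else M i j) =
      (fromBlocks (bl M) 0 0 (1 : Matrix PUnit.{1} PUnit.{1} ℂ)).submatrix
        (Equiv.optionEquivSumPUnit ν) (Equiv.optionEquivSumPUnit ν) := by
    ext (_ | i) (_ | j)
    · simp
    · simp [(h j).2]
    · simp [(h i).1]
    · simp
  rw [e, det_submatrix_equiv_self, det_fromBlocks_zero₂₁, det_one, mul_one]

theorem det_pu {Q : Fin r → Matrix (Option ν) (Option ν) ℂ}
    (h : ∀ b i, Q b (some i) none = 0 ∧ Q b none (some i) = 0) : (pu Q).det =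
      (vandermonde fun b => Q b none none).det ^ Fintype.card (Option ν) * ∏ b, (bl (Q b)).det := by
  have e : pu Q = kroneckerMap (· * ·) (1 : Matrix (Option ν) (Option ν) ℂ)
      (vandermonde fun b => Q b none none)ᵀ *
      blockDiagonal fun b => of fun i j => if i = none ∧ j = none then 1 else Q b i j := by
    ext ⟨i, a⟩ ⟨j, b⟩
    cases i <;> simp [pu, col, mul_apply, Fintype.sum_prod_type, blockDiagonal_apply, one_apply,
      vandermonde_apply]
  rw [e, det_mul, det_kronecker, det_one, one_pow, one_mul, det_transpose, det_blockDiagonal]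
  exact congrArg _ (Finset.prod_congr rfl fun b _ => push_det (h b))

theorem All.fund (h : All T q B V R) (hS : Sys T q B Bh) :
    FundM T Bh V fun t => pu fun b => R b t := by
  refine fun t ht => ⟨?_, fun i j => ⟨?_, fun l => hS V (R j.2) h.op (h.fs j.2) t ht i j.1 l⟩⟩
  · rw [det_pu fun b => (h.fs b t ht).2.1]
    exact mul_ne_zero (pow_ne_zero _ (det_vandermonde_ne_zero_iff.2 (h.inj t ht)))
      (Finset.prod_ne_zero_iff.2 fun b _ => h.dt b t ht)
  · have a := (h.fs j.2 t ht).1
    refine ((a none none).fun_pow (i.2 : ℕ)).fun_mul ?_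
    split_ifs
    exacts [analyticAt_const, a _ _]

theorem fund_bd {α : Type} [Fintype α] [DecidableEq α] {D : σ → Matrix α α (MvPolynomial σ K)}
    {Q : (σ → ℂ) → Matrix α α ℂ} (h : FundM T D V Q) (n : ℕ) :
    FundM T (fun l => bd n (D l)) V fun t => bd n (Q t) := by
  refine fun t ht => ⟨?_, fun i j => ?_⟩
  · rw [det_blockDiagonal]
    exact Finset.prod_ne_zero_iff.2 fun _ _ => (h t ht).1
  obtain ⟨a, e⟩ := (h t ht).2 i.1 j.1
  by_cases hij : i.2 = j.2
  · simp only [blockDiagonal_apply, hij, if_true]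
    refine ⟨a, fun l => (e l).trans ?_⟩
    rw [Fintype.sum_prod_type]
    refine Finset.sum_congr rfl fun b _ => ?_
    rw [Finset.sum_eq_single j.2 (fun c _ hc => by simp [hc]) (by simp)]
    simp
  · simp only [blockDiagonal_apply, hij, if_false]
    refine ⟨analyticAt_const, fun l => ?_⟩
    rw [fderiv_fun_const, Finset.sum_eq_zero fun b _ => ?_]
    · simp
    · by_cases hb : i.2 = b.2
      · rw [if_neg fun hc : b.2 = j.2 => hij (hb.trans hc), mul_zero]
      · rw [if_neg hb, map_zero, zero_mul]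

theorem All.up [NeZero r] [NeZero n] (h : All T q B V R) (hq : Cov T q r) (hS : Sys T q B Bh)
    (ho : IsOpen U) (hc : IsPreconnected U) (hP : FundS T q B U (R 0)) (hV : V ⊆ U) :
    Up T q B (fun l => bd n (Bh l)) U (R 0) V fun t => bd n (pu fun b => R b t) := by
  exact ⟨hq, ho, hc, hP, h.op, h.co, h.ne, hV, fund_bd (h.fund hS) n, fun t _ a j => rfl⟩

end

end Pool.Agent.Lib.MP_5591bc_ag.Cv
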