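import Pool.Agent.Lib.MP_5591bc_ag.Cv.Inv
import Pool.Agent.Lib.MP_5591bc_ag.Cv.Push
import Pool.Agent.Lib.MP_5591bc_ag.Cv.DetP

/-! The determinant of the direct image. -/

namespace Pool.Agent.Lib.MP_5591bc_ag.Cv

open Polynomial Set Filter Topology Matrix G M A B E Z Cu
open scoped Polynomial.Bivariate

noncomputable section

variable {σ K ν : Type} [Field K] [NumberField K] [Algebra K ℂ] [Fintype σ] [DecidableEq σ]
  [Fintype ν] [DecidableEq ν] {T : MvPolynomial σ K} {q : (MvPolynomial σ K)[X]} {r n m : ℕ}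
  {B : σ → Matrix ν ν (MvPolynomial σ K)[X]} {U U' V V' : Set (σ → ℂ)}
  {P P' : (σ → ℂ) → Matrix (Option ν) (Option ν) ℂ} {s t : σ → ℂ} {z : ℂ} {w : ν → ℕ}
  {J : Matrix ν ν ℝ}
  {f : (MvPolynomial σ K)[X][X][Y]} {d : (MvPolynomial σ K)[X][X]}
  {A : ν → (MvPolynomial σ K)[X][X][Y]} {R : Fin r → (σ → ℂ) → Matrix (Option ν) (Option ν) ℂ}
  {Bh : σ → Matrix (Ix ν r) (Ix ν r) (MvPolynomial σ K)}

theorem Fam2.det (h : Fam2 T q r B f d m A w) (hS : Sys T q B Bh) : ∃ n > 0, ∀ U Q, IsOpen U →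
    IsPreconnected U → FundM T Bh U Q → ∃ (N : ℕ) (p : MvPolynomial σ ℂ), ∀ t ∈ U,
      MvPolynomial.aeval t T ^ N * (bd n (Q t)).det = MvPolynomial.eval t p := by
  obtain ⟨s, s0⟩ := (mono_freq h.cv.T0 (0 : σ → ℂ)).exists
  obtain ⟨V, R, -, hA, hR⟩ := h.all s0
  choose J _ c c0 hc using fun b => h.pol hA.op hA.co hA.ne (hR b)
  obtain ⟨n, n0, a, b, b0, H⟩ := det_pow h.cv.T0 hA.op hA.co hA.ne (hA.fund hS)
    (c := ∏ b, c b) (Finset.prod_ne_zero_iff.2 fun b _ => c0 b) fun t ht hg => by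
      rw [det_pu fun b => (hA.fs b t ht).2.1, det_vandermonde, mul_pow, mul_left_comm,
        ← Finset.prod_pow _ 2 fun b => (bl (R b t)).det, ← Finset.prod_mul_distrib]
      exact (Subalgebra.algebraicClosure (Rt t) ℂ).mul_mem
        (Subalgebra.pow_mem _ (Subalgebra.pow_mem _ (Subalgebra.prod_mem _ fun i _ =>
          Subalgebra.prod_mem _ fun j _ => Subalgebra.sub_mem _
            (h.cv.alg (hA.fs j t ht).2.2.1) (h.cv.alg (hA.fs i t ht).2.2.1)) _) _)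
        (Subalgebra.prod_mem _ fun b _ => hc b t ht fun e => h.cv.T0 (hg _ e))
  refine ⟨n, n0, fun U Q ho hU hQ => ?_⟩
  obtain ⟨c', hc'⟩ := H U Q ho hU hQ
  refine tpow h.cv.T0 ho hU (fund_bd hQ n) b0 (a := MvPolynomial.C c' * a) fun t ht => ?_
  rw [det_blockDiagonal, Finset.prod_const, Finset.card_univ, Fintype.card_fin, hc' t ht, map_mul,
    MvPolynomial.eval_C]

end

end Pool.Agent.Lib.MP_5591bc_ag.Cv
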