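import Pool.Agent.Lib.MP_5591bc_ag.Cv.Fund
import Pool.Agent.Lib.MP_5591bc_ag.B.Blk

/-! From the direct image to the cover. -/

namespace Pool.Agent.Lib.MP_5591bc_ag.Cv

open Polynomial Set Filter Topology Matrix G M A B E Z Cu
open scoped Polynomial.Bivariate

noncomputable section

variable {σ K ν : Type} [Field K] [NumberField K] [Algebra K ℂ] [Fintype σ] [DecidableEq σ]
  [Fintype ν] [DecidableEq ν] {T : MvPolynomial σ K} {q : (MvPolynomial σ K)[X]} {r n m : ℕ}
  {B : σ → Matrix ν ν (MvPolynomial σ K)[X]} {U U' V V' : Set (σ → ℂ)}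
  {P P' : (σ → ℂ) → Matrix (Option ν) (Option ν) ℂ} {s t : σ → ℂ} {z : ℂ} {w : ν → ℕ}
  {J : Matrix ν ν ℝ}
  [NeZero r] [NeZero n] {B2 : σ → Matrix (Iy ν r n) (Iy ν r n) (MvPolynomial σ K)}
  {Ph Ph' : (σ → ℂ) → Matrix (Iy ν r n) (Iy ν r n) ℂ} {Z : Matrix (Iy ν r n) (Iy ν r n) ℂ}
  {M : Matrix (Option ν) (Option ν) ℂ}

theorem down_mul {α : Type} [Fintype α] [DecidableEq α] (M : Matrix α α ℂ) (a i j : α) :
    (M * single a a (1 : ℂ)) i j = if j = a then M i a else 0 := by
  split_ifs with h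
  · rw [h, mul_single_apply_same, mul_one]
  · exact mul_single_apply_of_ne _ _ _ _ _ h _

theorem down_nn : bk q t Z none none = ∑ a : Fin r,
    MvPolynomial.aeval t ((X %ₘ q).coeff a) * Z ((none, a), 0) (i0 r n none) := rfl

theorem down_an (h : ∀ i j, AnalyticAt ℂ (fun x => Ph x i j) t) (i j : Option ν) :
    AnalyticAt ℂ (fun x => bk q x (Ph x) i j) t := by
  rcases i with _ | i <;> rcases j with _ | j
  · simp only [down_nn]
    exact Finset.analyticAt_fun_sum _ fun a _ => (aeval_ana _).fun_mul (h _ _)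
  · exact analyticAt_const
  · exact analyticAt_const
  · exact h _ _

theorem ic_inj : Function.Injective (ic ν r n) := by
  intro a b h
  simpa [i0] using h

theorem mul_sz (h : ∀ i, M (some i) none = 0 ∧ M none (some i) = 0) :
    M * sz ν 1 = sz ν (M none none) := by
  ext i j
  rw [down_mul]
  rcases i with _ | i <;> rcases j with _ | j <;> simp [h]

theorem bk_shp (hq : Cov T q r) (h : Shp Z M)
    (hM : ∀ i, M (some i) none = 0 ∧ M none (some i) = 0) (hz : evz t (M none none) q = 0) :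
    bk q t Z = M := by
  ext i j
  rcases i with _ | i <;> rcases j with _ | j
  · refine down_nn.trans ((Finset.sum_congr rfl fun a _ => ?_).trans ((hq.mod hz X).trans evz_X))
    rw [h]
    simp [col]
  · exact (hM j).2.symm
  · exact (hM i).1.symm
  · exact (h _ _).trans (by simp [col, i0])

theorem Shp.mul_c1 (h : Shp Z M) (hM : ∀ i, M (some i) none = 0 ∧ M none (some i) = 0) :
    Z * c1 ν r n = z1 ν r n (M none none) := by
  ext ⟨⟨i, a⟩, c⟩ b
  rw [down_mul, h]
  rcases i with _ | i <;> by_cases h1 : b = i0 r n none <;> by_cases h2 : c = 0 <;>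
    simp [col, z1, h1, h2, hM]

theorem Shp.sub (h : Shp Z M) : Z.submatrix (ic ν r n) (ic ν r n) = bl M := by
  ext i j
  exact (h _ _).trans (by simp [col, i0])

theorem bk_z1 (hq : Cov T q r) (hz : evz t z q = 0) (h : Z * c1 ν r n = z1 ν r n z) :
    bk q t Z none none = z := by
  refine down_nn.trans ((Finset.sum_congr rfl fun a _ => ?_).trans ((hq.mod hz X).trans evz_X))
  have := congrFun (congrFun h ((none, a), 0)) (i0 r n none)
  rw [down_mul, if_pos rfl] at this
  rw [this]
  simp [z1]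

theorem z1_inj (hq : Cov T q r) {z' : ℂ} (hz : evz t z q = 0) (hz' : evz t z' q = 0)
    (h : z1 ν r n z = z1 ν r n z') : z = z' := by
  have e : ∀ x : ℂ, z1 ν r n x * c1 ν r n = z1 ν r n x := fun x => by
    ext a b
    rw [down_mul]
    by_cases h1 : b = i0 r n none <;> simp [z1, h1]
  rw [← bk_z1 hq hz (e z), h, bk_z1 hq hz' (e z')]

theorem z1_map {E F : Type*} [CommRing E] [CommRing F] (g : E →+* F) (x : E) :
    (z1 ν r n x).map g = z1 ν r n (g x) := by
  ext a b
  simp [z1, apply_ite g]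

theorem Up.down (h : Up T q B B2 U P V Ph) (k : ContM V Ph V' Ph') :
    ContM U P V' (fun t => bk q t (Ph' t)) ∧ ∀ t ∈ V', Shp (Ph' t) (bk q t (Ph' t)) := by
  induction k with
  | base =>
    have e : ∀ t ∈ V, bk q t (Ph t) = P t := fun t ht =>
      bk_shp h.cv (h.sh t ht) (h.fs t (h.sub ht)).2.1 (h.fs t (h.sub ht)).2.2.1
    obtain ⟨s, hs⟩ := h.ne
    exact ⟨.step _ _ _ _ s .base h.op h.co
      (fun i j t ht => down_an (fun i j => ((h.fm t ht).2 i j).1) i j) (h.sub hs) hs
      (mem_of_superset (h.op.mem_nhds hs) fun t ht => (e t ht).symm),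
      fun t ht => (e t ht).symm ▸ h.sh t ht⟩
  | step V1 V2 P1 P2 s _ o c a s1 s2 e ih =>
    have an : ∀ i j, AnalyticOnNhd ℂ (fun t => bk q t (P2 t) i j) V2 := fun i j t ht =>
      down_an (fun i j => a i j t ht) i j
    refine ⟨.step _ _ _ _ s ih.1 o c an s1 s2 (e.mono fun t ht => by rw [ht]), fun t ht x j => ?_⟩
    refine AnalyticOnNhd.eqOn_of_preconnected_of_eventuallyEq (a x (i0 r n j))
      (g := fun t => if x.2 = 0 then col r (bk q t (P2 t)) x.1 j else 0) (fun u hu => ?_) c s2 ?_ ht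
    · split_ifs
      · refine ((an none none u hu).fun_pow _).fun_mul ?_
        split_ifs
        exacts [analyticAt_const, an _ _ u hu]
      · exact analyticAt_const
    · filter_upwards [e, (h.fs.cont h.ho h.hc ih.1).1.mem_nhds s1] with u h1 h2
      rw [← h1]
      exact ih.2 u h2 x j

end

end Pool.Agent.Lib.MP_5591bc_ag.Cv
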