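import Pool.Agent.Lib.MP_5591bc_ag.Cv.Null
import Pool.Agent.Lib.MP_5591bc_ag.B.End

/-! The dichotomy along one arc (edited copy from `B.End`). -/

namespace Pool.Agent.Lib.MP_5591bc_ag.Cv

open Matrix Filter Topology Metric G R W M A N E Z J B

noncomputable section

variable {σ K ν μ : Type} [Fintype σ] [DecidableEq σ] [Field K] [Algebra K ℂ] [Fintype ν]
  [DecidableEq ν] [Fintype μ] [DecidableEq μ] {T : MvPolynomial σ K}
  {B : σ → Matrix ν ν (MvPolynomial σ K)} {U V : Set (σ → ℂ)} {P Q : (σ → ℂ) → Matrix ν ν ℂ}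
  {C1 : Matrix ν ν ℂ} {c : μ → ν} {J : Matrix μ μ ℝ} {j r : ℕ} {w : μ → ℕ}

/-- the dichotomy along one arc -/
theorem arc_dichD (ho : IsOpen U) (hU : IsPreconnected U) (hP : FundM T B U P)
    (hC : ConnD T U P C1 (pr c)) (hc : Function.Injective c) (hj : Proj T U P C1 (pr c))
    (h : VHS T U P C1 c J j w r) (k : ContM U P V Q) (oV : IsOpen V) (cV : IsPreconnected V)
    (hQ : FundM T B V Q) {y : ℂ → σ → ℂ} (hy : AnalyticAt ℂ y 0) (hV : y 0 ∈ V)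
    (hT : MvPolynomial.aeval (y 0) T ≠ 0) (hq : ∀ l, ∃ q : MvPolynomial (Fin 2) ℂ, q ≠ 0 ∧
      ∀ᶠ u in 𝓝 (0 : ℂ), MvPolynomial.eval ![u, y u l] q = 0)
    (hM : Mf Q C1 c (y 0) ⊆ MTH j w ((Q (y 0)).submatrix c c)) :
    ∃ N, QGrp N ∧ N ⊆ Mf Q C1 c (y 0) ∧ (∀ g ∈ Mf Q C1 c (y 0), ∀ a ∈ N, g⁻¹ * a * g ∈ N) ∧
      (∀ᶠ u in 𝓝 (0 : ℂ), ∀ z ≠ 0, (cx (hH J j w z ((Q (y 0)).submatrix c c)))⁻¹ *
        cx (hH J j w z ((Q (y u)).submatrix c c)) ∈ N) ∧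
      (Mf Q C1 c (y 0) ⊆ N → ∀ H : MvPolynomial (Option σ ⊕ Option (ν × ν)) ℂ,
        (∀ᶠ u in 𝓝 (0 : ℂ), MvPolynomial.eval (Sum.elim (fun o => o.elim u (y u))
          (dj (pr c) (Q (y u)))) H = 0) →
        ∃ H' : MvPolynomial (σ ⊕ (ν × ν) ⊕ (ν × ν)) ℂ,
          (∀ᶠ t in 𝓝 (y 0), MvPolynomial.eval (Sum.elim t (Sum.elim
            (fun a => (Q t * C1) a.1 a.2) fun a => Q t a.1 a.2)) H' = 0) ∧
          ∀ Z : Matrix ν ν ℂ, MvPolynomial.eval (Sum.elim (y 0) (Sum.elim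
            (fun a => (Q (y 0) * C1) a.1 a.2) fun a => Z a.1 a.2)) H' =
            MvPolynomial.eval (Sum.elim (fun o => o.elim 0 (y 0)) (dj (pr c) Z)) H) := by
  obtain ⟨Z, Γ, 𝓑, D, hΓ, hF, D0, hs, hb⟩ := br_famX hc h k oV cV hQ hy hV hT hq
  obtain ⟨n1, n2⟩ := end_norm hΓ hF D0 hs fun γ hγ => ⟨(hb γ hγ).1, (hb γ hγ).2.1⟩
  have dQ := (hQ _ hV).1
  obtain ⟨N, A, hA⟩ := h.1
  have f1 := fun g (hg : g ∈ Fb Q C1 (y 0)) => fb_det oV (det_cont ho hA k) hV hT dQ hg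
  have f2 := fun g (hg : g ∈ Fb Q C1 (y 0)) => fb_proj oV (proj_cont ho hj k) hV hT dQ hg
  refine ⟨_, zc_qgrp hΓ, fun a ha => mf_zc (fun γ hγ => ?_) ha.1 ha.2,
    fun g hg a ha => ⟨?_, n1 g (hM hg) a ha.2⟩, n2, fun hN H hH => ?_⟩
  · obtain ⟨-, -, g, g0, g1, g2, g3⟩ := hb γ hγ
    have := end_fb hy.continuousAt g0 g1 g3
    exact fb_mf this (blk_adj hc (f1 g this) (f2 g this) g2).1 g2
  · rw [det_mul, det_mul, det_nonsing_inv, Ring.inverse_eq_inv]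
    exact mul_ne_zero (mul_ne_zero (inv_ne_zero hg.1) ha.1) hg.1
  obtain ⟨f, hf⟩ := end_djC (pr c)
  let F : MvPolynomial (ν × ν) ℂ :=
    MvPolynomial.aeval (Sum.elim (fun o : Option σ => MvPolynomial.C (o.elim 0 (y 0))) f) H
  have eF : ∀ Y : Matrix ν ν ℂ, MvPolynomial.eval (fun a => Y a.1 a.2) F =
      MvPolynomial.eval (Sum.elim (fun o => o.elim 0 (y 0)) (dj (pr c) Y)) H := fun Y => by
    rw [end_ev]
    congr 2
    ext (o | o) <;> simp [hf]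
  have e2 : ∀ (v : Option σ → ℂ) (Y : Matrix ν ν ℂ),
      MvPolynomial.eval (Sum.elim v fun a => Y a.1 a.2) (MvPolynomial.aeval (Sum.elim
        (fun o => MvPolynomial.X (Sum.inl o)) fun o => MvPolynomial.rename Sum.inr (f o)) H) =
      MvPolynomial.eval (Sum.elim v (dj (pr c) Y)) H := fun v Y => by
    rw [end_ev]
    congr 2
    ext (o | o) <;> simp [MvPolynomial.eval_rename, hf]
  obtain ⟨p, hp⟩ : ∃ p : MvPolynomial (μ × μ) ℂ, ∀ g ∈ Fb Q C1 (y 0), ∀ γ : Matrix μ μ ℂ,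
      g * bm c = bm c * γ → MvPolynomial.eval (fun a => γ⁻¹ a.1 a.2) p =
        MvPolynomial.eval (Sum.elim (fun o => o.elim 0 (y 0)) (dj (pr c) (Q (y 0) * g))) H := by
    refine ⟨MvPolynomial.aeval (Sum.elim (fun o : Option σ => MvPolynomial.C (o.elim 0 (y 0)))
      fun o => o.elim (MvPolynomial.C (Q (y 0)).det) fun a => ∑ x, (∑ i, MvPolynomial.C
        (bm c a.1 i) * MvPolynomial.X (i, x)) *
          MvPolynomial.C (((bm c)ᵀ * (Q (y 0)).adjugate) x a.2)) H,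
      fun g hg γ e => ?_⟩
    rw [end_ev]
    congr 2
    ext (o | _ | a)
    · simp
    · simp [dj, f1 g hg]
    · simp only [Sum.elim_inr, Option.elim_some, dj]
      rw [adjugate_mul_distrib, ← Matrix.mul_assoc, (blk_adj hc (f1 g hg) (f2 g hg) e).2,
        Matrix.mul_assoc (bm c * γ⁻¹)]
      simp [mul_apply]
  obtain ⟨H', h1, h2⟩ := nullD oV hQ (hC.cont k) hV hT (F := F)
    ⟨MvPolynomial.aeval (Sum.elim (fun o : Option σ => MvPolynomial.C (o.elim 0 (y 0)))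
      MvPolynomial.X) H, fun Y => by
      rw [eF, Matrix.mul_one, end_ev]
      congr 2
      ext (o | o) <;> simp⟩ fun g hg => by
      obtain ⟨b1, b2⟩ := fb_blk hc hg (f2 g hg)
      rw [eF, ← hp g hg _ b1]
      have := (zc_qgrp hΓ).2.2 1 (zc_qgrp hΓ).2.1 _ (hN b2)
      rw [Matrix.one_mul] at this
      refine this.2 p fun γ hγ => ?_
      obtain ⟨γ', m', e'⟩ := hΓ.inv γ hγ
      obtain ⟨-, -, g', g0, g1, g2, g3⟩ := hb γ' m'
      rw [← inv_eq_left_inv (A := qc γ') (B := qc γ) (by rw [← qc_mul, e', qc_one]),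
        hp g' (end_fb hy.continuousAt g0 g1 g3) _ g2, ← e2]
      exact g3 _ (hH.mono fun u hu => (e2 _ _).trans hu)
  exact ⟨H', h1, fun Y => (h2 Y).trans (eF Y)⟩

end

end Pool.Agent.Lib.MP_5591bc_ag.Cv
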