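import Pool.Agent.Lib.MP_5591bc_ag.Cv.Root
import Pool.Agent.Lib.MP_5591bc_ag.Cu.Gauss
import Pool.Agent.Lib.MP_5591bc_ag.Cu.Eta

/-! Functions on the cover have Eisenstein denominators. -/

namespace Pool.Agent.Lib.MP_5591bc_ag.Cv

open Polynomial Set Filter Topology Matrix G M A B E Z Cu
open scoped Polynomial.Bivariate

noncomputable section

variable {σ K ν : Type} [Field K] [NumberField K] [Algebra K ℂ] [Fintype σ] [DecidableEq σ]
  [Fintype ν] [DecidableEq ν] {T : MvPolynomial σ K} {q : (MvPolynomial σ K)[X]} {r n m : ℕ}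
  {B : σ → Matrix ν ν (MvPolynomial σ K)[X]} {U U' V V' : Set (σ → ℂ)}
  {P P' : (σ → ℂ) → Matrix (Option ν) (Option ν) ℂ} {s t : σ → ℂ} {z : ℂ} {w : ν → ℕ}
  {J : Matrix ν ν ℝ}

theorem tm_com {R : Subring ℂ} {ι : Type*} [Fintype ι] {S : ι → MvPowerSeries σ ℂ}
    (h : ∀ i, Tame R (S i)) :
    ∃ 𝓣 : Subring (MvPowerSeries σ ℂ), HC 𝓣 ∧ (∀ i, S i ∈ 𝓣) ∧ ∀ z ∈ 𝓣, Tame R z := by
  classical
  choose b hb b0 hi using h
  have hB : ∏ i, b i ∈ R := prod_mem fun i _ => hb i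
  have B0 : ∏ i, b i ≠ 0 := Finset.prod_ne_zero_iff.2 fun i _ => b0 i
  have im : ∀ x ∈ R, IsIntegral R x := fun x hx => isIntegral_algebraMap (x := (⟨x, hx⟩ : R))
  obtain ⟨𝓣, hT, hm⟩ := ts_ex (σ := σ) (integralClosure R ℂ).toSubring (q := ∏ i, b i)
    (im _ hB) B0.isUnit
  refine ⟨𝓣, hT, fun i => (hm _).2 ⟨1, fun κ => ?_⟩, fun z hz => ?_⟩
  · rw [one_mul, ← Finset.mul_prod_erase _ _ (Finset.mem_univ i), mul_comm (b i), mul_pow,
      mul_assoc]
    exact ((im _ (prod_mem fun j _ => hb j)).pow _).mul (hi i κ)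
  · obtain ⟨c, hc⟩ := (hm z).1 hz
    exact ⟨(∏ i, b i) ^ c, pow_mem hB c, pow_ne_zero c B0, fun κ => by
      rw [← pow_mul]; exact hc κ⟩

/-- the tame series form a ring closed under fixed point equations -/
theorem tame_ex (σ : Type) [Fintype σ] [DecidableEq σ] (R : Subring ℂ) :
    ∃ 𝓣 : Subring (MvPowerSeries σ ℂ), HC 𝓣 ∧ ∀ S, S ∈ 𝓣 ↔ Tame R S := by
  have two : ∀ {S S' : MvPowerSeries σ ℂ}, Tame R S → Tame R S' →
      ∃ 𝓣 : Subring (MvPowerSeries σ ℂ), S ∈ 𝓣 ∧ S' ∈ 𝓣 ∧ ∀ z ∈ 𝓣, Tame R z := fun {S S'} h h' => by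
    obtain ⟨𝓣, -, hm, hz⟩ := tm_com (R := R) (ι := Bool) (S := fun i => cond i S S')
      (fun i => by cases i; exacts [h', h])
    exact ⟨𝓣, hm true, hm false, hz⟩
  obtain ⟨𝓣₀, -, -, h₀⟩ := tm_com (σ := σ) (R := R) (ι := Empty) (S := fun i => i.elim)
    (fun i => i.elim)
  refine ⟨{ carrier := {S | Tame R S}
            mul_mem' := fun h h' => ?_
            one_mem' := h₀ _ 𝓣₀.one_mem
            add_mem' := fun h h' => ?_
            zero_mem' := h₀ _ 𝓣₀.zero_mem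
            neg_mem' := fun h => ?_ }, ?_, fun _ => Iff.rfl⟩
  · obtain ⟨𝓣, a, a', hz⟩ := two h h'
    exact hz _ (𝓣.mul_mem a a')
  · obtain ⟨𝓣, a, a', hz⟩ := two h h'
    exact hz _ (𝓣.add_mem a a')
  · obtain ⟨𝓣, a, -, hz⟩ := two h h
    exact hz _ (𝓣.neg_mem a)
  · intro p hp p0 p1 z z0 hz
    obtain ⟨𝓣, hT, hm, hin⟩ := tm_com (R := R) (ι := Fin (p.natDegree + 1))
      (S := fun i => p.coeff i) (fun i => hp i)
    refine hin z (hT p (fun j => ?_) p0 p1 z z0 hz)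
    by_cases hj : j < p.natDegree + 1
    · exact hm ⟨j, hj⟩
    · rw [coeff_eq_zero_of_natDegree_lt (by omega)]
      exact 𝓣.zero_mem

omit [Fintype σ] in
theorem tm_C {R : Subring ℂ} {c : ℂ} (hc : IsAlgebraic R c) :
    Tame R (MvPowerSeries.C c : MvPowerSeries σ ℂ) := by
  obtain ⟨b, b0, hb⟩ := hc.exists_integral_multiple
  refine ⟨b, b.2, fun e => b0 (Subtype.ext e), fun κ => ?_⟩
  rw [MvPowerSeries.coeff_C]
  split_ifs with h
  · rw [pow_succ, mul_assoc]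
    exact ((isIntegral_algebraMap (x := b)).pow _).mul hb
  · simpa using isIntegral_zero

omit [Fintype σ] [DecidableEq σ] in
theorem tm_alg {R : Subring ℂ} {S : MvPowerSeries σ ℂ} (h : Tame R S) :
    IsAlgebraic R (MvPowerSeries.constantCoeff S) := by
  obtain ⟨b, hb, b0, hi⟩ := h
  have h0 := hi 0
  rw [map_zero, zero_add, pow_one] at h0
  exact IsAlgebraic.of_mul (mem_nonZeroDivisors_of_ne_zero b0)
    (isAlgebraic_algebraMap (⟨b, hb⟩ : R)) h0.isAlgebraic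

/-- the Taylor series of a polynomial in `t` and `ζ` -/
theorem tm_ev {ρ : MvPolynomial σ K →+* MvPowerSeries σ ℂ}
    (hρ : ∀ c, tayS (fun x => evt x c) t = ρ c) {ζ : (σ → ℂ) → ℂ} (a : AnalyticAt ℂ ζ t)
    (p : (MvPolynomial σ K)[X]) :
    tayS (fun x => evz x (ζ x) p) t = (p.map ρ).eval (tayS ζ t) := by
  induction p using Polynomial.induction_on' with
  | add p p' hp hp' =>
    simp only [map_add, Polynomial.map_add, eval_add]
    rw [tayS_add (evz_an a p) (evz_an a p'), hp, hp']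
  | monomial k c =>
    simp only [evz, coe_eval₂RingHom, eval₂_monomial, Polynomial.map_monomial, eval_monomial]
    rw [← hρ, ← tayS_pow a]
    exact tayS_mul (aeval_ana c) (a.fun_pow k)

theorem tame2 (h : Cov T q r) (hT : MvPolynomial.aeval t T ≠ 0) {ζ : (σ → ℂ) → ℂ}
    (a : AnalyticAt ℂ ζ t) (e : ∀ᶠ x in 𝓝 t, evz x (ζ x) q = 0) (p : (MvPolynomial σ K)[X]) :
    Tame (Rt t) (tayS (fun x => evz x (ζ x) p) t) := by
  obtain ⟨𝓣, hC, hm⟩ := tame_ex σ (Rt t)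
  let ρ0 : MvPolynomial σ K →+* MvPowerSeries σ ℂ := (MvPolynomial.aeval
    (fun l => (MvPowerSeries.X l + MvPowerSeries.C (t l) : MvPowerSeries σ ℂ)) :
      MvPolynomial σ K →ₐ[K] MvPowerSeries σ ℂ)
  have h0 : ∀ c, tayS (fun x => evt x c) t = ρ0 c := fun c => tayS_aeval c
  let ρ : MvPolynomial σ K →+* 𝓣 := ρ0.codRestrict 𝓣 fun c => (hm _).2 (h0 c ▸ tame_poly t c)
  have mp : ∀ p : (MvPolynomial σ K)[X], (p.map ρ).map 𝓣.subtype = p.map ρ0 := fun p => by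
    rw [Polynomial.map_map]; rfl
  have ev : ∀ (p : (MvPolynomial σ K)[X]) {W}, W ∈ 𝓣 → (p.map ρ0).eval W ∈ 𝓣 := fun p W hW => by
    have := eval_map_apply (p := p.map ρ) 𝓣.subtype ⟨W, hW⟩
    rw [mp] at this
    exact this ▸ Subtype.property _
  have hz := e.self_of_nhds
  have ha := (hm _).2 (tm_C (σ := σ) (h.alg hz))
  have hd : MvPowerSeries.constantCoeff (((derivative q).map ρ0).eval (MvPowerSeries.C (ζ t))) =
      evz t (ζ t) (derivative q) := by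
    rw [← tayS_const (p := t), ← tm_ev h0 analyticAt_const, constantCoeff_tayS]
  have hi := tm_alg ((hm _).1 (ev (derivative q) ha))
  rw [hd] at hi
  rw [tm_ev h0 a, ← hm]
  refine ev p (eta_root hC (q.map ρ) ?_ constantCoeff_tayS ha ((hm _).2 (tm_C hi.inv)) ?_)
  · rw [mp, ← tm_ev h0 a, tayS_congr e]
    exact tayS_zero
  · rw [mp, derivative_map, hd]
    exact inv_mul_cancel₀ (h.der hT hz)

end

end Pool.Agent.Lib.MP_5591bc_ag.Cv
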