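import Pool.Agent.Lib.MP_5591bc_ag.Cv.AllX
import Pool.Agent.Lib.MP_5591bc_ag.Cv.Push
import Pool.Agent.Lib.MP_5591bc_ag.Cv.Tame
import Pool.Agent.Lib.MP_5591bc_ag.Cu.GalD
import Pool.Agent.Lib.MP_5591bc_ag.Cu.Gal

/-! The condition of Galochkin for the direct image. -/

namespace Pool.Agent.Lib.MP_5591bc_ag.Cv

open Polynomial Set Filter Topology Matrix G M A B E Z Cu
open scoped Polynomial.Bivariate

noncomputable section

variable {σ K ν : Type} [Field K] [NumberField K] [Algebra K ℂ] [Fintype σ] [DecidableEq σ]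
  [Fintype ν] [DecidableEq ν] {T : MvPolynomial σ K} {q : (MvPolynomial σ K)[X]} {r n m : ℕ}
  {B : σ → Matrix ν ν (MvPolynomial σ K)[X]} {U U' V V' : Set (σ → ℂ)}
  {P P' : (σ → ℂ) → Matrix (Option ν) (Option ν) ℂ} {s t : σ → ℂ} {z : ℂ} {w : ν → ℕ}
  {J : Matrix ν ν ℝ}
  {f : (MvPolynomial σ K)[X][X][Y]} {d : (MvPolynomial σ K)[X][X]}
  {A : ν → (MvPolynomial σ K)[X][X][Y]} {R : Fin r → (σ → ℂ) → Matrix (Option ν) (Option ν) ℂ}
  {Bh : σ → Matrix (Ix ν r) (Ix ν r) (MvPolynomial σ K)}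

/-- the entries of the inverse of an algebraic matrix are algebraic -/
theorem gal2_inv {α : Type} [Fintype α] [DecidableEq α] {S : Subring ℂ} {W : Matrix α α ℂ}
    (h : ∀ a b, IsAlgebraic S (W a b)) (a b : α) : IsAlgebraic S (W⁻¹ a b) := by
  let W0 : Matrix α α (Subalgebra.algebraicClosure S ℂ) := of fun a b => ⟨W a b, h a b⟩
  let φ := (Subalgebra.algebraicClosure S ℂ).val.toRingHom
  have e : φ.mapMatrix W0 = W := rfl
  have h1 : IsAlgebraic S W.det := by
    rw [← e, ← RingHom.map_det]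
    exact W0.det.2
  have h2 : IsAlgebraic S (W.adjugate a b) := by
    rw [← e, ← RingHom.map_adjugate]
    exact (W0.adjugate a b).2
  rw [Matrix.inv_def, Ring.inverse_eq_inv, Matrix.smul_apply, smul_eq_mul]
  exact h1.inv.mul h2

/-- a block and the number one -/
def gal2E (L : Matrix ν ν ℂ) : Matrix (Option ν) (Option ν) ℂ :=
  of fun i j => match i, j with
    | some i, some j => L i j
    | none, none => 1
    | _, _ => 0

omit [DecidableEq ν] in
theorem gal2_mul (L O : Matrix ν ν ℂ) : gal2E L * gal2E O = gal2E (L * O) := by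
  ext (_ | i) (_ | j) <;> simp [gal2E, mul_apply, Fintype.sum_option]

omit [Fintype ν] [DecidableEq ν] in
theorem gal2_col {M : Matrix (Option ν) (Option ν) ℂ}
    (h : ∀ i, M (some i) none = 0 ∧ M none (some i) = 0) (a : Ix ν r) (j : Option ν) :
    col r M a j = M none none ^ (a.2 : ℕ) * gal2E (bl M) a.1 j := by
  obtain ⟨_ | i, a⟩ := a <;> rcases j with _ | j <;> simp [col, gal2E, h]

theorem gal2_pu {L O : Fin r → Matrix (Option ν) (Option ν) ℂ}
    (hX : ∀ b i, L b (some i) none = 0 ∧ L b none (some i) = 0)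
    (hN : ∀ b i, O b (some i) none = 0 ∧ O b none (some i) = 0) (d0 : ∀ b, (bl (O b)).det ≠ 0)
    (inj : Function.Injective fun b => O b none none) (p0 : (pu O).det ≠ 0) (a a' : Ix ν r) :
    (pu L * (pu O)⁻¹) a a' = ∑ b, gal2E (bl (L b) * (bl (O b))⁻¹) a.1 a'.1 *
      L b none none ^ (a.2 : ℕ) * (vandermonde fun b => O b none none)⁻¹ a'.2 b := by
  obtain ⟨W, hW⟩ : ∃ W, W = vandermonde fun b => O b none none := ⟨_, rfl⟩
  have w0 : W * W⁻¹ = 1 :=
    mul_nonsing_inv _ (hW ▸ (det_vandermonde_ne_zero_iff.2 inj)).isUnit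
  rw [← hW]
  let N : Matrix (Ix ν r) (Ix ν r) ℂ := of fun a a' =>
    ∑ b, gal2E (bl (L b) * (bl (O b))⁻¹) a.1 a'.1 * L b none none ^ (a.2 : ℕ) * W⁻¹ a'.2 b
  have e : pu L = N * pu O := by
    ext a c
    have k : ∀ b, ∑ a' : Fin r, O c.2 none none ^ (a' : ℕ) * W⁻¹ a' b = if c.2 = b then 1 else 0 :=
      fun b => by
        have := congrFun₂ w0 c.2 b
        rw [mul_apply, one_apply] at this
        rw [← this]
        simp only [hW, vandermonde_apply]
    have k2 : ∑ i, gal2E (bl (L c.2) * (bl (O c.2))⁻¹) a.1 i * gal2E (bl (O c.2)) i c.1 =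
        gal2E (bl (L c.2)) a.1 c.1 := by
      rw [← mul_apply, gal2_mul, nonsing_inv_mul_cancel_right _ _ (d0 _).isUnit]
    have k3 : (N * pu O) a c = ∑ b, ∑ i, (gal2E (bl (L b) * (bl (O b))⁻¹) a.1 i *
        gal2E (bl (O c.2)) i c.1 * L b none none ^ (a.2 : ℕ)) *
          ∑ a' : Fin r, O c.2 none none ^ (a' : ℕ) * W⁻¹ a' b := by
      simp only [mul_apply (M := N), N, pu, of_apply, gal2_col (hN _), Finset.sum_mul,
        Finset.mul_sum]
      rw [Finset.sum_comm]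
      refine Finset.sum_congr rfl fun b _ => ?_
      rw [Fintype.sum_prod_type]
      exact Finset.sum_congr rfl fun i _ => Finset.sum_congr rfl fun a' _ => by ring
    rw [k3]
    simp only [k, mul_ite, mul_one, mul_zero, Finset.sum_ite_irrel, Finset.sum_const_zero,
      Finset.sum_ite_eq, Finset.mem_univ, if_true, ← Finset.sum_mul, k2, pu, of_apply,
      gal2_col (hX _)]
    ring
  rw [e, mul_nonsing_inv_cancel_right _ _ p0.isUnit]
  rfl

theorem gal2_bd {α : Type} [Fintype α] [DecidableEq α] (L : Matrix α α ℂ) {O : Matrix α α ℂ}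
    (h : O.det ≠ 0) (n : ℕ) : bd n L * (bd n O)⁻¹ = bd n (L * O⁻¹) := by
  have e : (bd n O)⁻¹ = bd n O⁻¹ := inv_eq_right_inv (by
    rw [← blockDiagonal_mul]
    simp only [mul_nonsing_inv _ h.isUnit]
    exact blockDiagonal_one)
  rw [e, ← blockDiagonal_mul]

omit [Fintype σ] [DecidableEq σ] in
theorem gal2_one (S : Subring ℂ) : GT S (MvPowerSeries.C 1 : MvPowerSeries σ ℂ) := by
  classical
  refine ⟨1, one_mem _, one_ne_zero, 0, fun κ => ?_⟩
  rw [MvPowerSeries.coeff_C, one_pow, mul_one]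
  split_ifs
  · rw [mul_one]
    exact isIntegral_algebraMap (x := (⟨_, natCast_mem S _⟩ : S))
  · rw [mul_zero]
    exact isIntegral_zero

theorem Fam2.gal (h : Fam2 T q r B f d m A w) (hS : Sys T q B Bh) (n : ℕ) :
    GalM T fun l => bd n (Bh l) := by
  obtain ⟨t, -, ht⟩ := gen_ex (σ := σ) K isOpen_univ univ_nonempty
  have hT : MvPolynomial.aeval t T ≠ 0 := fun e => h.cv.T0 (ht _ e)
  obtain ⟨V, R, tV, hA, hP⟩ := h.all hT
  have hV : V ∈ 𝓝 t := hA.op.mem_nhds tV
  have hF := hA.fund hS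
  obtain ⟨𝓖, g1, g2⟩ := gt_ex σ (Rt t)
  have an : ∀ b, AnalyticAt ℂ (fun x => R b x none none) t := fun b => (hA.fs b t tV).1 _ _
  have tm : ∀ b p, Tame (Rt t) (tayS (fun x => evz x (R b x none none) p) t) := fun b =>
    tame2 h.cv hT (an b) (mem_of_superset hV fun x hx => (hA.fs b x hx).2.2.1)
  have aE : ∀ b i j, AnalyticAt ℂ (fun x => gal2E (bl (R b x) * (bl (R b t))⁻¹) i j) t ∧
      tayS (fun x => gal2E (bl (R b x) * (bl (R b t))⁻¹) i j) t ∈ 𝓖 := by
    rintro b (_ | i) (_ | j)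
    · exact ⟨analyticAt_const, (g1 _).2 ((tayS_const (p := t) 1).symm ▸ gal2_one _)⟩
    · exact ⟨analyticAt_const, (tayS_zero (p := t)).symm ▸ zero_mem _⟩
    · exact ⟨analyticAt_const, (tayS_zero (p := t)).symm ▸ zero_mem _⟩
    · exact ⟨Finset.analyticAt_fun_sum _ fun k _ =>
        ((hA.fs b t tV).1 _ _).fun_mul analyticAt_const,
        (g1 _).2 ((h.lf (hP b) hV).galc (tm b) i j)⟩
  refine gal_of h.cv.T0 hA.op (fund_bd hF n) tV ht fun i j => (g1 _).1 ?_
  simp only [gal2_bd _ (hF t tV).1, blockDiagonal_apply]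
  split_ifs
  swap
  · rw [tayS_zero]
    exact zero_mem _
  have e : (fun x => (pu (fun b => R b x) * (pu fun b => R b t)⁻¹) i.1 j.1) =ᶠ[𝓝 t] fun x =>
      ∑ b, gal2E (bl (R b x) * (bl (R b t))⁻¹) i.1.1 j.1.1 * R b x none none ^ (i.1.2 : ℕ) *
        (vandermonde fun b => R b t none none)⁻¹ j.1.2 b := by
    filter_upwards [hV] with x hx
    exact gal2_pu (fun b => (hA.fs b x hx).2.1) (fun b => (hA.fs b t tV).2.1)
      (fun b => hA.dt b t tV) (hA.inj t tV) (hF t tV).1 _ _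
  rw [tayS_congr e, tayS_sum _ fun b _ =>
    ((aE b _ _).1.fun_mul ((an b).fun_pow _)).fun_mul analyticAt_const]
  refine sum_mem fun b _ => ?_
  rw [tayS_mul ((aE b _ _).1.fun_mul ((an b).fun_pow _)) analyticAt_const, tayS_const,
    tayS_mul (aE b _ _).1 ((an b).fun_pow _)]
  refine g2 _ (g2 _ (aE b _ _).2 _ ?_) _ (tame_C (gal2_inv (fun a c => ?_) _ _))
  · simpa only [map_pow, evz_X] using tm b (X ^ (i.1.2 : ℕ))
  · exact (h.cv.alg (hA.fs a t tV).2.2.1).pow _

end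

end Pool.Agent.Lib.MP_5591bc_ag.Cv
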