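import Pool.Agent.Lib.MP_5591bc_ag.Cv.Lift

/-! The degree property passes to the cover. -/

namespace Pool.Agent.Lib.MP_5591bc_ag.Cv

open Polynomial Set Filter Topology Matrix G M A B E Z N Cu
open scoped Polynomial.Bivariate

noncomputable section

variable {σ K ν : Type} [Field K] [NumberField K] [Algebra K ℂ] [Fintype σ] [DecidableEq σ]
  [Fintype ν] [DecidableEq ν] {T : MvPolynomial σ K} {q : (MvPolynomial σ K)[X]} {r n m : ℕ}
  {B : σ → Matrix ν ν (MvPolynomial σ K)[X]} {U U' V V' : Set (σ → ℂ)}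
  {P P' : (σ → ℂ) → Matrix (Option ν) (Option ν) ℂ} {s t : σ → ℂ} {z : ℂ} {w : ν → ℕ}
  {J : Matrix ν ν ℝ}
  [NeZero r] [NeZero n] {B2 : σ → Matrix (Iy ν r n) (Iy ν r n) (MvPolynomial σ K)}
  {Ph Ph' : (σ → ℂ) → Matrix (Iy ν r n) (Iy ν r n) ℂ} {Z : Matrix (Iy ν r n) (Iy ν r n) ℂ}
  {M : Matrix (Option ν) (Option ν) ℂ}

/-- the substitution for the second group of variables -/
def goodS {R : Type*} [CommRing R] (z : R) (W : Option ν × Option ν → R)
    (a : Iy ν r n × Iy ν r n) : R :=
  if a.1.2 = 0 ∧ a.2.1.2 = 0 ∧ a.2.2 = 0 then z ^ (a.1.1.2 : ℕ) * W (a.1.1.1, a.2.1.1) else 0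

omit [Fintype ν] [DecidableEq ν] in
theorem good_i0 {R : Type*} [CommRing R] (z : R) (W : Option ν × Option ν → R)
    (a : Option ν × Option ν) : goodS z W (i0 r n a.1, i0 r n a.2) = W a := by
  simp [goodS, i0]

theorem good_sz (i j : Option ν) :
    (M * (1 - sz ν 1) : Matrix _ _ ℂ) i j = if j = none then 0 else M i j := by
  rw [Matrix.mul_sub, Matrix.mul_one, Matrix.sub_apply]
  split_ifs with e
  · simp [e]
  · rw [mul_single_apply_of_ne _ _ _ _ _ e, sub_zero]

theorem good_pr (h : Shp Z M) (a : Iy ν r n × Iy ν r n) :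
    (Z * pr (ic ν r n)) a.1 a.2 =
      goodS (M none none) (fun a => (M * (1 - sz ν 1) : Matrix _ _ ℂ) a.1 a.2) a := by
  obtain ⟨a, ⟨j, b⟩, c⟩ := a
  rw [B.pr, ← Matrix.mul_assoc, mul_bm, mul_apply, goodS, good_sz]
  simp only [submatrix_apply, id, transpose_apply, bm, one_apply, h a _]
  simp only [i0, Prod.mk.injEq, col, of_apply]
  cases j with
  | none => simp
  | some j => by_cases a.2 = 0 <;> by_cases b = 0 <;> by_cases c = 0 <;> simp [*]

theorem Up.good (h : Up T q B B2 U P V Ph) {E : Type} [Field E] [Algebra E ℂ] {δ : ℕ}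
    {x : σ → E} {y : E} (hx : pc x ∈ V)
    (g : GoodRM V Ph (c1 ν r n) (pr (ic ν r n)) δ x (z1 ν r n y)) :
    GoodRM U P (sz ν 1) (1 - sz ν 1) δ x (sz ν y) := by
  intro F hF h0
  obtain ⟨H, h1, h2⟩ := g (MvPolynomial.rename (fun a => (i0 r n a.1, i0 r n a.2)) F)
    ((MvPolynomial.totalDegree_rename_le _ _).trans hF) (by
      rw [MvPolynomial.aeval_rename, ← h0]
      congr 2
      funext a
      exact (good_pr (h.sh _ hx) (i0 r n a.1, i0 r n a.2)).trans (good_i0 _ _ a))
  let ζ : MvPolynomial (σ ⊕ (Option ν × Option ν) ⊕ (Option ν × Option ν)) E :=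
    MvPolynomial.X (.inr (.inl (none, none)))
  refine ⟨MvPolynomial.aeval (Sum.elim (fun l => MvPolynomial.X (.inl l)) (Sum.elim
    (fun a => z1 ν r n ζ a.1 a.2) (goodS ζ fun a => MvPolynomial.X (.inr (.inr a))))) H,
    fun U' P' k t ht => ?_, ?_⟩
  · obtain ⟨ho, -, hf⟩ := h.fs.cont h.ho h.hc k
    generalize hG : MvPolynomial.aeval (R := E) (S₁ := MvPolynomial
      (σ ⊕ (Option ν × Option ν) ⊕ (Option ν × Option ν)) E) _ H = G
    have c : ContinuousAt (fun t => MvPolynomial.aeval (Sum.elim t (Sum.elim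
        (fun a => (P' t * sz ν 1 : Matrix _ _ ℂ) a.1 a.2)
        fun a => (P' t * (1 - sz ν 1) : Matrix _ _ ℂ) a.1 a.2)) G) t := by
      clear hG
      have a := fun i j => ((hf t ht).1 i j).continuousAt
      induction G using MvPolynomial.induction_on with
      | C => simpa using continuousAt_const
      | add p q a b => simp only [map_add]; exact a.add b
      | mul_X p i b =>
        simp only [map_mul, MvPolynomial.aeval_X]
        refine b.mul ?_
        rcases i with l | i | i
        · exact continuousAt_apply l t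
        all_goals
          simp only [Sum.elim_inr, Sum.elim_inl, mul_apply]
          exact tendsto_finsetSum _ fun j _ => (a _ j).mul continuousAt_const
    refine tendsto_nhds_unique_of_frequently_eq c tendsto_const_nhds
      (((mono_freq h.cv.T0 t).and_eventually (ho.mem_nhds ht)).mono fun s ⟨s0, hs⟩ => ?_)
    obtain ⟨V', Ph', a1, a2, a3⟩ := h.lift k hs s0
    rw [← hG, ← h1 V' Ph' a2 s a1, ← AlgHom.comp_apply, MvPolynomial.comp_aeval]
    congr 2
    funext i
    rcases i with l | a | a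
    · simp
    · simp only [Sum.elim_inr, Sum.elim_inl, (a3.sh s a1).mul_c1 (hf s hs).2.1, z1, of_apply]
      split_ifs <;> simp [ζ]
    · simp only [Sum.elim_inr, good_pr (a3.sh s a1), goodS]
      split_ifs <;> simp [ζ]
  · rw [← AlgHom.comp_apply, MvPolynomial.comp_aeval]
    have := congrArg (MvPolynomial.aeval (R := E)
      (goodS (r := r) (n := n) (MvPolynomial.C y : MvPolynomial (Option ν × Option ν) E)
        MvPolynomial.X)) h2
    rw [MvPolynomial.aeval_rename, ← AlgHom.comp_apply, MvPolynomial.comp_aeval,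
      show (goodS (MvPolynomial.C y) MvPolynomial.X ∘ fun a => (i0 r n a.1, i0 r n a.2)) =
        (MvPolynomial.X : _ → MvPolynomial (Option ν × Option ν) E) from
        funext fun a => good_i0 _ _ a, MvPolynomial.aeval_X_left_apply] at this
    rw [← this]
    congr 2
    funext i
    rcases i with l | a | a
    · simp
    · simp only [Sum.elim_inr, Sum.elim_inl, z1, of_apply]
      split_ifs <;> simp [ζ]
    · simp only [Sum.elim_inr, MvPolynomial.aeval_X, goodS]
      split_ifs <;> simp [ζ]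

end

end Pool.Agent.Lib.MP_5591bc_ag.Cv
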