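import Pool.Agent.Lib.MP_5591bc_ag.Cv.Down
import Pool.Agent.Lib.MP_5591bc_ag.K.DefW

/-! Monodromy groups and weakly special loci. -/

namespace Pool.Agent.Lib.MP_5591bc_ag.Cv

open Polynomial Set Filter Topology Matrix G M A B E Z K Cu
open scoped Polynomial.Bivariate

noncomputable section

variable {σ K ν : Type} [Field K] [NumberField K] [Algebra K ℂ] [Fintype σ] [DecidableEq σ]
  [Fintype ν] [DecidableEq ν] {T : MvPolynomial σ K} {q : (MvPolynomial σ K)[X]} {r n m : ℕ}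
  {B : σ → Matrix ν ν (MvPolynomial σ K)[X]} {U U' V V' : Set (σ → ℂ)}
  {P P' : (σ → ℂ) → Matrix (Option ν) (Option ν) ℂ} {s t : σ → ℂ} {z : ℂ} {w : ν → ℕ}
  {J : Matrix ν ν ℝ}
  [NeZero r] [NeZero n] {B2 : σ → Matrix (Iy ν r n) (Iy ν r n) (MvPolynomial σ K)}
  {Ph Ph' : (σ → ℂ) → Matrix (Iy ν r n) (Iy ν r n) ℂ} {Z : Matrix (Iy ν r n) (Iy ν r n) ℂ}
  {M : Matrix (Option ν) (Option ν) ℂ}

omit [Fintype σ] [DecidableEq σ] in
theorem mfw_sub {α β μ : Type} [Fintype β] {u : (σ → ℂ) → α → ℂ} {u' : (σ → ℂ) → β → ℂ}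
    {y y' : (σ → ℂ) → μ → ℂ} {W : μ → ℂ} (φ : β → MvPolynomial (σ ⊕ α ⊕ μ) ℂ)
    (e : ∀ᶠ x in 𝓝 s, y' x = y x ∧ ∀ b Z,
      MvPolynomial.eval (Sum.elim x (Sum.elim (u x) Z)) (φ b) = u' x b)
    (h : ∀ H : MvPolynomial (σ ⊕ α ⊕ μ) ℂ,
      (∀ᶠ x in 𝓝 s, MvPolynomial.eval (Sum.elim x (Sum.elim (u x) (y x))) H = 0) →
        MvPolynomial.eval (Sum.elim s (Sum.elim (u s) W)) H = 0)
    (H : MvPolynomial (σ ⊕ β ⊕ μ) ℂ)
    (hH : ∀ᶠ x in 𝓝 s, MvPolynomial.eval (Sum.elim x (Sum.elim (u' x) (y' x))) H = 0) :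
    MvPolynomial.eval (Sum.elim s (Sum.elim (u' s) W)) H = 0 := by
  have k : ∀ x Z, (∀ b Z, MvPolynomial.eval (Sum.elim x (Sum.elim (u x) Z)) (φ b) = u' x b) →
      MvPolynomial.eval (Sum.elim x (Sum.elim (u x) Z)) (MvPolynomial.bind₁
        (Sum.elim (fun l => MvPolynomial.X (.inl l)) (Sum.elim φ
          fun a => MvPolynomial.X (.inr (.inr a)))) H) =
      MvPolynomial.eval (Sum.elim x (Sum.elim (u' x) Z)) H := fun x Z hx => by
    refine (MvPolynomial.eval₂Hom_bind₁ (RingHom.id ℂ) _ _ H).trans ?_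
    refine congrArg (fun v => MvPolynomial.eval₂Hom (RingHom.id ℂ) v H) (funext ?_)
    rintro (l | b | a)
    · simp
    · exact hx b Z
    · simp
  rw [← k s W e.self_of_nhds.2]
  refine h _ ?_
  filter_upwards [e, hH] with x h1 h2
  rw [k x _ h1.2, ← h1.1, h2]

theorem Up.mf (h : Up T q B B2 U P V Ph) (hs : s ∈ V) :
    Mf Ph (c1 ν r n) (ic ν r n) s = Mf P (sz ν 1) some s := by
  have ev : ∀ᶠ x in 𝓝 s, (Ph x).submatrix (ic ν r n) (ic ν r n) = bl (P x) ∧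
      Ph x * c1 ν r n = z1 ν r n (P x none none) ∧ P x * sz ν 1 = sz ν (P x none none) ∧
      evz x (P x none none) q = 0 := by
    filter_upwards [h.op.mem_nhds hs] with x hx
    have k := h.fs x (h.sub hx)
    exact ⟨(h.sh x hx).sub, (h.sh x hx).mul_c1 k.2.1, mul_sz k.2.1, k.2.2.1⟩
  ext g
  refine and_congr Iff.rfl ⟨fun k => ?_, fun k => ?_⟩
  · rw [ev.self_of_nhds.1] at k
    refine mfw_sub (fun b => if b = (none, none) then ∑ a : Fin r,
      MvPolynomial.rename Sum.inl (MvPolynomial.map (algebraMap K ℂ) ((X %ₘ q).coeff a)) *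
        MvPolynomial.X (.inr (.inl (((none, a), 0), i0 r n none))) else 0) ?_ k
    filter_upwards [ev] with x hx
    refine ⟨funext fun a => (congrFun₂ hx.1 a.1 a.2).symm, fun b Z => ?_⟩
    rw [hx.2.2.1, hx.2.1]
    split_ifs with hb
    · subst hb
      refine Eq.trans ?_ (((h.cv.mod hx.2.2.2 X).trans evz_X).trans
        (single_apply_same none none _).symm)
      rw [map_sum]
      refine Finset.sum_congr rfl fun a _ => ?_
      rw [map_mul, MvPolynomial.eval_rename, MvPolynomial.eval_X, MvPolynomial.eval_map,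
        MvPolynomial.aeval_def]
      simp [z1]
    · exact (map_zero _).trans (single_apply_of_ne _ _ _ _ _
        fun c => hb (Prod.ext c.1.symm c.2.symm)).symm
  · rw [ev.self_of_nhds.1]
    refine mfw_sub (fun b => if b.1.1.1 = none ∧ b.1.2 = 0 ∧ b.2 = i0 r n none then
      MvPolynomial.X (.inr (.inl (none, none))) ^ (b.1.1.2 : ℕ) else 0) ?_ k
    filter_upwards [ev] with x hx
    refine ⟨funext fun a => congrFun₂ hx.1 a.1 a.2, fun b Z => ?_⟩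
    rw [hx.2.2.1, hx.2.1, z1, of_apply]
    split_ifs with hb <;> simp

theorem Up.ws (h : Up T q B B2 U P V Ph) (h' : Up T q B B2 U' P' V' Ph') (hs : s ∈ V')
    (hz : evz t z q = 0) {j : ℕ} (hW : WS T V Ph (c1 ν r n) (ic ν r n) j w Ph' s (t, z1 ν r n z)) :
    WS T U P (sz ν 1) some j w P' s (t, sz ν z) := by
  obtain ⟨N, n1, n2, n3, γ, y, p, g0, y0, e1, hh⟩ := hW
  rw [h'.mf hs] at n2 n3
  have k := h'.fs s (h'.sub hs)
  have e2 := (Prod.mk.inj e1).1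
  refine ⟨N, n1, n2, n3, γ, fun τ => bk q (γ τ) (y τ), ⟨p.1, fun τ hτ => ?_⟩, g0, ?_, ?_, hh⟩
  · obtain ⟨a, W, Q, c, m, e⟩ := p.2 τ hτ
    exact ⟨a, W, _, (h.down c).1, m, e.mono fun x hx => congrArg (bk q (γ x)) hx⟩
  · simp only [g0, y0]
    exact bk_shp h'.cv (h'.sh s hs) k.2.1 k.2.2.1
  · simp only [e2]
    rw [mul_sz fun i => ⟨rfl, rfl⟩, bk_z1 h.cv hz (Prod.mk.inj e1).2]

end

end Pool.Agent.Lib.MP_5591bc_ag.Cv
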