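import Pool.Agent.Lib.MP_5591bc_ag.Cv.Down

/-! The projector on the first branch. -/

namespace Pool.Agent.Lib.MP_5591bc_ag.Cv

open Polynomial Set Filter Topology Matrix G M A B E Z J Cu
open scoped Polynomial.Bivariate

noncomputable section

variable {σ K ν : Type} [Field K] [NumberField K] [Algebra K ℂ] [Fintype σ] [DecidableEq σ]
  [Fintype ν] [DecidableEq ν] {T : MvPolynomial σ K} {q : (MvPolynomial σ K)[X]} {r n m : ℕ}
  {B : σ → Matrix ν ν (MvPolynomial σ K)[X]} {U U' V V' : Set (σ → ℂ)}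
  {P P' : (σ → ℂ) → Matrix (Option ν) (Option ν) ℂ} {s t : σ → ℂ} {z : ℂ} {w : ν → ℕ}
  {J : Matrix ν ν ℝ}
  [NeZero r] [NeZero n] {B2 : σ → Matrix (Iy ν r n) (Iy ν r n) (MvPolynomial σ K)}
  {Ph Ph' : (σ → ℂ) → Matrix (Iy ν r n) (Iy ν r n) ℂ} {Z : Matrix (Iy ν r n) (Iy ν r n) ℂ}
  {M : Matrix (Option ν) (Option ν) ℂ}

/-- the divided difference at the roots -/
theorem pj_div {Q : ℂ[X]} {z z' : ℂ} {r : ℕ} (hr : Q.natDegree = r) (r0 : r ≠ 0)
    (hz : Q.eval z = 0) (hz' : Q.eval z' = 0) :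
    ∑ a : Fin r, (Q /ₘ (X - C z)).coeff a * z' ^ (a : ℕ) =
      if z' = z then (derivative Q).eval z else 0 := by
  have h1 : (Q /ₘ (X - C z)).natDegree < r := by
    rw [natDegree_divByMonic _ (monic_X_sub_C z), natDegree_X_sub_C]
    omega
  have h2 : (X - C z) * (Q /ₘ (X - C z)) = Q := mul_divByMonic_eq_iff_isRoot.2 hz
  rw [Fin.sum_univ_eq_sum_range (fun a => (Q /ₘ (X - C z)).coeff a * z' ^ a),
    ← eval_eq_sum_range' h1]
  generalize Q /ₘ (X - C z) = H at h2
  subst h2
  split_ifs with e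
  · simp [e]
  · simpa [sub_ne_zero.2 e] using hz'

theorem pj_pr {α β : Type} [Fintype α] [Fintype β] [DecidableEq β] {c : α → β}
    (hc : Function.Injective c) : pr c = diagonal fun b => if b ∈ Set.range c then 1 else 0 := by
  classical
  ext b b'
  simp only [MP_5591bc_ag.B.pr, bm, mul_apply, transpose_apply, submatrix_apply, id, one_apply,
    diagonal_apply]
  by_cases h : b ∈ Set.range c
  · obtain ⟨a, rfl⟩ := h
    rw [Finset.sum_eq_single a (fun a' _ h => by rw [if_neg (hc.ne h.symm), zero_mul]) (by simp)]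
    simp [eq_comm]
  · rw [Finset.sum_eq_zero fun a _ => by rw [if_neg fun e => h ⟨a, e.symm⟩, zero_mul]]
    simp [h]

theorem All.proj {R : Fin r → (σ → ℂ) → Matrix (Option ν) (Option ν) ℂ} (h : All T q B V R)
    (hq : Cov T q r) :
    Proj T V (fun t => bd n (pu fun b => R b t)) (c1 ν r n) (pr (ic ν r n)) := by
  classical
  rw [Proj, pj_pr ic_inj]
  refine ⟨by
    rw [diagonal_mul_diagonal]
    congr
    ext b
    split_ifs <;> simp, ?_⟩
  rw [← pj_pr ic_inj]
  obtain ⟨u, v, e⟩ := Ideal.mem_span_pair.1 hq.et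
  have hp : ∀ p : (MvPolynomial σ K)[X], ∃ p' : MvPolynomial (σ ⊕ Iy ν r n × Iy ν r n) K,
      ∀ t ∈ V, MvPolynomial.aeval (Sum.elim t fun a =>
        (bd n (pu fun b => R b t) * c1 ν r n) a.1 a.2) p' = evz t (R 0 t none none) p :=
    fun p => ⟨∑ a : Fin r, MvPolynomial.rename Sum.inl ((p %ₘ q).coeff a) *
      MvPolynomial.X (.inr (((none, a), 0), i0 r n none)), fun t ht => by
      rw [← hq.mod (h.fs 0 t ht).2.2.1, map_sum]
      refine Finset.sum_congr rfl fun a _ => ?_
      rw [map_mul, MvPolynomial.aeval_rename, MvPolynomial.aeval_X, Sum.elim_comp_inl,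
        Sum.elim_inr, mul_single_apply_same]
      simp [i0, pu, col, blockDiagonal_apply]⟩
  choose F hF using hp
  refine ⟨1, of fun a b => if a.1.1 ≠ none ∧ a.2 = 0 ∧ b.1.1 = a.1.1 ∧ b.2 = 0 then
    F (X ^ (a.1.2 : ℕ) * v * (q.map C /ₘ (X - C X)).coeff b.1.2) else 0, fun t ht => ?_⟩
  have hz : ∀ b, (q.map (evt t)).eval (R b t none none) = 0 := fun b => by
    rw [eval_map]
    exact (h.fs b t ht).2.2.1
  have hc : ∀ a, evz t (R 0 t none none) ((q.map C /ₘ (X - C X)).coeff a) =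
      (q.map (evt t) /ₘ (X - C (R 0 t none none))).coeff a := fun a => by
    rw [← coeff_map, map_divByMonic _ (monic_X_sub_C _), Polynomial.map_sub, map_X, map_C, evz_X,
      Polynomial.map_map]
    congr 3
    exact RingHom.ext fun p => evz_C p
  have hs : ∀ b, evz t (R 0 t none none) v * ∑ a : Fin r, evz t (R 0 t none none)
      ((q.map C /ₘ (X - C X)).coeff a) * R b t none none ^ (a : ℕ) =
      if b = 0 then MvPolynomial.aeval t T else 0 := fun b => by
    simp only [hc]
    rw [pj_div ((hq.mq.natDegree_map _).trans hq.dq) (NeZero.ne r) (hz 0) (hz b)]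
    by_cases hb : b = 0
    · have := congrArg (evz t (R 0 t none none)) e
      rw [map_add, map_mul, map_mul, (h.fs 0 t ht).2.2.1, mul_zero, zero_add, evz_C] at this
      rw [if_pos hb, if_pos (by rw [hb]), ← this, derivative_map, eval_map]
      rfl
    · rw [if_neg hb, if_neg fun e => hb (h.inj t ht e), mul_zero]
  have hm : ∀ j b k, ((j, b), k) ∈ Set.range (ic ν r n) ↔ j ≠ none ∧ b = 0 ∧ k = 0 := by
    rintro (_ | j) b k <;> simp [ic, i0, eq_comm]
  ext ⟨⟨i, a⟩, k⟩ ⟨⟨j, b⟩, k'⟩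
  rw [pow_one, Matrix.smul_apply, mul_apply (M := Matrix.map _ _), smul_eq_mul]
  simp only [map_apply, of_apply, apply_ite (MvPolynomial.aeval _), hF _ t ht, map_zero,
    map_mul, map_pow, evz_X]
  rw [pj_pr ic_inj, mul_diagonal]
  simp only [hm, blockDiagonal_apply, pu, col, of_apply]
  have h0 := fun b => (h.fs b t ht).2.1
  by_cases hk : i ≠ none ∧ k = 0
  · obtain ⟨hi, rfl⟩ := hk
    obtain ⟨i, rfl⟩ := Option.ne_none_iff_exists'.1 hi
    rw [Fintype.sum_prod_type_right, Finset.sum_eq_single 0 (fun k _ h => by simp [h]) (by simp),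
      Fintype.sum_prod_type, Finset.sum_eq_single (some i) (fun i' _ h => by simp [h]) (by simp)]
    by_cases hk' : k' = 0
    · subst hk'
      have := congrArg (R 0 t none none ^ (a : ℕ) * R b t (some i) j * ·) (hs b)
      simp only [Finset.mul_sum] at this
      simp only [ne_eq, reduceCtorEq, not_false_eq_true, and_self, if_true, false_and, if_false,
        and_true]
      refine Eq.trans ?_ (this.symm.trans (Finset.sum_congr rfl fun _ _ => by ring))
      rcases j with _ | j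
      · simp [(h0 b i).1]
      · by_cases hb : b = 0
        · simp [hb, mul_comm]
        · simp [hb]
    · simp [hk', Ne.symm hk']
  · rw [Finset.sum_eq_zero fun x _ => by
      rw [if_neg fun e => hk ⟨e.1, e.2.1⟩, zero_mul]]
    by_cases h1 : j ≠ none ∧ b = 0 ∧ k' = 0
    · obtain ⟨hj, rfl, rfl⟩ := h1
      obtain ⟨j, rfl⟩ := Option.ne_none_iff_exists'.1 hj
      rcases i with _ | i
      · simp [(h0 0 j).2]
      · simp [show k ≠ 0 from fun e => hk ⟨by simp, e⟩]
    · rw [if_neg h1, mul_zero, mul_zero]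

end

end Pool.Agent.Lib.MP_5591bc_ag.Cv
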