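import Pool.Agent.Lib.MP_5591bc_ag.Cv.Root

/-! The direct image of the system. -/

namespace Pool.Agent.Lib.MP_5591bc_ag.Cv

open Polynomial Set Filter Topology Matrix G M A B E Z Cu
open scoped Polynomial.Bivariate

noncomputable section

variable {σ K ν : Type} [Field K] [NumberField K] [Algebra K ℂ] [Fintype σ] [DecidableEq σ]
  [Fintype ν] [DecidableEq ν] {T : MvPolynomial σ K} {q : (MvPolynomial σ K)[X]} {r n m : ℕ}
  {B : σ → Matrix ν ν (MvPolynomial σ K)[X]} {U U' V V' : Set (σ → ℂ)}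
  {P P' : (σ → ℂ) → Matrix (Option ν) (Option ν) ℂ} {s t : σ → ℂ} {z : ℂ} {w : ν → ℕ}
  {J : Matrix ν ν ℝ}

omit [NumberField K] in
theorem sys_c (c : MvPolynomial σ K) (t : σ → ℂ) :
    ∃ L : (σ → ℂ) →L[ℂ] ℂ, HasFDerivAt (fun x : σ → ℂ => MvPolynomial.aeval x c) L t ∧
      ∀ l, L (Pi.single l 1) = MvPolynomial.aeval t (MvPolynomial.pderiv l c) := by
  induction c using MvPolynomial.induction_on with
  | C a => exact ⟨0, by simpa using hasFDerivAt_const _ _, fun l => by simp⟩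
  | add p p' hp hp' =>
    obtain ⟨L, h1, h2⟩ := hp
    obtain ⟨L', h1', h2'⟩ := hp'
    exact ⟨L + L', by simpa only [map_add] using h1.fun_add h1', fun l => by simp [h2, h2']⟩
  | mul_X p i hp =>
    obtain ⟨L, h1, h2⟩ := hp
    refine ⟨_, by
      simpa only [map_mul, MvPolynomial.aeval_X] using h1.fun_mul (hasFDerivAt_apply i t),
      fun l => ?_⟩
    by_cases e : i = l
    · subst e
      simp [h2]
    · simp [h2, MvPolynomial.pderiv_X_of_ne e, Pi.single_eq_of_ne e]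

theorem sys_p (l : σ) (p : (MvPolynomial σ K)[X]) : ∃ pl : (MvPolynomial σ K)[X],
    ∀ (t : σ → ℂ) (ζ : (σ → ℂ) → ℂ) (Z : (σ → ℂ) →L[ℂ] ℂ), HasFDerivAt ζ Z t →
      ∃ L : (σ → ℂ) →L[ℂ] ℂ, HasFDerivAt (fun x => evz x (ζ x) p) L t ∧ L (Pi.single l 1) =
        evz t (ζ t) pl + evz t (ζ t) (derivative p) * Z (Pi.single l 1) := by
  induction p using Polynomial.induction_on' with
  | add p p' hp hp' =>
    obtain ⟨a, ha⟩ := hp
    obtain ⟨b, hb⟩ := hp'
    refine ⟨a + b, fun t ζ Z h => ?_⟩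
    obtain ⟨L, h1, h2⟩ := ha t ζ Z h
    obtain ⟨L', h1', h2'⟩ := hb t ζ Z h
    refine ⟨L + L', by simpa only [map_add] using h1.fun_add h1', ?_⟩
    simp only [_root_.add_apply, h2, h2', map_add]
    ring
  | monomial k c =>
    refine ⟨C (MvPolynomial.pderiv l c) * X ^ k, fun t ζ Z h => ?_⟩
    obtain ⟨L, h1, h2⟩ := sys_c c t
    refine ⟨_, by
      simpa only [← C_mul_X_pow_eq_monomial, map_mul, map_pow, evz_C, evz_X] using
        h1.fun_mul (h.pow k), ?_⟩
    rw [← C_mul_X_pow_eq_monomial, derivative_C_mul, derivative_X_pow, C_eq_natCast]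
    simp only [map_mul, map_pow, evz_C, evz_X, map_natCast, _root_.add_apply,
      _root_.smul_apply, h2, smul_eq_mul, nsmul_eq_mul]
    ring

theorem sys_z (h : Cov T q r) (l : σ) : ∃ e : (MvPolynomial σ K)[X],
    ∀ (t : σ → ℂ) (ζ : (σ → ℂ) → ℂ) (Z : (σ → ℂ) →L[ℂ] ℂ), HasFDerivAt ζ Z t →
      (∀ᶠ x in 𝓝 t, evz x (ζ x) q = 0) →
      MvPolynomial.aeval t T * Z (Pi.single l 1) = evz t (ζ t) e := by
  obtain ⟨u, v, e⟩ := Ideal.mem_span_pair.1 h.et
  obtain ⟨ql, hq⟩ := sys_p l q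
  refine ⟨-(v * ql), fun t ζ Z hZ h0 => ?_⟩
  obtain ⟨L, h1, h2⟩ := hq t ζ Z hZ
  have h3 : L = 0 := h1.unique ((hasFDerivAt_const (0 : ℂ) t).congr_of_eventuallyEq h0)
  have h4 := congrArg (evz t (ζ t)) e
  rw [map_add, map_mul, map_mul, h0.self_of_nhds, evz_C] at h4
  rw [h3, _root_.zero_apply] at h2
  rw [map_neg, map_mul, ← h4]
  linear_combination (-evz t (ζ t) v) * h2

/-- the system extended by zero -/
def sysB {R : Type} [Zero R] (M : Matrix ν ν R) : Option ν → Option ν → R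
  | some i, some j => M i j
  | _, _ => 0

omit [NumberField K] [DecidableEq ν] in
theorem sys_g (ho : IsOpen V) (hP : FundS T q B V P) (ht : t ∈ V) (i j : Option ν) (l : σ) :
    ∃ L : (σ → ℂ) →L[ℂ] ℂ, HasFDerivAt (fun z => if i = none ∧ j = none then 1 else P z i j) L t ∧
      MvPolynomial.aeval t T * L (Pi.single l 1) = ∑ a, evz t (P t none none) (sysB (B l) i a) *
        if a = none ∧ j = none then 1 else P t a j := by
  obtain ⟨h1, h2, -, h4⟩ := hP t ht
  rcases i with _ | i <;> rcases j with _ | j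
  · exact ⟨0, by simpa using hasFDerivAt_const _ _, by simp [sysB]⟩
  · refine ⟨0, (hasFDerivAt_const (0 : ℂ) t).congr_of_eventuallyEq ?_, by simp [sysB]⟩
    filter_upwards [ho.mem_nhds ht] with x hx
    simpa using ((hP x hx).2.1 j).2
  · refine ⟨0, (hasFDerivAt_const (0 : ℂ) t).congr_of_eventuallyEq ?_, by
      simp [sysB, Fintype.sum_option, fun a => (h2 a).1]⟩
    filter_upwards [ho.mem_nhds ht] with x hx
    simpa using ((hP x hx).2.1 i).1
  · refine ⟨_, by simpa using (h1 (some i) (some j)).differentiableAt.hasFDerivAt, ?_⟩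
    simpa [sysB, Fintype.sum_option] using h4 l i j

omit [Fintype σ] [DecidableEq σ] [NumberField K] [Algebra K ℂ] in
theorem sys_sum {α : Type} [Fintype α] [DecidableEq α] (φ : (MvPolynomial σ K)[X] →+* ℂ)
    (i : α) (u y : (MvPolynomial σ K)[X]) (b : α → (MvPolynomial σ K)[X]) (g : α → ℂ) :
    ∑ x, φ ((if i = x then u else 0) + y * b x) * g x =
      φ u * g i + φ y * ∑ x, φ (b x) * g x := by
  simp only [map_add, map_mul, add_mul, Finset.sum_add_distrib, mul_assoc, ← Finset.mul_sum,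
    apply_ite φ, map_zero, ite_mul, zero_mul, Finset.sum_ite_eq, Finset.mem_univ, if_true]

omit [Fintype ν] [DecidableEq ν] in
theorem sys_col (M : Matrix (Option ν) (Option ν) ℂ) (a : Ix ν r) (j : Option ν) :
    col r M a j = M none none ^ (a.2 : ℕ) * if a.1 = none ∧ j = none then 1 else M a.1 j := rfl

theorem sys_ex (h : Cov T q r) (B : σ → Matrix ν ν (MvPolynomial σ K)[X]) :
    ∃ Bh : σ → Matrix (Ix ν r) (Ix ν r) (MvPolynomial σ K), Sys T q B Bh := by
  choose e he using sys_z h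
  refine ⟨fun l => of fun a b => (((if a.1 = b.1 then ((a.2 : ℕ) : (MvPolynomial σ K)[X]) *
    X ^ ((a.2 : ℕ) - 1) * e l else 0) + X ^ (a.2 : ℕ) * sysB (B l) a.1 b.1) %ₘ q).coeff b.2,
    fun V P ho hP t ht a j l => ?_⟩
  obtain ⟨L, h1, h2⟩ := sys_g ho hP ht a.1 j l
  have hZ := ((hP t ht).1 none none).differentiableAt.hasFDerivAt
  have h3 := he l t _ _ hZ (by
    filter_upwards [ho.mem_nhds ht] with x hx
    exact (hP x hx).2.2.1)
  have h4 := ((hZ.pow (a.2 : ℕ)).fun_mul h1).fderiv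
  have hz := (hP t ht).2.2.1
  have h5 : ∀ (p : (MvPolynomial σ K)[X]) (g : ℂ), ∑ b : Fin r,
      MvPolynomial.aeval t ((p %ₘ q).coeff b) * (P t none none ^ (b : ℕ) * g) =
        evz t (P t none none) p * g := fun p g => by
    rw [← h.mod hz, Finset.sum_mul]
    exact Finset.sum_congr rfl fun b _ => (mul_assoc _ _ _).symm
  have h6 : ∀ W : Option ν → (MvPolynomial σ K)[X], ∑ b : Ix ν r,
      MvPolynomial.aeval t ((W b.1 %ₘ q).coeff b.2) * col r (P t) b j =
        ∑ x, evz t (P t none none) (W x) * if x = none ∧ j = none then 1 else P t x j :=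
    fun W => by
      rw [Fintype.sum_prod_type]
      refine Finset.sum_congr rfl fun x _ => ?_
      rw [← h5]
      exact Finset.sum_congr rfl fun b _ => by rw [sys_col]
  have h7 := sys_sum (evz t (P t none none)) a.1 (((a.2 : ℕ) : (MvPolynomial σ K)[X]) *
    X ^ ((a.2 : ℕ) - 1) * e l) (X ^ (a.2 : ℕ)) (sysB (B l) a.1)
    fun x => if x = none ∧ j = none then 1 else P t x j
  refine Eq.trans ?_ ((h6 _).trans h7).symm
  simp only [sys_col]
  rw [← h2, h4]
  simp only [map_mul, map_pow, evz_X, map_natCast, ← h3,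
    _root_.add_apply, _root_.smul_apply, smul_eq_mul, nsmul_eq_mul]
  ring

end

end Pool.Agent.Lib.MP_5591bc_ag.Cv
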