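import Pool.Agent.Lib.MP_5591bc_ag.Cv.Down

/-! The direct image contains a variation of Hodge structure. -/

namespace Pool.Agent.Lib.MP_5591bc_ag.Cv

open Polynomial Set Filter Topology Matrix G M A B E Z Cu
open scoped Polynomial.Bivariate

noncomputable section

variable {σ K ν : Type} [Field K] [NumberField K] [Algebra K ℂ] [Fintype σ] [DecidableEq σ]
  [Fintype ν] [DecidableEq ν] {T : MvPolynomial σ K} {q : (MvPolynomial σ K)[X]} {r n m : ℕ}
  {B : σ → Matrix ν ν (MvPolynomial σ K)[X]} {U U' V V' : Set (σ → ℂ)}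
  {P P' : (σ → ℂ) → Matrix (Option ν) (Option ν) ℂ} {s t : σ → ℂ} {z : ℂ} {w : ν → ℕ}
  {J : Matrix ν ν ℝ}
  [NeZero r] [NeZero n] {B2 : σ → Matrix (Iy ν r n) (Iy ν r n) (MvPolynomial σ K)}
  {Ph Ph' : (σ → ℂ) → Matrix (Iy ν r n) (Iy ν r n) ℂ} {Z : Matrix (Iy ν r n) (Iy ν r n) ℂ}
  {M : Matrix (Option ν) (Option ν) ℂ}

omit [DecidableEq ν] in
theorem vhs_col {Z' : Matrix (Iy ν r n) (Iy ν r n) ℂ} {M' : Matrix (Option ν) (Option ν) ℂ}
    {γ : Matrix ν ν ℂ} (h : Shp Z M) (h' : Shp Z' M') (a0 : ∀ i, M none (some i) = 0)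
    (a0' : ∀ i, M' none (some i) = 0) (e : M' none none = M none none) (g : bl M' = bl M * γ) :
    Z'.submatrix id (ic ν r n) = Z.submatrix id (ic ν r n) * γ := by
  ext ⟨⟨i, a⟩, b⟩ j
  simp only [submatrix_apply, id, mul_apply, h _ (some _), h' _ (some _), col, of_apply, e,
    reduceCtorEq, and_false, if_false]
  split_ifs
  · rcases i with _ | i
    · simp [a0, a0']
    · have := congrFun₂ g i j
      simp only [submatrix_apply, mul_apply] at this
      simp only [this, Finset.mul_sum, mul_assoc]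
  · simp

theorem Up.vhs (h : Up T q B B2 U P V Ph) (hJ : PolS T U P J w) (w1 : ∀ i, w i ≤ 1)
    (hd : ∃ (N : ℕ) (p : MvPolynomial σ ℂ), ∀ t ∈ V,
      MvPolynomial.aeval t T ^ N * (Ph t).det = MvPolynomial.eval t p) :
    VHS T V Ph (c1 ν r n) (ic ν r n) J 1 w r := by
  have dn := fun {V' Ph'} (k : ContM V Ph V' Ph') => h.down k
  have fs := fun {V' Ph'} (k : ContM V Ph V' Ph') => h.fs.cont h.ho h.hc (dn k).1
  have mc : ∀ {V' Ph'}, ContM V Ph V' Ph' → ∀ x ∈ V',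
      Ph' x * c1 ν r n = z1 ν r n (bk q x (Ph' x) none none) :=
    fun k x hx => ((dn k).2 x hx).mul_c1 ((fs k).2.2 x hx).2.1
  refine ⟨?_, fun U' P' k t ht t0 => ?_, fun t W Q hQ => ?_, fun U₁ P₁ U₂ P₂ k₁ k₂ t t1 t2 e => ?_⟩
  · obtain ⟨N, p, hp⟩ := hd
    exact ⟨N, MvPolynomial.rename Sum.inl p, fun t ht => by
      rw [hp t ht, MvPolynomial.eval_rename]; rfl⟩
  · obtain ⟨hs, d0⟩ := hJ.hs _ _ (dn k).1 t ht t0
    rw [← ((dn k).2 t ht).sub] at hs d0
    refine ⟨hs, fun l i => ?_⟩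
    generalize (fun k => fderiv ℂ (fun z => P' z (ic ν r n i) (ic ν r n k)) t (Pi.single l 1)) = v
    generalize (P' t).submatrix (ic ν r n) (ic ν r n) = N at d0 ⊢
    have e : v = ∑ a, (v ᵥ* N⁻¹) a • N a := by
      rw [← vecMul_eq_sum, vecMul_vecMul, nonsing_inv_mul _ d0.isUnit, vecMul_one]
    rw [e]
    exact Submodule.sum_mem _ fun a _ => Submodule.smul_mem _ _
      (Submodule.subset_span ⟨a, by have := w1 i; omega, rfl⟩)
  · have nb := fun i => (fs (hQ i).1).1.mem_nhds (hQ i).2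
    obtain ⟨i, i', ne, e⟩ := h.cv.sheets (ξ := fun i x => bk q x (Q i x) none none)
      (fun i => ((fs (hQ i).1).2.2 t (hQ i).2).1 none none)
      fun i => mem_of_superset (nb i) fun x hx => ((fs (hQ i).1).2.2 x hx).2.2.1
    refine ⟨i, i', ne, ?_⟩
    filter_upwards [e, nb i, nb i'] with x e1 m m'
    rw [mc (hQ i).1 x m, mc (hQ i').1 x m', e1]
  · have n1 := (fs k₁).1.mem_nhds t1
    have n2 := (fs k₂).1.mem_nhds t2
    have ez : ∀ᶠ x in 𝓝 t, bk q x (P₂ x) none none = bk q x (P₁ x) none none := by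
      filter_upwards [e, n1, n2] with x e1 m1 m2
      rw [mc k₁ x m1, mc k₂ x m2] at e1
      exact z1_inj h.cv ((fs k₂).2.2 x m2).2.2.1 ((fs k₁).2.2 x m1).2.2.1 e1
    obtain ⟨γ, g1, g2⟩ := hJ.two _ _ _ _ (dn k₁).1 (dn k₂).1 t t1 t2 ez
    refine ⟨γ, g1, ?_⟩
    filter_upwards [ez, g2, n1, n2] with x e1 g m1 m2
    exact vhs_col ((dn k₁).2 x m1) ((dn k₂).2 x m2) (fun i => (((fs k₁).2.2 x m1).2.1 i).2)
      (fun i => (((fs k₂).2.2 x m2).2.1 i).2) e1 g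

end

end Pool.Agent.Lib.MP_5591bc_ag.Cv
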