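import Pool.Agent.Lib.MP_5591bc_ag.Cv.FinD
import Pool.Agent.Lib.MP_5591bc_ag.Cv.Sys
import Pool.Agent.Lib.MP_5591bc_ag.Cv.Gal2
import Pool.Agent.Lib.MP_5591bc_ag.Cv.DetQ
import Pool.Agent.Lib.MP_5591bc_ag.Cv.Proj
import Pool.Agent.Lib.MP_5591bc_ag.Cv.Vhs
import Pool.Agent.Lib.MP_5591bc_ag.Cv.Conn
import Pool.Agent.Lib.MP_5591bc_ag.Cv.MfW
import Pool.Agent.Lib.MP_5591bc_ag.Cv.Good
import Pool.Agent.Lib.MP_5591bc_ag.Cu.Fin

/-! The count of the exceptional points for families of curves over a finite cover. -/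

namespace Pool.Agent.Lib.MP_5591bc_ag.Cv

open Polynomial Set Filter Topology Matrix M N J B K Rg Cu
open scoped Polynomial.Bivariate

theorem fin_pr {C a r d e : ℕ} {L : ℝ} (hL : 1 / 2 ≤ L) (hd : 1 ≤ d)
    {x : ℝ} (h : x ≤ (C * ((a : ℝ) + r + 1) * d * L) ^ (C * e)) :
    x ≤ ((C * (r + 1) + 2 : ℕ) * ((a : ℝ) + 1) * d * L) ^ ((C * (r + 1) + 2) * e) := by
  have d1 : (1 : ℝ) ≤ d := by exact_mod_cast hd
  have a0 : (0 : ℝ) ≤ a := a.cast_nonneg
  have r0 : (0 : ℝ) ≤ r := r.cast_nonneg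
  have C0 : (0 : ℝ) ≤ C := C.cast_nonneg
  have p : (1 : ℝ) / 2 ≤ d * L := by nlinarith
  have p' : (1 : ℝ) / 2 ≤ (a + 1) * (d * L) := by nlinarith
  have p1 : C * ((a : ℝ) + r + 1) ≤ (C * (r + 1) + 2) * (a + 1) := by
    nlinarith [mul_nonneg C0 (mul_nonneg r0 a0)]
  rw [mul_assoc _ (d : ℝ)] at h ⊢
  push_cast
  refine h.trans ((pow_le_pow_left₀ (by positivity)
    (mul_le_mul_of_nonneg_right p1 (by positivity)) _).trans (pow_le_pow_right₀ ?_ ?_))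
  · rw [mul_assoc]
    nlinarith [mul_nonneg (mul_nonneg C0 (add_nonneg r0 zero_le_one)) (le_trans (by norm_num) p')]
  · exact Nat.mul_le_mul_right _ (by nlinarith)

theorem cntS {σ K ν : Type} [Fintype σ] [DecidableEq σ] [Field K] [NumberField K] [Algebra K ℂ]
    [Fintype ν] [DecidableEq ν] {m r : ℕ} {T : MvPolynomial σ K} {q : (MvPolynomial σ K)[X]}
    {B : σ → Matrix ν ν (MvPolynomial σ K)[X]} {f : (MvPolynomial σ K)[X][X][Y]}
    {d : (MvPolynomial σ K)[X][X]} {A : ν → (MvPolynomial σ K)[X][X][Y]} {w : ν → ℕ}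
    (h : Fam2 T q r B f d m A w) : ∃ C N : ℕ, ∀ (δ : ℕ) (U : Set (σ → ℂ))
      (P : (σ → ℂ) → Matrix (Option ν) (Option ν) ℂ), IsOpen U → IsPreconnected U →
      PerS T q B f d m A w U P → (ConnRM U P fun t => P t * single none none 1) →
      ∀ (D : ℕ) (H : ℝ), 2 ≤ H → ∀ S : Finset ((σ → ℂ) × ℂ),
        (∀ s ∈ S, MvPolynomial.aeval s.1 T ≠ 0 ∧
          (∀ l, ∃ p : ℤ[X], p ≠ 0 ∧ (∀ i, |(p.coeff i : ℝ)| ≤ H) ∧ aeval (s.1 l) p = 0) ∧
          ∃ U' P', ContM U P U' P' ∧ s.1 ∈ U' ∧ P' s.1 none none = s.2 ∧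
            (Fintype.card σ = 1 ∨ HGen 1 w (fun t => (P' t).submatrix some some) s.1 ∧
              ∀ s' ∈ S, WS T U P (single none none 1) some 1 w P' s.1
                (s'.1, single none none s'.2) → s' = s) ∧
            ∃ (E : IntermediateField K ℂ) (x : σ → E) (z : E), (∀ l, (x l : ℂ) = s.1 l) ∧
              (z : ℂ) = s.2 ∧ FiniteDimensional ℚ E ∧ Module.finrank ℚ E ≤ D ∧
              ¬ GoodRM U' P' (single none none 1) (1 - single none none 1) δ x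
                (single none none z)) →
        (S.card : ℝ) ≤ (C * (δ + 1) * D * Real.log H) ^ (C * (δ + 1) ^ N) := by
  classical
  have emp : ∀ (C δ D e : ℕ) (H : ℝ), 2 ≤ H → (((∅ : Finset ((σ → ℂ) × ℂ)).card : ℕ) : ℝ) ≤
      (C * (δ + 1) * D * Real.log H) ^ e := fun C δ D e H H2 => by
    have := Real.log_nonneg (one_le_two.trans H2)
    rw [Finset.card_empty, Nat.cast_zero]
    positivity
  have rt : ∀ {U P U' P'}, IsOpen U → IsPreconnected U → PerS T q B f d m A w U P →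
      ContM U P U' P' → ∀ t ∈ U', evz t (P' t none none) q = 0 :=
    fun ho hU hP k t ht => ((hP.1.cont ho hU k).2.2 t ht).2.2.1
  rcases Nat.eq_zero_or_pos r with rfl | r0
  · refine ⟨0, 0, fun δ U P ho hU hP _ D H H2 S hS => ?_⟩
    rcases S.eq_empty_or_nonempty with rfl | ⟨s, hs⟩
    · exact emp _ _ _ _ _ H2
    obtain ⟨-, -, U', P', k, hx, -⟩ := hS s hs
    have := rt ho hU hP k _ hx
    rw [h.cv.mq.natDegree_eq_zero.1 h.cv.dq, map_one] at this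
    exact absurd this one_ne_zero
  obtain ⟨Bh, hB⟩ := sys_ex h.cv B
  obtain ⟨n, n0, hd⟩ := h.det hB
  have : NeZero r := ⟨r0.ne'⟩
  have : NeZero n := ⟨n0.ne'⟩
  obtain ⟨C, hC⟩ := cntD h.cv.T0 (h.gal hB n)
  refine ⟨C * (r + 1) + 2, Fintype.card σ * Fintype.card (Iy ν r n × Iy ν r n),
    fun δ U P ho hU hP hc D H H2 S hS => ?_⟩
  rcases S.eq_empty_or_nonempty with rfl | ⟨s₀, m₀⟩
  · exact emp _ _ _ _ _ H2
  have hne : U.Nonempty := by
    obtain ⟨-, -, _, _, k, hs, -⟩ := hS s₀ m₀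
    exact cont_ne k ⟨_, hs⟩
  obtain ⟨J, hJ, -⟩ := h.pol ho hU hne hP
  obtain ⟨t, ht, t0⟩ := blk_pt h.cv.T0 ho hne
  obtain ⟨V, R, v1, v2, rfl⟩ := h.all0 hP (ho.mem_nhds ht) t0
  have u := v2.up (n := n) h.cv hB ho hU hP.1 v1
  have hD := hd V _ v2.op v2.co (v2.fund hB)
  have rs : ∀ s ∈ S, evz s.1 s.2 q = 0 := fun s hs => by
    obtain ⟨-, -, U', P', k, hx, e, -⟩ := hS s hs
    exact e ▸ rt ho hU hP k _ hx
  have := hC δ r 1 ν (ic ν r n) w J V _ (c1 ν r n) ic_inj v2.op v2.co u.fm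
    (u.conn hJ (v2.proj h.cv) hD hc) (v2.proj h.cv) (u.vhs hJ h.w1 hD) D H H2
    (S.image fun s => (s.1, z1 ν r n s.2)) fun _ hs' => by
      obtain ⟨s, hs, rfl⟩ := Finset.mem_image.1 hs'
      obtain ⟨e, b, U', P', k, hx, hz, hG, E, x, z, x1, x2, x3, x4, x5⟩ := hS s hs
      obtain ⟨V', Ph', m', k', u'⟩ := u.lift k hx e
      refine ⟨e, b, V', Ph', k', m', by
        rw [(u'.sh _ m').mul_c1 (u'.fs _ hx).2.1, hz], hG.imp id fun hG => ⟨?_, fun _ m'' g => ?_⟩,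
        E, x, z1 ν r n z, x1, fun i j => ?_, x3, x4,
        fun g => x5 (u'.good (by rwa [show pc x = s.1 from funext x1]) g)⟩
      · filter_upwards [hG.1, u'.op.mem_nhds m'] with y h1 h2
        rwa [(u'.sh _ h2).sub, (u'.sh _ m').sub]
      · obtain ⟨s', m3, rfl⟩ := Finset.mem_image.1 m''
        rw [hG.2 s' m3 (u.ws u' m' (rs s' m3) g)]
      · exact (congrFun₂ (z1_map (ν := ν) (r := r) (n := n) (algebraMap E ℂ) z) i j).trans
          (by rw [← x2]; rfl)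
  rw [Finset.card_image_of_injOn fun s hs s' hs' e => by
    have e1 := (Prod.mk.inj e).1
    exact Prod.ext e1 (z1_inj h.cv (rs s hs) (e1 ▸ rs s' hs') (Prod.mk.inj e).2)] at this
  refine fin_pr (le_trans (by linarith [Real.log_two_gt_d9]) (Real.log_le_log two_pos H2)) ?_ this
  obtain ⟨-, -, -, -, -, -, -, -, E, -, -, -, -, _, hd, -⟩ := hS s₀ m₀
  exact le_trans Module.finrank_pos hd

theorem fam2_of {σ K : Type} [Fintype σ] [DecidableEq σ] [Field K] [Algebra K ℂ] {g m : ℕ}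
    {T : MvPolynomial σ K} (hT : T ≠ 0) {q : (MvPolynomial σ K)[X]} (hq : q.Monic)
    (he : C T ∈ Ideal.span {q, derivative q})
    {B : σ → Matrix (Fin (2 * g)) (Fin (2 * g)) (MvPolynomial σ K)[X]}
    {f : (MvPolynomial σ K)[X][X][Y]} (hf : f.Monic) {d : (MvPolynomial σ K)[X][X]} (hd : d.Monic)
    {A : Fin (2 * g) → (MvPolynomial σ K)[X][X][Y]} {w : Fin (2 * g) → ℕ}
    (hw : ∀ i, w i = if (i : ℕ) < g then 1 else 0)
    (h : ∀ t z, MvPolynomial.aeval t T ≠ 0 → evz t z q = 0 →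
      ∃ V ∈ 𝓝 t, ∃ P, P t none none = z ∧ PerS T q B f d m A w V P) :
    Fam2 T q q.natDegree B f d m A w := by
  refine ⟨⟨hT, hq, rfl, he⟩, hf, hd, fun i => by rw [hw]; split_ifs <;> simp, ?_, h⟩
  simp only [hw, Fintype.card_fin]
  rw [Fin.sum_univ_eq_sum_range (fun i => if i < g then 1 else 0), ← Finset.card_filter]
  congr 1
  convert Finset.card_range g
  ext i
  simp only [Finset.mem_filter, Finset.mem_range]
  omega

end Pool.Agent.Lib.MP_5591bc_ag.Cv
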