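import Pool.Agent.Lib.MP_5591bc_ag.Cv.One
import Pool.Agent.Lib.MP_5591bc_ag.Z.Fund

/-! In a base of dimension one every point is alone. -/

namespace Pool.Agent.Lib.MP_5591bc_ag.Cv

open Matrix Filter Topology G R W M N E Z J K

noncomputable section

variable {σ K ν : Type} [Fintype σ] [DecidableEq σ] [Field K] [Algebra K ℂ] [Fintype ν]
  [DecidableEq ν] {T : MvPolynomial σ K} {B : σ → Matrix ν ν (MvPolynomial σ K)}
  {U : Set (σ → ℂ)} {P : (σ → ℂ) → Matrix ν ν ℂ} {C1 C0 : Matrix ν ν ℂ} {s : σ → ℂ}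

omit [DecidableEq σ] [Fintype ν] [DecidableEq ν] in
lemma lon_loc {V : Set (σ → ℂ)} {Q : (σ → ℂ) → Matrix ν ν ℂ} {M : Matrix ν ν ℂ}
    (hc : IsPreconnected V) (ha : ∀ i j, AnalyticOnNhd ℂ (fun t => Q t i j) V) (hs : s ∈ V)
    (e : ∀ᶠ t in 𝓝 s, Q t = M) : ∀ t ∈ V, Q t = M := fun t ht => by
  ext i j
  exact (ha i j).eqOn_of_preconnected_of_eventuallyEq (g := fun _ => M i j) analyticOnNhd_const hc
    hs (e.mono fun z hz => congrFun₂ hz i j) ht

/-- one branch is constant if and only if the first one is -/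
lemma lon_cont (ho : IsOpen U) (hU : IsPreconnected U)
    (ha : ∀ i j, AnalyticOnNhd ℂ (fun t => P t i j) U) (M : Matrix ν ν ℂ) {V : Set (σ → ℂ)}
    {Q : (σ → ℂ) → Matrix ν ν ℂ} (k : ContM U P V Q) :
    (∀ t ∈ U, P t = M) ↔ ∀ t ∈ V, Q t = M := by
  induction k with
  | base => rfl
  | step V V' Q Q' x k o c a s1 s2 e ih =>
    obtain ⟨o1, c1, a1⟩ := cont_dom ho hU ha k
    refine ih.trans ⟨fun h => lon_loc c a s2 ?_, fun h => lon_loc c1 a1 s1 ?_⟩
    · filter_upwards [e, o1.mem_nhds s1] with t h1 h2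
      rw [← h1, h t h2]
    · filter_upwards [e, o.mem_nhds s2] with t h1 h2
      rw [h1, h t h2]

omit [DecidableEq σ] in
/-- isolated zeros in dimension one -/
lemma lon_iso (h1 : Fintype.card σ = 1) {g : (σ → ℂ) → ℂ} (hg : AnalyticAt ℂ g s)
    (h : ∃ᶠ t in 𝓝[≠] s, g t = 0) : ∀ᶠ t in 𝓝 s, g t = 0 := by
  obtain ⟨l, hl⟩ := Fintype.card_eq_one_iff.1 h1
  have e : ∀ t : σ → ℂ, (fun _ => t l) = t := fun t => funext fun m => by rw [hl m]
  have a : AnalyticAt ℂ (fun u : ℂ => g fun _ => u) (s l) :=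
    hg.comp_of_eq (analyticAt_pi_iff.2 fun _ => analyticAt_id) (e s)
  have c : Tendsto (fun t : σ → ℂ => t l) (𝓝 s) (𝓝 (s l)) := (continuous_apply l).tendsto s
  have c' : Tendsto (fun t : σ → ℂ => t l) (𝓝[≠] s) (𝓝[≠] (s l)) :=
    tendsto_nhdsWithin_iff.2 ⟨c.mono_left nhdsWithin_le_nhds,
      eventually_nhdsWithin_of_forall fun t ht q => ht (by
        rw [Set.mem_singleton_iff, ← e t, ← e s, Set.mem_singleton_iff.1 q])⟩
  have := a.frequently_zero_iff_eventually_zero.1 (c'.frequently (h.mono fun t ht => by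
    rwa [e t]))
  exact (c.eventually this).mono fun t ht => by rwa [e t] at ht

omit [DecidableEq σ] in
lemma lon_cst {Q : (σ → ℂ) → Matrix ν ν ℂ} (e : ∀ᶠ t in 𝓝 s, Q t = Q s) {y : ℂ → σ → ℂ}
    (hy : y 0 = s) : FullA Q C1 C0 s y := by
  intro H hH
  have key : ∀ (t : σ → ℂ) (W : ν × ν → ℂ) (Z : Matrix ν ν ℂ),
      MvPolynomial.eval (Sum.elim t (Sum.elim W fun a => Z a.1 a.2))
        (MvPolynomial.aeval (Sum.elim (fun o : Option σ => MvPolynomial.C (o.elim 0 s))
          fun o => MvPolynomial.rename (fun a => Sum.inr (Sum.inr a)) (djP C0 1 o)) H) =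
      MvPolynomial.eval (Sum.elim (fun o => o.elim 0 s) (dj C0 Z)) H := fun t W Z => by
    have e1 : ∀ o, MvPolynomial.eval (fun a => Z a.1 a.2) (djP C0 1 o) = dj C0 Z o := fun o => by
      have := djP_ev C0 1 (RingHom.id ℂ) Z o
      simp only [RingHom.coe_id, Matrix.map_id, Matrix.mul_one] at this
      exact this
    clear hH
    induction H using MvPolynomial.induction_on with
    | C c => simp
    | add p q hp hq => simp only [map_add, hp, hq]
    | mul_X p o hp =>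
      rcases o with o | o
      · simp only [map_mul, hp, MvPolynomial.aeval_X, MvPolynomial.eval_X, Sum.elim_inl,
          MvPolynomial.eval_C]
      · simp only [map_mul, hp, MvPolynomial.aeval_X, MvPolynomial.eval_X, Sum.elim_inr,
          MvPolynomial.eval_rename, ← e1]
        rfl
  refine ⟨_, e.mono fun t ht => ?_, fun Z => key _ _ Z⟩
  have := hH.self_of_nhds
  rw [hy] at this
  rw [key, ht, this]


theorem lone_one (h1 : Fintype.card σ = 1) (T0 : T ≠ 0) (ho : IsOpen U) (hU : IsPreconnected U)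
    (hP : FundM T B U P) (hC : ConnD T U P C1 C0) {V : Set (σ → ℂ)}
    {Q : (σ → ℂ) → Matrix ν ν ℂ} (k : ContM U P V Q) (hs : s ∈ V)
    (hT : MvPolynomial.aeval s T ≠ 0) (S : Set ((σ → ℂ) × Matrix ν ν ℂ)) :
    Lone T U P C1 C0 S Q s := by
  have ha : ∀ i j, AnalyticOnNhd ℂ (fun t => P t i j) U := fun i j t ht => ((hP t ht).2 i j).1
  by_cases e : ∀ᶠ t in 𝓝 s, Q t = Q s
  · exact ⟨∅, Set.countable_empty, fun _ h => h.elim, fun y hy => .inl (lon_cst e hy.2.1),
      fun _ h => h.elim⟩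
  obtain ⟨o1, c1, a1⟩ := cont_dom ho hU ha k
  refine ⟨{Set.range fun a : ν × ν => fun Y => Y a.1 a.2 - Q s a.1 a.2}, Set.countable_singleton _,
    ?_, fun y hy => ?_, ?_⟩
  · rintro _ rfl _ ⟨a, rfl⟩ V' W k' t ht -
    exact (((cont_dom ho hU ha k').2.2 a.1 a.2 t ht).restrictScalars (𝕜 := ℝ)).sub analyticAt_const
  · by_cases hn : ∀ᶠ u in 𝓝 (0 : ℂ), y u = s
    · refine .inr ⟨_, rfl, ?_⟩
      rintro _ ⟨a, rfl⟩
      exact hn.mono fun u hu => by rw [hu]; exact sub_self _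
    · obtain ⟨V', o2, c2, s2, sub, f2⟩ := cont_fund T0 ho hU hP k hs hT
      exact .inl (full_one h1 o2 f2 (hC.cont (.step _ _ _ _ s k o2 c2
        (fun i j => (a1 i j).mono sub) hs s2 (.of_forall fun _ => rfl))) s2 hT hy hn)
  · rintro _ rfl c Y hp c0 - hR -
    have hY : ∀ τ ∈ Set.Icc (0 : ℝ) 1, Y τ = Q s := fun τ hτ => by
      ext i j
      exact sub_eq_zero.1 (hR τ hτ _ ⟨(i, j), rfl⟩)
    have loc : ∀ τ ∈ Set.Icc (0 : ℝ) 1, ∀ᶠ τ' in 𝓝[Set.Icc 0 1] τ, c τ' = c τ := fun τ hτ => by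
      by_contra hn
      obtain ⟨-, V', Q', k', m, ev⟩ := hp.2 τ hτ
      obtain ⟨o2, c2, a2⟩ := cont_dom ho hU ha k'
      have fr : ∃ᶠ t in 𝓝[≠] (c τ), Q' t = Q s := by
        rw [frequently_nhdsWithin_iff]
        refine Tendsto.frequently (hp.1 τ hτ) ?_
        refine ((not_eventually.1 hn).and_eventually (ev.and self_mem_nhdsWithin)).mono ?_
        rintro τ' ⟨q1, q2, q3⟩
        exact ⟨by rw [← q2, hY τ' q3], q1⟩
      have ev' : ∀ᶠ t in 𝓝 (c τ), Q' t = Q s := by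
        have : ∀ i j, ∀ᶠ t in 𝓝 (c τ), Q' t i j - Q s i j = 0 := fun i j =>
          lon_iso h1 ((a2 i j _ m).sub analyticAt_const)
            (fr.mono fun t ht => by rw [ht, sub_self])
        filter_upwards [eventually_all.2 fun i => eventually_all.2 (this i)] with t ht
        ext i j
        exact sub_eq_zero.1 (ht i j)
      have := (lon_cont ho hU ha _ k).1 ((lon_cont ho hU ha _ k').2 (lon_loc c2 a2 m ev'))
      exact e (Filter.mem_of_superset (o1.mem_nhds hs) this)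
    have : PreconnectedSpace (Set.Icc (0 : ℝ) 1) := Subtype.preconnectedSpace isPreconnected_Icc
    have lc : IsLocallyConstant fun τ : Set.Icc (0 : ℝ) 1 => c τ :=
      (IsLocallyConstant.iff_eventually_eq _).2 fun τ => by
        have := loc τ τ.2
        rwa [nhdsWithin_eq_map_subtype_coe τ.2, eventually_map] at this
    exact (lc.apply_eq_of_preconnectedSpace ⟨1, by simp⟩ ⟨0, by simp⟩).trans c0

end

end Pool.Agent.Lib.MP_5591bc_ag.Cv
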