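import Pool.Agent.Lib.MP_5591bc_ag.Cv.Fix
import Pool.Agent.Lib.MP_5591bc_ag.Rg.Main

/-! The monodromy group lies in the generic Mumford-Tate group (edited copy from `Rg.Main`). -/

namespace Pool.Agent.Lib.MP_5591bc_ag.Cv

open Matrix Filter Topology Metric G R W M A B N E Z Rg

noncomputable section

variable {σ K ν μ : Type} [Fintype σ] [DecidableEq σ] [Field K] [NumberField K] [Algebra K ℂ]
  [Fintype ν] [DecidableEq ν] [Fintype μ] [DecidableEq μ] {T : MvPolynomial σ K}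
  {B : σ → Matrix ν ν (MvPolynomial σ K)} {U V : Set (σ → ℂ)} {P Q : (σ → ℂ) → Matrix ν ν ℂ}
  {C1 : Matrix ν ν ℂ} {c : μ → ν} {s : σ → ℂ} {J : Matrix μ μ ℝ} {j r : ℕ} {w : μ → ℕ}

theorem main_fixD (hg : GalM T B) (hc : Function.Injective c) (h : VHS T U P C1 c J j w r)
    (k : ContM U P V Q) (oV : IsOpen V) (cV : IsPreconnected V) (hQ : FundM T B V Q)
    (hC : ConnD T V Q C1 (pr c)) (hs : s ∈ V)
    (hT : MvPolynomial.aeval s T ≠ 0) {r' δ : ℕ} {e : (Fin r' → Mo δ μ) → ℚ}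
    (he : ∀ᶠ t in 𝓝 s, ∃ x : ℂ, (rW r' δ (cx (hH J j w (-Complex.I) ((Q t).submatrix c c))) *ᵥ
      fun a => (e a : ℂ)) = x • fun a => (e a : ℂ)) {g : Matrix μ μ ℂ} (m : g ∈ Mf Q C1 c s) :
    (rW r' δ g *ᵥ fun a => (e a : ℂ)) = fun a => (e a : ℂ) := by
  refine main_canc (hs_det (h.2.1 _ _ k _ hs hT).1) (funext fun a => ?_)
  obtain ⟨F, hF⟩ := main_pol r' δ e a
  have eF : ∀ Y : Matrix ν ν ℂ, MvPolynomial.eval (fun a => Y a.1 a.2)
      (MvPolynomial.rename (Prod.map c c) F) =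
      MvPolynomial.eval (fun a => Y.submatrix c c a.1 a.2) F := fun Y => by
    rw [MvPolynomial.eval_rename]
    rfl
  have an : AnalyticAt ℂ (fun t => MvPolynomial.eval (fun a => Q t a.1 a.2)
      (MvPolynomial.rename (Prod.map c c) F)) s :=
    AnalyticAt.aeval_mvPolynomial (f := fun t (a : ν × ν) => Q t a.1 a.2)
      (fun a => ((hQ s hs).2 a.1 a.2).1) _
  obtain ⟨n, p, p0, hp⟩ := algK an
    (line_alg hg hc h k oV cV hQ hs hT he fun Y => (eF Y).trans (hF _))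
  rw [← hF, ← hF]
  simp only [eF] at hp
  exact mf_fixD oV hc hQ hC hs hT F p0 hp g m

theorem mf_subD (hg : GalM T B) (T0 : T ≠ 0) (ho : IsOpen U) (hU : IsPreconnected U)
    (hP : FundM T B U P) (hC : ConnD T U P C1 (pr c)) (hc : Function.Injective c)
    (h : VHS T U P C1 c J j w r) (k : ContM U P V Q) (hs : s ∈ V)
    (hT : MvPolynomial.aeval s T ≠ 0) (hG : HGen j w (fun t => (Q t).submatrix c c) s) :
    Mf Q C1 c s ⊆ MTH j w ((Q s).submatrix c c) := by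
  obtain ⟨V', v1, v2, v3, -, v5⟩ := cont_fund T0 ho hU hP k hs hT
  have k' : ContM U P V' Q := .step _ _ _ _ _ k v1 v2 (fun i j t ht => ((v5 t ht).2 i j).1) hs v3
    (.of_forall fun _ => rfl)
  intro g m G hG'
  refine chq_mem hG'.1 m.1 fun r' δ e he => main_fixD hg hc h k' v1 v2 v5
    (hC.cont k') v3 hT ?_ m
  filter_upwards [hG, v1.mem_nhds v3, (aeval_ana T).continuousAt.eventually_ne hT]
    with t h1 h2 h3
  have h4 := h1 (main_mem (h.2.1 _ _ k' t h2 h3).1 (neg_ne_zero.2 Complex.I_ne_zero))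
  exact he _ (Set.mem_sInter.1 h4 G hG')

end

end Pool.Agent.Lib.MP_5591bc_ag.Cv
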