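import Pool.Agent.Lib.MP_5591bc_ag.Cv.Glue
import Pool.Agent.Lib.MP_5591bc_ag.Cv.Cnt
import Pool.Agent.Lib.MP_5591bc_ag.Cv.Sub
import Pool.Agent.Lib.MP_5591bc_ag.Cv.Lone

/-! The count of the exceptional points, one connected block. -/

namespace Pool.Agent.Lib.MP_5591bc_ag.Cv

open Matrix Filter Topology G R W M N E Z J B K Rg

noncomputable section

theorem fin_numD {C a r d e N n : ℕ} {L : ℝ} (hL : 1 / 2 ≤ L) (hd : 1 ≤ d) (he : 1 ≤ e)
    (h1 : N ≤ r * n) (h2 : (n : ℝ) ≤ (C * ((a : ℝ) + r + 1) * d * L) ^ (C * e)) :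
    (N : ℝ) ≤ ((C + 2 : ℕ) * ((a : ℝ) + r + 1) * d * L) ^ ((C + 2) * e) := by
  have d1 : (1 : ℝ) ≤ d := by exact_mod_cast hd
  have p : (1 : ℝ) / 2 ≤ d * L := by nlinarith
  have a0 : (0 : ℝ) ≤ a := a.cast_nonneg
  have r0 : (0 : ℝ) ≤ r := r.cast_nonneg
  have C0 : (0 : ℝ) ≤ C := C.cast_nonneg
  have q : ((a : ℝ) + r + 1) / 2 ≤ (a + r + 1) * (d * L) := by nlinarith
  rw [mul_assoc, mul_assoc] at h2 ⊢
  generalize ((a : ℝ) + r + 1) * (d * L) = u at *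
  push_cast
  have u1 : (a : ℝ) + r + 1 ≤ (C + 2) * u := by nlinarith
  have u2 : (C * u) ^ (C * e) ≤ ((C + 2) * u) ^ (C * e) :=
    pow_le_pow_left₀ (by nlinarith) (by nlinarith) _
  calc (N : ℝ) ≤ r * n := by exact_mod_cast h1
    _ ≤ ((C + 2) * u) * ((C + 2) * u) ^ (C * e) :=
      mul_le_mul (by linarith) (h2.trans u2) n.cast_nonneg (by linarith)
    _ ≤ _ := by
      rw [← pow_succ']
      exact pow_le_pow_right₀ (by linarith) (by nlinarith)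

theorem cntD {σ K ν : Type} [Fintype σ] [DecidableEq σ] [Field K] [NumberField K] [Algebra K ℂ]
    [Fintype ν] [DecidableEq ν] {T : MvPolynomial σ K} {B : σ → Matrix ν ν (MvPolynomial σ K)}
    (T0 : T ≠ 0) (h : GalM T B) : ∃ C : ℕ, ∀ (δ r j : ℕ) (μ : Type) [Fintype μ] [DecidableEq μ]
      (c : μ → ν) (w : μ → ℕ) (J : Matrix μ μ ℝ) (U : Set (σ → ℂ)) (P : (σ → ℂ) → Matrix ν ν ℂ)
      (C1 : Matrix ν ν ℂ), Function.Injective c →
      IsOpen U → IsPreconnected U → FundM T B U P → ConnD T U P C1 (pr c) →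
      Proj T U P C1 (pr c) → VHS T U P C1 c J j w r →
      ∀ (d : ℕ) (H : ℝ), 2 ≤ H → ∀ S : Finset ((σ → ℂ) × Matrix ν ν ℂ),
        (∀ s ∈ S, MvPolynomial.aeval s.1 T ≠ 0 ∧
          (∀ j, ∃ q : Polynomial ℤ, q ≠ 0 ∧ (∀ i, |(q.coeff i : ℝ)| ≤ H) ∧
            Polynomial.aeval (s.1 j) q = 0) ∧
          ∃ U' P', ContM U P U' P' ∧ s.1 ∈ U' ∧ P' s.1 * C1 = s.2 ∧
            (Fintype.card σ = 1 ∨ HGen j w (fun t => (P' t).submatrix c c) s.1 ∧
              ∀ s' ∈ S, WS T U P C1 c j w P' s.1 s' → s' = s) ∧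
            ∃ (E : IntermediateField K ℂ) (x : σ → E) (z : Matrix ν ν E),
              (∀ j, (x j : ℂ) = s.1 j) ∧ (∀ i j, (z i j : ℂ) = s.2 i j) ∧
              FiniteDimensional ℚ E ∧ Module.finrank ℚ E ≤ d ∧ ¬ GoodRM U' P' C1 (pr c) δ x z) →
        (S.card : ℝ) ≤ (C * (δ + r + 1) * d * Real.log H) ^
          (C * (δ + 1) ^ (Fintype.card σ * Fintype.card (ν × ν))) := by
  classical
  obtain ⟨C, hC⟩ := cntD0 T0 h
  refine ⟨C + 2, fun δ r j μ _ _ c w J U P C1 hc ho hU hP h1 h2 h3 d H H2 S hS => ?_⟩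
  rcases S.eq_empty_or_nonempty with rfl | ⟨s₀, m₀⟩
  · have := Real.log_nonneg (one_le_two.trans H2)
    rw [Finset.card_empty, Nat.cast_zero]
    positivity
  refine fin_numD ?_ ?_ (Nat.one_le_pow _ _ δ.succ_pos)
    (Finset.card_le_mul_card_image (f := Prod.fst) S r fun t _ => ?_)
    (hC δ r U P C1 _ ho hU hP h1 h2 (vhs_finMon T0 ho hU hP hc h3) d H H2 S _ fun t ht => ?_)
  · exact le_trans (by linarith [Real.log_two_gt_d9]) (Real.log_le_log two_pos H2)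
  · obtain ⟨-, -, -, -, -, -, -, -, E, -, -, -, -, _, hd, -⟩ := hS s₀ m₀
    exact le_trans Module.finrank_pos hd
  · by_contra hn
    obtain ⟨S', s1, s2⟩ := Finset.exists_subset_card_eq (Nat.succ_le_of_lt (not_le.1 hn))
    let f := (Finset.equivFinOfCardEq s2).symm
    have m := fun i => Finset.mem_filter.1 (s1 (f i).2)
    choose V Q k1 k2 k3 k4 using fun i => (hS _ (m i).1).2.2
    obtain ⟨i, i', ne, e⟩ := h3.2.2.1 t V Q fun i => ⟨k1 i, (m i).2 ▸ k2 i⟩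
    refine ne (f.injective (Subtype.ext (Prod.ext ((m i).2.trans (m i').2.symm) ?_)))
    rw [← k3, ← k3, (m i).2, (m i').2, e.self_of_nhds]
  · obtain ⟨s, hs, rfl⟩ := Finset.mem_image.1 ht
    obtain ⟨e, b, U', P', k, hx, hz, hM, hb⟩ := hS s hs
    exact ⟨e, b, U', P', k, hx, ⟨hz ▸ hs, hM.elim (fun h0 => lone_one h0 T0 ho hU hP h1 k hx e _)
      fun hM => lone_ofD T0 ho hU hP h1 hc h2 h3 k hx e (mf_subD h T0 ho hU hP h1 hc h3 k hx e hM.1)
        fun s' m q => congrArg Prod.fst (hM.2 s' m q)⟩, hz ▸ hb⟩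

end

end Pool.Agent.Lib.MP_5591bc_ag.Cv
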