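import Pool.Agent.Lib.MP_5591bc_ag.Cv.SetW
import Pool.Agent.Lib.MP_5591bc_ag.Rg.Den
import Pool.Agent.Lib.MP_5591bc_ag.B.Blk

/-! Algebraic functions of the periods are fixed by the monodromy group. -/

namespace Pool.Agent.Lib.MP_5591bc_ag.Cv

open Matrix Filter Topology Metric G R W M A B N Rg

noncomputable section

variable {σ K ν μ : Type} [Fintype σ] [DecidableEq σ] [Field K] [Algebra K ℂ] [Fintype ν]
  [DecidableEq ν] [Fintype μ] [DecidableEq μ] {c : μ → ν} {T : MvPolynomial σ K}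
  {B : σ → Matrix ν ν (MvPolynomial σ K)}
  {U : Set (σ → ℂ)} {P : (σ → ℂ) → Matrix ν ν ℂ} {C1 C0 : Matrix ν ν ℂ} {s : σ → ℂ}

omit [DecidableEq μ] in
theorem fix_pr (hc : Function.Injective c) (Y : Matrix ν ν ℂ) (i : ν) (k : μ) :
    (Y * pr c) i (c k) = Y i (c k) := by
  classical
  rw [B.pr, ← Matrix.mul_assoc, mul_bm]
  simp [bm, mul_apply, one_apply, hc.eq_iff]

/-- edited copy of `mf_fix` -/
theorem mf_fixD (ho : IsOpen U) (hc : Function.Injective c) (hP : FundM T B U P)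
    (hC : ConnD T U P C1 (pr c)) (hs : s ∈ U) (hT : MvPolynomial.aeval s T ≠ 0)
    (F : MvPolynomial (μ × μ) ℂ) {n : ℕ} {p : ℕ → MvPolynomial σ ℂ} (hp : ∃ j ≤ n, p j ≠ 0)
    (h : ∀ᶠ t in 𝓝 s, ∑ j ∈ Finset.range (n + 1), MvPolynomial.eval t (p j) *
      MvPolynomial.eval (fun a => (P t).submatrix c c a.1 a.2) F ^ j = 0) :
    ∀ g ∈ Mf P C1 c s, MvPolynomial.eval (fun a => ((P s).submatrix c c * g) a.1 a.2) F =
      MvPolynomial.eval (fun a => (P s).submatrix c c a.1 a.2) F := by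
  classical
  have a := fun t ht i j => ((hP t ht).2 i j).1
  have hD := DN_SN (uuN_ode ho hP C1 hs)
  obtain ⟨𝒜, hN, m1, m2, -⟩ := hC U P .base s hs hT
  have hS : (SN fun a => tayM (uuN P C1 · a) s).FG :=
    Subalgebra.fg_def.2 ⟨_, (Set.finite_range _).union (Set.finite_range _), rfl⟩
  have hG : ∀ q, DenG (SN fun a => tayM (uuN P C1 · a) s) (τm s (TM ℂ T))
      (evGM s (tayX P s) q) := fun q => by
    induction q using MvPolynomial.induction_on with
    | C p =>
      refine den_span hD (Set.finite_singleton 1) (fun l x hx => by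
        rw [hx, Derivation.map_one_eq_zero, mul_zero]; exact zero_mem _) ?_
      exact Submodule.mem_span_singleton.2 ⟨⟨_, τm_mem_SN s _ p⟩, by
        simp [evGM, Subalgebra.smul_def]⟩
    | add p q hp hq => exact map_add (evGM s (tayX P s)) p q ▸ hp.add hq
    | mul_X p x hp =>
      rw [map_mul]
      refine hp.mul (den_span hD (Set.finite_range fun x : ν × ν => tayX P s x.1 x.2) ?_
        (Submodule.subset_span ⟨x, by simp [evGM]⟩))
      rintro l _ ⟨y, rfl⟩
      have e : τm s (TM ℂ T) * MvPowerSeries.pderiv ℂ l (tayX P s y.1 y.2) =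
          ∑ k, τm s (BM ℂ B l y.1 k) * tayX P s k y.2 := congrFun₂ (irr_ode ho hP hs l) y.1 y.2
      rw [e]
      exact sum_mem fun k _ => Submodule.smul_mem _ (⟨_, τm_mem_SN s _ _⟩ : SN _)
        (Submodule.subset_span ⟨(k, y.2), rfl⟩)
  obtain ⟨F', hF, mF⟩ : ∃ F' : MvPolynomial (ν × ν) (MvPolynomial σ ℂ), (∀ t, valM P F' t =
      MvPolynomial.eval (fun a => (P t).submatrix c c a.1 a.2) F) ∧ evGM s (tayX P s) F' ∈ 𝒜 := by
    refine ⟨MvPolynomial.map MvPolynomial.C (MvPolynomial.rename (fun a => (c a.1, c a.2)) F),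
      fun t => ?_, ?_⟩
    · rw [valM, MvPolynomial.eval₂_map, MvPolynomial.eval₂_rename]
      exact congrArg (fun φ => MvPolynomial.eval₂ φ _ F) (RingHom.ext fun x =>
        MvPolynomial.eval_C x)
    · clear h
      induction F using MvPolynomial.induction_on with
      | C x => simpa [evGM] using m1 _ (τm_mem_SN s _ (MvPolynomial.C x))
      | add p q hp hq => simpa only [map_add] using add_mem hp hq
      | mul_X p x hp =>
        rw [map_mul, map_mul, map_mul]
        refine mul_mem hp ?_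
        have := m2 (c x.1) (c x.2)
        simp only [fix_pr hc] at this
        simpa [evGM, tayX] using this
  have e0 : evGM s (tayX P s) (∑ j ∈ Finset.range (n + 1), MvPolynomial.C (p j) * F' ^ j) = 0 := by
    rw [← (irr_val (a s hs) _).2, tayM_eq_zero_iff (irr_val (a s hs) _).1]
    filter_upwards [h] with t ht
    rw [← hF] at ht
    simpa [valM, MvPolynomial.eval₂_sum] using ht
  obtain ⟨j, hj, p0⟩ := hp
  obtain ⟨x, hx, b, hb, b0, r⟩ := hN _ mF 1 (one_mem _) n (fun j => τm s (p j))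
    (fun j => τm_mem_SN s _ _) one_ne_zero ⟨j, hj, fun e => p0 (den_tm e)⟩ (by
      simpa [evGM] using e0)
  rw [mul_one] at r
  obtain ⟨b', hb', c0, hx'⟩ := (hG F').den hS (by rwa [τm_const, MvPolynomial.eval_map]) hD hb b0
    (r ▸ hx)
  obtain ⟨qb, rfl⟩ := (mem_SN s).1 hb'
  obtain ⟨qa, ea⟩ := (mem_SN s).1 hx'
  have au := uuN_an hP C1 hs
  rw [← tay_vlC au, constantCoeff_tayM (tay_vlN au qb).1] at c0
  rw [← tay_vlC au, ← tay_vlC au, ← (irr_val (a s hs) _).2,
    ← tayM_mul (tay_vlN au qb).1 (irr_val (a s hs) _).1] at ea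
  have ev : ∀ᶠ t in 𝓝 s, vlN (uuN P C1) qa t = vlN (uuN P C1) qb t * valM P F' t :=
    tayM_inj (tay_vlN au qa).1 ((tay_vlN au qb).1.fun_mul (irr_val (a s hs) F').1) ea
  obtain ⟨Ha, h1⟩ := den_lift (κ' := μ × μ) qa
  obtain ⟨Hb, h2⟩ := den_lift (κ' := μ × μ) qb
  have k : ∀ (t : σ → ℂ) (y : μ × μ → ℂ), MvPolynomial.eval (Sum.elim t (Sum.elim
      (fun a : ν × ν => (P t * C1) a.1 a.2) y))
        (Hb * MvPolynomial.rename (Sum.inr ∘ Sum.inr) F - Ha) =
      vlN (uuN P C1) qb t * MvPolynomial.eval y F - vlN (uuN P C1) qa t := fun t y => by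
    rw [map_sub, map_mul, h1, h2, MvPolynomial.eval_rename]
    rfl
  intro g hg
  have e1 := hg.2 (Hb * MvPolynomial.rename (Sum.inr ∘ Sum.inr) F - Ha) (ev.mono fun t ht => by
    rw [k, ht, hF]
    exact sub_self _)
  rw [k, ev.self_of_nhds, hF, sub_eq_zero] at e1
  exact mul_left_cancel₀ c0 e1

end

end Pool.Agent.Lib.MP_5591bc_ag.Cv
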