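import Pool.Agent.Lib.MP_5591bc_ag.Cv.Ring
import Pool.Agent.Lib.MP_5591bc_ag.K.Full

/-! The ring of the identity component. -/

namespace Pool.Agent.Lib.MP_5591bc_ag.Cv

open Matrix Filter Topology Metric Finset G R W M N J K

noncomputable section

/-- the quotient by the ideal of the identity component -/
theorem full_ring {σ ν K : Type} [Fintype σ] [DecidableEq σ] [Field K] [Algebra K ℂ]
    [Fintype ν] [DecidableEq ν] {T : MvPolynomial σ K} {B : σ → Matrix ν ν (MvPolynomial σ K)}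
    {U : Set (σ → ℂ)} {P : (σ → ℂ) → Matrix ν ν ℂ} (ho : IsOpen U) (hP : FundM T B U P)
    {C1 C0 : Matrix ν ν ℂ} (hC : ConnD T U P C1 C0) {s : σ → ℂ} (hs : s ∈ U)
    (hT : MvPolynomial.aeval s T ≠ 0) :
    ∃ (R : Type) (_ : CommRing R) (_ : IsDomain R) (_ : Algebra ℂ R)
      (π : MvPolynomial (ν × ν) ℂ →ₐ[ℂ] R) (ev : R →ₐ[ℂ] ℂ),
      (∀ Q, InFibR P C1 s Q → π Q = 0) ∧
      (∀ (δ : ℕ) (u : Mo δ ν → ℂ) (μ : Mo δ ν), ev (π (pX δ u μ)) = u μ) ∧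
      ∀ (δ : ℕ) (u m : Mo δ ν → ℂ), π (pX δ u ⬝ᵥ fun μ => MvPolynomial.C (m μ)) = 0 →
        DJ C0 (P s) (pX δ u ⬝ᵥ fun μ => MvPolynomial.C (m μ)) → LiftN P C1 δ s u m := by
  obtain ⟨I, hp, h1, h2, -, h3⟩ := fib_idD ho hP hC hs hT
  refine ⟨_ ⧸ I, inferInstance, inferInstance, inferInstance, Ideal.Quotient.mkₐ ℂ I,
    Ideal.Quotient.liftₐ I (MvPolynomial.aeval fun a : ν × ν => (1 : Matrix ν ν ℂ) a.1 a.2) h1,
    fun Q hQ => Ideal.Quotient.eq_zero_iff_mem.2 (h2 Q hQ), fun δ u μ => ?_,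
    fun δ u m hm => h3 δ u m (Ideal.Quotient.eq_zero_iff_mem.1 hm)⟩
  refine (spc_pX (MvPolynomial.aeval fun a : ν × ν => (1 : Matrix ν ν ℂ) a.1 a.2) δ u μ).trans ?_
  simp only [MvPolynomial.aeval_X]
  rw [show (of fun i j => (1 : Matrix ν ν ℂ) i j) = 1 from rfl, Adj_one, vecMul_one]
  rfl

/-- edited copy of `ringK` -/
theorem ringD {σ ν K : Type} [Fintype σ] [DecidableEq σ] [Field K] [Algebra K ℂ]
    [Fintype ν] [DecidableEq ν] {T : MvPolynomial σ K} {B : σ → Matrix ν ν (MvPolynomial σ K)}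
    {V : Set (σ → ℂ)} {P : (σ → ℂ) → Matrix ν ν ℂ} (ho : IsOpen V) (hc : IsPreconnected V)
    (hP : FundM T B V P) {C1 C0 : Matrix ν ν ℂ} (hC : ConnD T V P C1 C0)
    (hj : Proj T V P C1 C0) {s : σ → ℂ} (hs : s ∈ V) (hT : MvPolynomial.aeval s T ≠ 0) :
    ∃ (R : Type) (_ : CommRing R) (_ : IsDomain R) (_ : Algebra ℂ R)
      (π : MvPolynomial (ν × ν) ℂ →ₐ[ℂ] R) (ev : R →ₐ[ℂ] ℂ),
      (∀ (δ : ℕ) (u : Mo δ ν → ℂ) (μ : Mo δ ν), ev (π (pX δ u μ)) = u μ) ∧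
      ∀ (δ : ℕ) (E : Type) [Field E] [Algebra E ℂ] [Algebra K E] [IsScalarTower K E ℂ]
        (U : Set (σ → ℂ)) (Q : (σ → ℂ) → Matrix ν ν ℂ) (y : σ → E) (z : Matrix ν ν E),
        IsOpen U → IsPreconnected U → FundM T B U Q → ContM V P U Q → pc y ∈ U →
        MvPolynomial.aeval (pc y) T ≠ 0 → z.map (algebraMap E ℂ) = Q (pc y) * C1 →
        ¬ GoodRM U Q C1 C0 δ y z → ∃ F : Mo δ ν → E, Sy F ∧
          ∀ u, u = (fun μ => algebraMap E ℂ (F μ)) ᵥ* Adj δ (P s * (Q (pc y))⁻¹) →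
            ∑ j, mono δ (P s * C0) j • π (pX δ u j) ≠ 0 ∧
            ∑ j, mono δ (P s * C0) j * u j = 0 ∧
            ∀ (τ ι : Type) [Fintype τ] [Fintype ι] (η : (τ → ℂ) → σ → ℂ) (t₀ v : τ → ℂ)
              (a : ℕ) (c : ι → MvPolynomial τ ℂ) (e : ι → σ → ℕ)
              (α : ι → Fin a → Mo δ ν), (FullA P C1 C0 s fun u => η (t₀ + u • v)) →
              (∀ᶠ t in 𝓝 t₀, ∑ i, MvPolynomial.eval t (c i) * (∏ l, η t l ^ e i l) *
                ∏ k, ((fun μ => algebraMap E ℂ (F μ)) ᵥ*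
                  Adj δ (P (η t) * (Q (pc y))⁻¹)) (α i k) = 0) →
              ∑ i, (MvPolynomial.eval t₀ (c i) * ∏ l, s l ^ e i l) •
                ∏ k, π (pX δ u (α i k)) = 0 := by
  obtain ⟨R, _, _, _, π, ev, hπ, hev, hlift⟩ := full_ring ho hP hC hs hT
  refine ⟨R, inferInstance, inferInstance, inferInstance, π, ev, hev, ?_⟩
  intro δ E _ _ _ _ U Q y z oU cU hQ ct hy Ty hz hbad
  have dQ := (hQ _ hy).1
  have ny : MvPolynomial.eval y (TM E T) ≠ 0 := fun e =>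
    Ty (by rw [← aeval_TM (K := E), aeval_pc, e, map_zero])
  obtain ⟨F0, f1, f2⟩ : ∃ F : Mo δ ν → E, (fun μ => algebraMap E ℂ (F μ)) ⬝ᵥ
      mono δ (Q (pc y) * C0) = 0 ∧ ¬ LGN Q C1 C0 δ y z F := by
    by_contra hn
    push Not at hn
    exact hbad (goodRM_of oU cU (fun t ht i j => ((hQ t ht).2 i j).1) hy hn)
  obtain ⟨F1, sy, f3, f4⟩ := exists_syN f2
  obtain ⟨p, p1, p2⟩ := proj_bad (δ := δ) oU (proj_cont ho hj ct) hy Ty hz
  have e1 := Rp_vec (algebraMap E ℂ) F1 1 p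
  rw [map_one] at e1
  obtain ⟨w, hw⟩ := proj_pol (F := fun μ => algebraMap E ℂ (F1 μ)) dQ p1
  rw [← e1] at hw
  have f5 : (fun μ => algebraMap E ℂ ((F1 ᵥ* Rp δ 1 p) μ)) ⬝ᵥ mono δ (Q (pc y) * C0) = 0 := by
    rw [e1, ← dotProduct_mulVec, Rp_mono (Z' := Q (pc y) * C0) (by
      rw [← Matrix.mul_assoc, p1, Matrix.mul_assoc, hj.1, one_smul]), one_pow, one_smul, f4, f1]
  refine ⟨F1 ᵥ* Rp δ 1 p, Rp_sy sy _ _, ?_⟩
  replace f3 := mt (p2 F1) f3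
  generalize F1 ᵥ* Rp δ 1 p = F at hw f5 f3
  rintro u rfl
  have hx : ∀ (Z : Matrix ν ν ℂ) (μ : Mo δ ν), MvPolynomial.eval (fun a => Z a.1 a.2) (pX δ
      ((fun μ => algebraMap E ℂ (F μ)) ᵥ* Adj δ (P s * (Q (pc y))⁻¹)) μ) =
      MvPolynomial.eval (dj C0 (Z * P s)) (w μ) := fun Z μ => by
    rw [hw, Matrix.mul_assoc, Adj_mul δ Z, ← vecMul_vecMul]
    refine (spc_pX (MvPolynomial.aeval fun a : ν × ν => Z a.1 a.2) δ _ _).trans ?_
    simp only [MvPolynomial.aeval_X]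
    rfl
  refine ⟨fun e => ?_, ?_, fun τ ι _ _ η t₀ v a c e α h1 h6 => ?_⟩
  · refine f3 (descN ho (hP.tm E) hs (by rwa [aeval_TM]) oU (hQ.tm E) hy ny
      (link_cont ho hc (fun t ht i j => ((hP t ht).2 i j).1) ct hs hy) hz (hlift δ _ _ ?_
        ⟨w ⬝ᵥ fun μ => MvPolynomial.C (mono δ (P s * C0) μ), fun Z => ?_⟩))
    · rw [← e, dotProduct, map_sum]
      refine sum_congr rfl fun j _ => ?_
      rw [map_mul, mul_comm, MvPolynomial.algHom_C, Algebra.smul_def]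
    · simp only [dotProduct, map_sum, map_mul, MvPolynomial.eval_C]
      exact sum_congr rfl fun j _ => congrArg (· * _) (hx Z j)
  · rw [← lam_dotN dQ f5 (P s), dotProduct]
    exact sum_congr rfl fun j _ => mul_comm _ _
  · rw [← hπ _ (full_fibA (hP s hs).1 h1 c e (fun i => ∏ k, w (α i k))
      (by simpa only [map_prod, hw] using h6)
      (Q := ∑ i, MvPolynomial.C (MvPolynomial.eval t₀ (c i) * ∏ l, s l ^ e i l) * ∏ k, pX δ
        ((fun μ => algebraMap E ℂ (F μ)) ᵥ* Adj δ (P s * (Q (pc y))⁻¹)) (α i k)) fun Z => ?_),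
      map_sum]
    · refine sum_congr rfl fun i _ => ?_
      rw [map_mul, MvPolynomial.algHom_C, Algebra.smul_def, map_prod]
    · rw [map_sum]
      refine sum_congr rfl fun i _ => ?_
      rw [map_mul, MvPolynomial.eval_C, map_prod, map_prod]
      exact congrArg _ (prod_congr rfl fun k _ => hx Z _)

end

end Pool.Agent.Lib.MP_5591bc_ag.Cv
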