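import Pool.Agent.Lib.MP_5591bc_ag.Cv.Root

/-! Solutions on the cover. -/

namespace Pool.Agent.Lib.MP_5591bc_ag.Cv

open Polynomial Set Filter Topology Matrix G M A B E Z Cu
open scoped Polynomial.Bivariate

noncomputable section

variable {σ K ν : Type} [Field K] [NumberField K] [Algebra K ℂ] [Fintype σ] [DecidableEq σ]
  [Fintype ν] [DecidableEq ν] {T : MvPolynomial σ K} {q : (MvPolynomial σ K)[X]} {r n m : ℕ}
  {B : σ → Matrix ν ν (MvPolynomial σ K)[X]} {U U' V V' : Set (σ → ℂ)}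
  {P P' : (σ → ℂ) → Matrix (Option ν) (Option ν) ℂ} {s t : σ → ℂ} {z : ℂ} {w : ν → ℕ}
  {J : Matrix ν ν ℝ}
  {f : (MvPolynomial σ K)[X][X][Y]} {d : (MvPolynomial σ K)[X][X]}
  {A : ν → (MvPolynomial σ K)[X][X][Y]} {R : Fin r → (σ → ℂ) → Matrix (Option ν) (Option ν) ℂ}
  {Bh : σ → Matrix (Ix ν r) (Ix ν r) (MvPolynomial σ K)}

/-- analytic solutions of a linear system that vanish at a regular point vanish -/
theorem fd_zero {ι : Type} [Fintype ι] {D : ι → (σ → ℂ) → ℂ} (hD : ∀ i, AnalyticAt ℂ (D i) t)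
    {τ : (σ → ℂ) → ℂ} (hτ : AnalyticAt ℂ τ t) (τ0 : τ t ≠ 0) {b : σ → ι → ι → (σ → ℂ) → ℂ}
    (hb : ∀ l i a, AnalyticAt ℂ (b l i a) t) (h0 : ∀ i, D i t = 0)
    (ode : ∀ l i, ∀ᶠ x in 𝓝 t, τ x * fderiv ℂ (D i) x (Pi.single l 1) = ∑ a, b l i a x * D a x)
    (i : ι) : ∀ᶠ x in 𝓝 t, D i x = 0 := by
  have hu : IsUnit (tayM τ t) := by
    rw [MvPowerSeries.isUnit_iff_constantCoeff, constantCoeff_tayM hτ]
    exact τ0.isUnit
  have hm : ∀ i, tayM (D i) t ∈ Ideal.span (Set.range fun i => tayM (D i) t) := fun i =>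
    Ideal.subset_span ⟨i, rfl⟩
  refine eventually_zero_of_tayM (hD i) (zero_famM hu
    (F := Ideal.span (Set.range fun i => tayM (D i) t)) (fun g hg => ?_) (fun g hg l => ?_) _ (hm i))
  · rw [MvPowerSeries.isUnit_iff_constantCoeff, isUnit_iff_ne_zero, not_not]
    refine (Ideal.span_le (I := RingHom.ker MvPowerSeries.constantCoeff)).2 ?_ hg
    rintro _ ⟨i, rfl⟩
    exact (constantCoeff_tayM (hD i)).trans (h0 i)
  · obtain ⟨c, rfl⟩ := Ideal.mem_span_range_iff_exists_fun.1 hg
    rw [map_sum, Finset.mul_sum]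
    refine Ideal.sum_mem _ fun i _ => ?_
    have e : tayM τ t * MvPowerSeries.pderiv ℂ l (tayM (D i) t) =
        ∑ a, tayM (b l i a) t * tayM (D a) t := by
      rw [← tayM_pd (hD i)]
      refine ((tayM_mul hτ (pd_ana (hD i) l)).symm.trans (tayM_congr (ode l i))).trans ?_
      rw [tayM_sum _ fun a _ => (hb l i a).fun_mul (hD a)]
      exact Finset.sum_congr rfl fun a _ => tayM_mul (hb l i a) (hD a)
    rw [Derivation.leibniz, smul_eq_mul, smul_eq_mul, mul_add, mul_left_comm, e]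
    exact add_mem (Ideal.mul_mem_left _ _ (Ideal.sum_mem _ fun a _ => Ideal.mul_mem_left _ _ (hm a)))
      (Ideal.mul_mem_left _ _ (Ideal.mul_mem_right _ _ (hm i)))

omit [NumberField K] [DecidableEq ν] in
theorem FundS.congr (h : FundS T q B U P) (ht : t ∈ U) (e : P =ᶠ[𝓝 t] P') :
    FundS T q B {t} P' := by
  rintro _ rfl
  have e' : ∀ i j, (fun z => P z i j) =ᶠ[𝓝 _] fun z => P' z i j := fun i j =>
    e.mono fun s hs => by simp only [hs]
  obtain ⟨h1, h2, h3, h4⟩ := h _ ht
  rw [← e.eq_of_nhds]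
  refine ⟨fun i j => (h1 i j).congr (e' i j), h2, h3, fun l i j => ?_⟩
  rw [← (e' _ _).fderiv_eq, h4]

theorem FundS.mono (h : FundS T q B U P) (hV : V ⊆ U) : FundS T q B V P := by
  exact fun t ht => h t (hV ht)

theorem PerS.mono (h : PerS T q B f d m A w U P) (hV : V ⊆ U) : PerS T q B f d m A w V P := by
  exact ⟨h.1.mono hV, fun t ht => h.2 t (hV ht)⟩

theorem FundS.cont (h : FundS T q B U P) (ho : IsOpen U) (hc : IsPreconnected U)
    (k : ContM U P U' P') : IsOpen U' ∧ IsPreconnected U' ∧ FundS T q B U' P' := by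
  induction k with
  | base => exact ⟨ho, hc, h⟩
  | step U₁ U₂ P₁ P₂ s _ o c a s1 s2 e ih =>
    have hF : ∀ᶠ x in 𝓝 s, FundS T q B {x} P₂ := by
      filter_upwards [ih.1.mem_nhds s1, e.eventually_nhds] with x h1 h2 using ih.2.2.congr h1 h2
    have id : ∀ g g' : (σ → ℂ) → ℂ, AnalyticOnNhd ℂ g U₂ → AnalyticOnNhd ℂ g' U₂ →
        (∀ x, FundS T q B {x} P₂ → g x = g' x) → ∀ t ∈ U₂, g t = g' t := fun g g' hg hg' h t ht =>
      hg.eqOn_of_preconnected_of_eventuallyEq hg' c s2 (hF.mono h) ht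
    refine ⟨o, c, fun t ht => ⟨fun i j => a i j t ht, fun i => ⟨?_, ?_⟩, ?_, fun l i j => ?_⟩⟩
    · exact id _ (fun _ => 0) (a (some i) none) analyticOnNhd_const
        (fun x h => ((h x rfl).2.1 i).1) t ht
    · exact id _ (fun _ => 0) (a none (some i)) analyticOnNhd_const
        (fun x h => ((h x rfl).2.1 i).2) t ht
    · exact id (fun x => evz x (P₂ x none none) q) (fun _ => 0)
        (fun x hx => evz_an (a none none x hx) q) analyticOnNhd_const
        (fun x h => (h x rfl).2.2.1) t ht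
    · exact id (fun x => MvPolynomial.aeval x T *
          fderiv ℂ (fun z => P₂ z (some i) (some j)) x (Pi.single l 1))
        (fun x => ∑ k, evz x (P₂ x none none) (B l i k) * P₂ x (some k) (some j))
        (fun x hx => (aeval_ana T).fun_mul (pd_ana (a _ _ x hx) l))
        (fun x hx => Finset.analyticAt_fun_sum _ fun k _ =>
          (evz_an (a none none x hx) _).fun_mul (a _ _ x hx))
        (fun x h => (h x rfl).2.2.2 l i j) t ht

theorem FundS.uniq (hq : Cov T q r) (h : FundS T q B V P) (h' : FundS T q B V' P')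
    (hV : V ∈ 𝓝 t) (hV' : V' ∈ 𝓝 t) (hT : MvPolynomial.aeval t T ≠ 0)
    (e : P' t none none = P t none none) (d0 : (bl (P t)).det ≠ 0) : ∀ᶠ x in 𝓝 t,
      P' x none none = P x none none ∧ bl (P' x) = bl (P x) * ((bl (P t))⁻¹ * bl (P' t)) := by
  have a := (h t (mem_of_mem_nhds hV)).1
  have a' := (h' t (mem_of_mem_nhds hV')).1
  have hz := hq.uniq (ζ := fun x => P x none none) (ζ' := fun x => P' x none none) hT
    (a none none).continuousAt (a' none none).continuousAt
    (mem_of_superset hV fun x hx => (h x hx).2.2.1)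
    (mem_of_superset hV' fun x hx => (h' x hx).2.2.1) e
  obtain ⟨c, hc⟩ : ∃ c, c = (bl (P t))⁻¹ * bl (P' t) := ⟨_, rfl⟩
  have h0 : bl (P t) * c = bl (P' t) := by rw [hc, mul_nonsing_inv_cancel_left _ _ d0.isUnit]
  rw [← hc]
  have key : ∀ j i, ∀ᶠ x in 𝓝 t,
      P' x (some i) (some j) - ∑ k, P x (some i) (some k) * c k j = 0 := fun j =>
    fd_zero (D := fun i x => P' x (some i) (some j) - ∑ k, P x (some i) (some k) * c k j)
      (fun i => (a' _ _).fun_sub (Finset.analyticAt_fun_sum _ fun k _ =>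
        (a _ _).fun_mul analyticAt_const)) (aeval_ana T) hT
      (b := fun l i k x => evz x (P x none none) (B l i k)) (fun l i k => evz_an (a _ _) _)
      (fun i => sub_eq_zero.2 (congrFun₂ h0 i j).symm) fun l i => by
      filter_upwards [hV, hV', hz] with x hx hx' e
      have d := ((h' x hx').1 (some i) (some j)).differentiableAt.hasFDerivAt.fun_sub
        (HasFDerivAt.fun_sum (u := Finset.univ) fun k _ =>
          ((h x hx).1 (some i) (some k)).differentiableAt.hasFDerivAt.mul_const (c k j))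
      rw [d.fderiv]
      simp only [_root_.sub_apply, _root_.sum_apply, _root_.smul_apply, smul_eq_mul, mul_sub,
        Finset.mul_sum, Finset.sum_sub_distrib, (h' x hx').2.2.2, e]
      congr 1
      rw [Finset.sum_comm]
      refine Finset.sum_congr rfl fun k _ => ?_
      rw [mul_left_comm, (h x hx).2.2.2, Finset.mul_sum]
      exact Finset.sum_congr rfl fun b _ => by ring
  filter_upwards [hz, eventually_all.2 fun j => eventually_all.2 (key j)] with x h1 h2
  exact ⟨h1, Matrix.ext fun i j => sub_eq_zero.1 (h2 j i)⟩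

end

end Pool.Agent.Lib.MP_5591bc_ag.Cv
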