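import Pool.Agent.Lib.MP_5591bc_ag.Cv.Full
import Pool.Agent.Lib.MP_5591bc_ag.J.Gap

/-! The bad points of a cell lie over a hypersurface (edited copy of `K.Gap`). -/

namespace Pool.Agent.Lib.MP_5591bc_ag.Cv

open Matrix Filter Topology MvPowerSeries G R W M N E J K Metric

noncomputable section

variable {σ K0 : Type} [Fintype σ] [DecidableEq σ] [Field K0] [NumberField K0] [Algebra K0 ℂ]
  {ν : Type} [Fintype ν] [DecidableEq ν] {T : MvPolynomial σ K0}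
  {B : σ → Matrix ν ν (MvPolynomial σ K0)}

theorem gapLD (h : GalM T B) (τ : Type) [Fintype τ] : ∃ c : ℕ, ∀ δ Λ : ℕ, 2 ≤ Λ → δ < Λ →
    ∀ (K L : Type) [Field K] [NumberField K] [Field L] [NumberField L] [Algebra K L] [Algebra K ℂ]
      [Algebra L ℂ] [IsScalarTower K L ℂ] [Algebra K0 K] [Algebra K0 L] [IsScalarTower K0 K ℂ]
      [IsScalarTower K0 L ℂ] (T1 : MvPolynomial σ K0) (G : σ → Polynomial (J.ZP τ))
      (g : Polynomial (J.ZP τ)) (Ψ : (τ → ℂ) → τ → ℂ) (y : (τ → ℂ) × (τ → ℂ) → σ → ℂ),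
      (∀ l, QM (G l) ∧ 0 < (G l).natDegree ∧ SzP Λ (G l)) → g.coeff 0 = 0 →
      Cel Λ G g (TM ℂ (T1 * T)) Ψ y →
      ∀ (a₀ : τ → ℂ) (V : Set (σ → ℂ)) (P : (σ → ℂ) → Matrix ν ν ℂ) (C1 C0 : Matrix ν ν ℂ)
        (Y : (τ → ℂ) × (τ → ℂ) → Matrix ν ν ℂ) (s : σ → K) (t₀ : τ → K), ‖a₀‖ ≤ 1 → IsOpen V →
        IsPreconnected V → FundM T B V P → pc s ∈ V → ConnD T V P C1 C0 →
        Proj T V P C1 C0 → (∃ v : τ → ℂ, FullA P C1 C0 (pc s) fun u => y (sc Λ Ψ a₀ (Ψ a₀ + u • v))) →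
        pc s = y (a₀, 0) → pc t₀ = Ψ a₀ → Module.finrank ℚ K ≤ Λ → (∀ l, Hd (s l) (2 ^ Λ)) →
        (∀ i, Ht (t₀ i) (2 ^ Λ)) → (∀ i j, AnalyticOnNhd ℂ (Y · i j) (ball 0 36)) →
        (∀ᶠ p in 𝓝 (a₀, (0 : τ → ℂ)), Y p = P (y p)) →
        ∀ S : Finset (τ → L), (∀ t ∈ S, ∃ a U Q, ‖a‖ ≤ 1 ∧ IsOpen U ∧
          IsPreconnected U ∧ FundM T B U Q ∧ y (a, 0) ∈ U ∧ ContM V P U Q ∧
          (∀ᶠ p in 𝓝 (a, (0 : τ → ℂ)), Y p = Q (y p)) ∧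
          ∃ (E : Type) (_ : Field E) (_ : NumberField E) (_ : Algebra E ℂ) (_ : Algebra K0 E)
            (_ : IsScalarTower K0 E ℂ) (φ : E →ₐ[K0] L) (x : σ → E) (u : τ → E)
            (z : Matrix ν ν E) (E' : IntermediateField ℚ L), (fun i => φ (u i)) = t ∧
            pc x = y (a, 0) ∧ pc u = Ψ a ∧ z.map (algebraMap E ℂ) = Q (pc x) * C1 ∧
            (∀ z, algebraMap L ℂ (φ z) = algebraMap E ℂ z) ∧ Module.finrank ℚ E ≤ Λ ∧
            (∀ l, Hd (x l) (2 ^ Λ)) ∧ (∀ i, Ht (u i) (2 ^ Λ)) ∧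
            Module.finrank ℚ E' ≤ Λ * Λ ∧ (∀ z, algebraMap K L z ∈ E') ∧ (∀ z, φ z ∈ E') ∧
            ¬ GoodRM U Q C1 C0 δ x z) →
          Hyp (S : Set (τ → L)) (Λ ^ (c * (δ + 1) ^ Fintype.card (ν × ν))) := by
  classical
  obtain ⟨e, hcore⟩ := coreJ τ
  obtain ⟨c, hc⟩ := gap_ptU h τ
  obtain ⟨c1, hc1⟩ : ∃ c1, c1 = c + (Fintype.card τ + 1 + 3) + 2 * Fintype.card σ := ⟨_, rfl⟩
  refine ⟨(c1 + Fintype.card (ν × ν) + 1 + 1 + 1) * (2 * e), fun δ => ?_⟩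
  obtain ⟨A, _, q, ρ, hA, hρ⟩ := sy_quot (ν × ν) δ
  intro Λ h2 hδ K L _ _ _ _ _ _ _ _ _ _ _ _ T1 G g Ψ y hG g0 cel a₀ V P C1 C0 Y s t₀ n0 oV cV hV mV hI
    hj ⟨v0, hF0⟩ es et dK Hs Ht0 aY eY S hS
  have mo : ∀ j ≤ c1, Λ ^ j ≤ Λ ^ c1 := fun j hj => Nat.pow_le_pow_right (by omega) hj
  have l3 : 2 * Λ + 4 ≤ Λ ^ 3 := by
    have := Nat.mul_le_mul h2 h2
    calc _ ≤ Λ * Λ * Λ := by nlinarith
      _ = _ := by ring
  have m1 : 2 ^ Λ ^ c ≤ 2 ^ Λ ^ c1 := Nat.pow_le_pow_right two_pos (mo c (by omega))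
  have m2 : (Fintype.card τ + 1) * (2 * Λ + 1) ≤ Λ ^ c1 :=
    ((Nat.mul_le_mul_left _ (by omega)).trans (liou_pow h2 _ 3)).trans (mo _ (by omega))
  have m3 : Λ + 5 ≤ Λ ^ c1 := le_trans (by omega) (mo 3 (by omega))
  have m4 : Λ * Λ ≤ Λ ^ c1 := (sq Λ).ge.trans (mo 2 (by omega))
  have m5 : Fintype.card (σ → Fin (Λ + 1)) ≤ Λ ^ c1 := by
    rw [Fintype.card_fun, Fintype.card_fin]
    refine le_trans ?_ (mo (2 * Fintype.card σ) (by omega))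
    rw [pow_mul]
    exact Nat.pow_le_pow_left (by nlinarith) _
  have dG := fun l => (hG l).2.1
  have mb : ∀ {a : τ → ℂ}, ‖a‖ ≤ 1 → (a, (0 : τ → ℂ)) ∈ ball (0 : (τ → ℂ) × (τ → ℂ)) 40 :=
    fun ha => by
      simp only [mem_ball_zero_iff, Prod.norm_mk, norm_zero, max_lt_iff]
      constructor <;> linarith
  have tn : ∀ {a : τ → ℂ}, ‖a‖ ≤ 1 → MvPolynomial.aeval (y (a, 0)) (T1 * T) ≠ 0 := fun ha => by
    have := cel.tn _ (mb ha)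
    rwa [MvPolynomial.eval_map, ← MvPolynomial.aeval_def] at this
  have tn' : ∀ {a : τ → ℂ}, ‖a‖ ≤ 1 → MvPolynomial.aeval (y (a, 0)) T ≠ 0 := fun ha e =>
    tn ha (by rw [map_mul, e, mul_zero])
  have Ts : MvPolynomial.aeval (pc s) T ≠ 0 := es ▸ tn' n0
  have ns : MvPolynomial.eval s (TM K T) ≠ 0 := fun e =>
    Ts (by rw [← aeval_TM (K := K), aeval_pc, e, map_zero])
  have e0 : (fun l => algebraMap L ℂ (algebraMap K L (t₀ l))) = Ψ a₀ :=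
    (funext fun l => (IsScalarTower.algebraMap_apply K L ℂ _).symm).trans et
  have ec : (algebraMap L ℂ).comp (algebraMap K L) = algebraMap K ℂ :=
    (IsScalarTower.algebraMap_eq K L ℂ).symm
  have ce : Cel Λ G g (TM ℂ (TM L T1 * TM L T)) Ψ y := by
    rw [← map_mul, TM, MvPolynomial.map_map, ← IsScalarTower.algebraMap_eq]
    exact cel
  have ts : ∀ a : τ → ℂ, Tendsto (sc Λ Ψ a) (𝓝 (Ψ a)) (𝓝 (a, 0)) := fun a => by
    have := (sc_ana (Λ := Λ) (Ψ := Ψ) (a := a) (Ψ a)).continuousAt.tendsto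
    rwa [sc_self] at this
  obtain ⟨R, _, _, _, π, ev, hev, hR⟩ := ringD oV cV hV hI hj mV Ts
  obtain ⟨w0, w1, w2, w3, -⟩ := hc δ Λ h2 hδ.le K G t₀ s dK (fun l => (hG l).2.2) Ht0 Hs
    (gap_root cel dG n0 et es).1 ns
  have b0 : Br G Ψ y a₀ t₀ s w0 := ⟨n0, et, es, w1, w2⟩
  choose Ba hBa using fun a => sys (r := Λ) (fun l => ⟨(hG l).1, dG l, (hG l).2.2.1⟩) g0 (TM L T)
    (TM L T1) (fun l => Bd δ (BM L B l)) a
  have key : ∀ t ∈ S, ∃ (Φ : Mo δ ν → MvPowerSeries τ L)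
      (Z : (σ → Fin (Λ + 1)) → MvPowerSeries τ L) (p : Mo δ ν → R), Z 0 = 1 ∧
      (∀ a, IsM (τm t) (MvPolynomial.map (Int.castRingHom L) (den G g)) (Ba a)
        fun i => Z i.1 * ∏ l, Φ (i.2 l)) ∧
      DatJ (Λ ^ c1) t₀ (MvPolynomial.map (Int.castRingHom L) (den G g)) t Φ ∧
      (∃ (f0 f : Mo δ ν → (τ → ℂ) → ℂ) (S : ℝ), Cur (2 ^ Λ ^ c1) S (2 ^ Λ ^ c1)⁻¹
        (fun l => algebraMap L ℂ (algebraMap K L (t₀ l))) (fun l => algebraMap L ℂ (t l)) f0 f ∧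
        ∀ α, tayM (f0 α) (fun l => algebraMap L ℂ (algebraMap K L (t₀ l))) =
          ∑ β, C (ev (p β)) * map ((algebraMap L ℂ).comp (algebraMap K L))
            (subst w0 (Adj δ (GbM (TM K T) (BM K B) s) β α)) ∧
          tayM (f α) (fun l => algebraMap L ℂ (t l)) = map (algebraMap L ℂ) (Φ α)) ∧
      ∑ j, mono δ (P (pc s) * C0) j • p j ≠ 0 ∧ ∑ j, mono δ (P (pc s) * C0) j * ev (p j) = 0 ∧
      (∀ a (ψ : (σ → Fin (Λ + 1)) × (Fin a → Mo δ ν) → MvPolynomial τ L),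
        ∑ i, τm t (ψ i) * (Z i.1 * ∏ l, Φ (i.2 l)) = 0 →
        ∑ i, (algebraMap L ℂ (MvPolynomial.eval (fun l => algebraMap K L (t₀ l)) (ψ i)) *
          ∏ l, pc s l ^ (i.1 l : ℕ)) • ∏ l, p (i.2 l) = 0) ∧
      ∀ i, Φ (ρ (q i)) = Φ i ∧ p (ρ (q i)) = p i := by
    intro t ht
    obtain ⟨a, U, Q, na, ho, hc', hQ, mU, cont, eQ, E, _, _, _, _, _, φ, x, u, z, E', rfl, ex, eu, hz,
      hφ, dE, Hx, Hu, e1, e2, e3, hbad⟩ := hS t ht
    have ey : pc (fun l => φ (x l)) = pc x := funext fun l => hφ _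
    have eu' : pc (fun l => φ (u l)) = Ψ a := (funext fun l => hφ _).trans eu
    have Tx : MvPolynomial.aeval (pc x) T ≠ 0 := ex ▸ tn' na
    have nx : MvPolynomial.eval x (TM E T) ≠ 0 := fun e =>
      Tx (by rw [← aeval_TM (K := E), aeval_pc, e, map_zero])
    have nL : MvPolynomial.eval (fun l => φ (x l)) (TM L T) ≠ 0 := by
      rw [eval_TM]
      exact (map_ne_zero φ).2 nx
    have m6 : pc x ∈ U := ex ▸ mU
    have m7 : pc (fun l => φ (x l)) ∈ U := ey ▸ m6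
    obtain ⟨F, sy, hF⟩ := hR δ E U Q x z ho hc' hQ cont m6 Tx hz hbad
    obtain ⟨v, hv⟩ : ∃ v, v = (fun μ => algebraMap E ℂ (F μ)) ᵥ*
      Adj δ (P (pc s) * (Q (pc x))⁻¹) := ⟨_, rfl⟩
    obtain ⟨f1, f2, f3⟩ := hF v hv
    obtain ⟨w, w4, -, -, w5⟩ := hc δ Λ h2 hδ.le E G u x dE (fun l => (hG l).2.2) Hu Hx
      (gap_root cel dG na eu ex).1 nx
    obtain ⟨w6, w7⟩ := w5 L φ
    obtain ⟨w7, w8⟩ := w7 F
    have b : Br G Ψ y a (fun i => φ (u i)) (fun l => φ (x l)) fun l => map (φ : E →+* L) (w l) :=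
      ⟨na, eu', ey.trans ex, fun l => by
        rw [← coeff_zero_eq_constantCoeff_apply, coeff_map, coeff_zero_eq_constantCoeff_apply, w4,
          map_zero], w6⟩
    have hsub := gap_sub (fun l => (Hu l).map (φ : E →+* L))
      (fun l => (Ht0 l).map (algebraMap K L)) m2
    obtain ⟨S0, hcur⟩ := cel.cur dG n0 na
      (fun μ => gap_ana aY (fun μ => algebraMap E ℂ (F μ)) (Q (pc x))⁻¹ μ)
      (f1 := fun μ t => ((fun μ => algebraMap E ℂ (F μ)) ᵥ* Adj δ (P t * (Q (pc x))⁻¹)) μ)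
      (fun μ => eY.mono fun p hp => by rw [hp]) m3
    refine ⟨fun μ => subst (fun l => map (φ : E →+* L) (w l))
        (LserM (TM L T) (BM L B) δ (fun l => φ (x l)) (fun η => φ (F η)) μ),
      fun j => ∏ l, (map (φ : E →+* L) (w l) + C (φ (x l))) ^ (j l : ℕ), fun β => π (pX δ v β),
      by simp, fun n => hBa n _ _ _ _ b.c0 b.rt (fun e => tn na ?_) (gap_tr ce dG b)
        (LserM_ode ho (hQ.tm L) m7 nL δ _),
      ⟨(gap_root cel dG na eu' b.hx).2, ⟨E', e1.trans m4, e2, fun l => e3 _, fun α κ => ?_⟩,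
        w7.mono m1, hsub.1, hsub.2⟩, ⟨_, _, S0, by rw [e0]; exact eu' ▸ hcur, fun α => ⟨?_, ?_⟩⟩, f1,
      by simpa only [hev] using f2, fun n ψ hr => ?_, fun i => ?_⟩
    · rw [← b.hx, ← aeval_TM (K := L), aeval_pc, TM, map_mul, e, map_zero]
    · obtain ⟨z, hz⟩ := w8 α κ
      exact hz ▸ e3 z
    · rw [e0, ec]
      simp only [hev]
      rw [← (gap_base cel dG b0 oV (hV.tm K) mV ns v α).2]
      refine tayM_congr (((ts a₀).eventually eY).mono fun t ht => ?_)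
      simp only [ht]
      rw [hv, vecMul_vecMul, ← Adj_mul, Matrix.mul_assoc,
        nonsing_inv_mul_cancel_left _ _ (hV _ mV).1.isUnit]
    · refine Eq.trans ?_ (gap_self cel dG b ho (hQ.tm L) m7 nL (fun η => φ (F η)) α).2
      rw [show (fun l => algebraMap L ℂ (φ (u l))) = Ψ a from eu']
      refine tayM_congr (((ts a).eventually eQ).mono fun t ht => ?_)
      simp only [ht, lamM, hφ, ey]
    · have k := gap_he cel dG b ho (hQ.tm L) m7 nL (fun η => φ (F η)) aY eQ n0 eY ψ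
        (fun i l => i.1 l) (fun i => i.2) hr
      simp only [hφ, ey] at k
      have := f3 τ _ (fun t => y (sc Λ Ψ a₀ t)) (Ψ a₀) v0 n (fun i => TM ℂ (ψ i))
        (fun i l => i.1 l) (fun i => i.2) hF0 k
      rw [← this]
      refine Finset.sum_congr rfl fun i _ => ?_
      rw [← aeval_pc, MvPolynomial.eval_map, ← MvPolynomial.aeval_def, ← e0]
    · obtain ⟨r, hr⟩ := hρ i
      rw [hr]
      exact ⟨congrArg _ (sy_lser (sy.comp φ) _ _ _ r i),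
        congrArg π ((hv ▸ (sy.comp _).adj _ : Sy v).pX r i)⟩
  choose! Φ Z p k1 k2 k3 k4 k5 k6 k7 k8 using key
  refine (hcore (Mo δ ν) A q ρ K L R (algebraMap L ℂ) (Λ ^ c1) t₀ _ _ S Φ ev p _ _ 0 Z
    (fun j => ∏ l, pc s l ^ (j l : ℕ)) m5 k1 (by simp) (fun a => ⟨Ba a, fun x hx => k2 x hx a⟩)
    (gap_root (x := fun l => algebraMap K L (s l)) cel dG n0 e0 ((funext fun l =>
      (IsScalarTower.algebraMap_apply K L ℂ _).symm).trans es)).2 (w3.mono m1) k3 (core_upV k4)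
    k5 k6 (fun a x hx => k7 x hx a) k8).mono subset_rfl ?_
  have n1 : 0 < (δ + 1) ^ Fintype.card (ν × ν) := by positivity
  have n2 : Fintype.card A ≤ Λ ^ Fintype.card (ν × ν) := hA.trans (Nat.pow_le_pow_left hδ _)
  have n3 := main_add h2 c1 (Fintype.card (ν × ν))
  have n4 := main_add h2 (c1 + Fintype.card (ν × ν) + 1) 1
  rw [mul_assoc, pow_mul Λ (_ + 1 + 1)]
  refine (Nat.pow_le_pow_left (le_trans ?_ n4) _).trans (Nat.pow_le_pow_right (by positivity) ?_)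
  · rw [pow_one]
    omega
  · nlinarith [Nat.mul_le_mul_left e hA, Nat.mul_le_mul_left e n1]

theorem gapD (h : GalM T B) (τ : Type) [Fintype τ] : ∃ c : ℕ, ∀ δ Λ : ℕ, 2 ≤ Λ → δ < Λ →
    ∀ (T1 : MvPolynomial σ K0) (G : σ → Polynomial (J.ZP τ)) (g : Polynomial (J.ZP τ))
      (Ψ : (τ → ℂ) → τ → ℂ) (y : (τ → ℂ) × (τ → ℂ) → σ → ℂ),
      (∀ l, QM (G l) ∧ 0 < (G l).natDegree ∧ SzP Λ (G l)) → g.coeff 0 = 0 →
      Cel Λ G g (TM ℂ (T1 * T)) Ψ y →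
      ∀ (a₀ : τ → ℂ) (V : Set (σ → ℂ)) (P : (σ → ℂ) → Matrix ν ν ℂ) (C1 C0 : Matrix ν ν ℂ)
        (Y : (τ → ℂ) × (τ → ℂ) → Matrix ν ν ℂ), ‖a₀‖ ≤ 1 → IsOpen V → IsPreconnected V →
        FundM T B V P → y (a₀, 0) ∈ V → ConnD T V P C1 C0 → Proj T V P C1 C0 →
        (∃ v : τ → ℂ, FullA P C1 C0 (y (a₀, 0)) fun u => y (sc Λ Ψ a₀ (Ψ a₀ + u • v))) →
        PtA (K := K0) (fun _ _ => True) Λ (y (a₀, 0)) (Ψ a₀) →
        (∀ i j, AnalyticOnNhd ℂ (Y · i j) (ball 0 36)) →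
        (∀ᶠ p in 𝓝 (a₀, (0 : τ → ℂ)), Y p = P (y p)) →
        ∀ S : Finset (τ → ℂ), (∀ t ∈ S, ∃ a U Q, ‖a‖ ≤ 1 ∧ Ψ a = t ∧ IsOpen U ∧
          IsPreconnected U ∧ FundM T B U Q ∧ y (a, 0) ∈ U ∧ ContM V P U Q ∧
          (∀ᶠ p in 𝓝 (a, (0 : τ → ℂ)), Y p = Q (y p)) ∧
          PtA (fun (E : IntermediateField K0 ℂ) x => ∃ z : Matrix ν ν E,
            z.map (algebraMap E ℂ) = Q (pc x) * C1 ∧ ¬ GoodRM U Q C1 C0 δ x z) Λ (y (a, 0)) t) →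
          Hyp (S : Set (τ → ℂ)) (Λ ^ (c * (δ + 1) ^ Fintype.card (ν × ν))) := by
  classical
  obtain ⟨c, hg⟩ := gapLD h τ
  refine ⟨c, fun δ Λ h2 hδ T1 G g Ψ y hG g0 cel a₀ V P C1 C0 Y n0 oV cV hV mV hI hj hF hs aY eY
    S hS => ?_⟩
  obtain ⟨E0, hE0, y0, u0, e1, e2, hd0, hH0, hH1, -⟩ := hs
  choose a U Q na ea oU cU fU mU co eQ E hE x u hx hu hd hH hH' Z hZ hbad using
    fun t : S => hS t t.2
  obtain ⟨L, hL, hK, hEL, K1, hK1⟩ := @fld_setup _ (Finset.univ : Finset S)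
    (E0.restrictScalars ℚ) (fun x => (E x).restrictScalars ℚ) Λ Λ
    hE0.to_finiteDimensional hd0 fun x _ => ⟨(hE x).to_finiteDimensional, hd x⟩
  have : NumberField L := {}
  let i : ∀ x, E x →+* L := fun x =>
    (IntermediateField.inclusion (hEL x (Finset.mem_univ _))).toRingHom
  let i0 : E0 →+* L := (IntermediateField.inclusion hK).toRingHom
  let _ : Algebra E0 L := i0.toAlgebra
  let _ : Algebra K0 L := (i0.comp (algebraMap K0 _)).toAlgebra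
  have : IsScalarTower E0 L ℂ := IsScalarTower.of_algebraMap_eq fun _ => rfl
  have : IsScalarTower K0 L ℂ := IsScalarTower.of_algebraMap_eq fun _ => rfl
  let z : S → τ → L := fun t l => i t (u t l)
  have hz : ∀ t, pc (z t) = t := hu
  rw [← e1] at mV hF
  refine ((hg δ Λ h2 hδ E0 L T1 G g Ψ y hG g0 cel a₀ V P C1 C0 Y y0 u0 n0 oV cV hV mV hI hj hF
    e1 e2 hd0 hH0 hH1 aY eY (Finset.univ.image z) fun w hw => ?_).map
      (algebraMap L ℂ).injective).mono (fun x hx => ⟨z ⟨x, hx⟩, by simp, hz _⟩) le_rfl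
  obtain ⟨t, -, rfl⟩ := Finset.mem_image.1 hw
  have k := hK1 t (Finset.mem_univ _)
  exact ⟨a t, U t, Q t, na t, oU t, cU t, fU t, mU t, co t, eQ t, E t, _, hE t, _, _, inferInstance,
    ⟨i t, fun _ => rfl⟩, x t, u t, Z t, K1 t, rfl, hx t, (hu t).trans (ea t).symm, hZ t,
    fun _ => rfl, hd t, hH t, hH' t, k.1, fun a => k.2 _ (Or.inl a.2), fun a => k.2 _ (Or.inr a.2),
    hbad t⟩

end

end Pool.Agent.Lib.MP_5591bc_ag.Cv
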