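import Pool.Agent.Lib.MP_5591bc_ag.V.Reg

/-! Regular subfields and tensor products. -/

namespace Pool.Agent.Lib.MP_5591bc_ag.Cv

open scoped TensorProduct

noncomputable section

/-- `k'` algebraic over `k`, `k` algebraically closed in `E`: the map from `L ⊗[k] E` to
`L ⊗[k'] L` is injective -/
theorem tens_inj {k L : Type} [Field k] [CharZero k] [Field L] [Algebra k L]
    (k' E : IntermediateField k L) (hk : ∀ z ∈ k', IsIntegral k z)
    (hE : ∀ z ∈ E, IsIntegral k z → z ∈ (algebraMap k L).range)
    (Φ : L ⊗[k] L →+* L ⊗[k'] L) (hΦ : ∀ x y, Φ (x ⊗ₜ y) = x ⊗ₜ y) {z : L ⊗[k] L}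
    (hz : z ∈ AddSubmonoid.closure {w : L ⊗[k] L | ∃ x, ∃ y ∈ E, w = x ⊗ₜ y}) (h : Φ z = 0) :
    z = 0 := by
  have H : (algebraicClosure k L).LinearDisjoint E := V.reg_disj (L := E) fun z hz => by
    obtain ⟨a, ha⟩ := hE z z.2 (hz.map E.val)
    exact ⟨a, Subtype.ext ha⟩
  have H' : k'.LinearDisjoint E := H.of_le_left fun z hz => mem_algebraicClosure_iff'.2 (hk z hz)
  let b := Module.Free.chooseBasis k E
  have : Module.Free k' L := Module.Free.of_divisionRing k' L
  have : Module.Flat k' L := Module.Flat.of_free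
  have li := Module.Flat.linearIndependent_one_tmul (S := L)
    (H'.linearIndependent_right b.linearIndependent)
  have hs : z ∈ Submodule.span L (Set.range fun i => (1 : L) ⊗ₜ[k] (b i : L)) := by
    clear h
    induction hz using AddSubmonoid.closure_induction with
    | zero => exact zero_mem _
    | add x y _ _ hx hy => exact add_mem hx hy
    | mem w hw =>
      obtain ⟨x, y, hy, rfl⟩ := hw
      have e : y = ∑ i ∈ (b.repr ⟨y, hy⟩).support, b.repr ⟨y, hy⟩ i • (b i : L) := by
        have := congrArg E.val (b.linearCombination_repr ⟨y, hy⟩)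
        rw [Finsupp.linearCombination_apply, Finsupp.sum, map_sum] at this
        simpa using this.symm
      rw [e, TensorProduct.tmul_sum]
      refine sum_mem fun i _ => ?_
      have : x ⊗ₜ[k] (b.repr ⟨y, hy⟩ i • (b i : L)) =
          (b.repr ⟨y, hy⟩ i • x) • ((1 : L) ⊗ₜ[k] (b i : L)) := by
        rw [TensorProduct.smul_tmul', smul_eq_mul, mul_one, TensorProduct.smul_tmul]
      rw [this]
      exact Submodule.smul_mem _ _ (Submodule.subset_span ⟨i, rfl⟩)
  obtain ⟨c, rfl⟩ := Finsupp.mem_span_range_iff_exists_finsupp.1 hs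
  have c0 : c = 0 := linearIndependent_iff.1 li c (by
    rw [← h, Finsupp.linearCombination_apply, Finsupp.sum, Finsupp.sum, map_sum]
    refine Finset.sum_congr rfl fun i _ => ?_
    rw [TensorProduct.smul_tmul', TensorProduct.smul_tmul', hΦ]
    rfl)
  simp [c0]

end

end Pool.Agent.Lib.MP_5591bc_ag.Cv
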