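import Pool.Agent.Lib.MP_5591bc_ag.Cv.SetW
import Pool.Agent.Lib.MP_5591bc_ag.Cv.Inj

/-! The identity component of the Galois group. -/

namespace Pool.Agent.Lib.MP_5591bc_ag.Cv

open Matrix Function G R M
open V (evm)
open scoped TensorProduct

noncomputable section

section core

variable {A Pl O k L : Type} [Fintype A] [DecidableEq A] [CommRing Pl] [Algebra ℂ Pl]
  [CommRing O] [Algebra ℂ O] [Field k] [Algebra Pl k] [Field L] [Algebra k L]
  {τ : Pl →ₐ[ℂ] O} {ι : O →+* L}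

/-- the generic point -/
def genX (k : Type) {A L : Type} [Fintype A] [Field k] [Field L] [Algebra k L]
    (Gi Gr : Matrix A A L) : Matrix A A (L ⊗[k] L) :=
  Gi.map Algebra.TensorProduct.includeLeftRingHom *
    Gr.map (Algebra.TensorProduct.includeRight (R := k) (A := L) (B := L))

theorem gen_cv (hc : ∀ p : Pl, ι (τ p) = gpk Pl k L p) :
    gck Pl k L = ι.comp (algebraMap ℂ O) :=
  RingHom.ext fun c => (hc _).symm.trans (congrArg ι (τ.commutes c))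

omit [Fintype A] in
theorem gen_one {S : Type} [CommRing S] (κ : ℂ →+* S) (p : MvPolynomial (A × A) ℂ) :
    evm κ 1 p = κ (evm (RingHom.id ℂ) 1 p) := by
  rw [V.map_evm, Matrix.map_one _ (map_zero _) (map_one _), RingHom.comp_id]

omit [Fintype A] [DecidableEq A] in
theorem gen_il (Gi : Matrix A A L) (p : MvPolynomial (A × A) ℂ) :
    evm (gck Pl k (L ⊗[k] L)) (Gi.map Algebra.TensorProduct.includeLeftRingHom) p =
      evm (gck Pl k L) Gi p ⊗ₜ 1 :=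
  (V.map_evm (Algebra.TensorProduct.includeLeftRingHom : L →+* L ⊗[k] L) (gck Pl k L) Gi p).symm

omit [Fintype A] [DecidableEq A] in
theorem gen_ir (Gr : Matrix A A L) (p : MvPolynomial (A × A) ℂ) :
    evm (gck Pl k (L ⊗[k] L))
      (Gr.map (Algebra.TensorProduct.includeRight (R := k) (A := L) (B := L))) p =
      1 ⊗ₜ evm (gck Pl k L) Gr p := by
  let ir : L →ₐ[k] L ⊗[k] L := Algebra.TensorProduct.includeRight
  have cr : ir.toRingHom.comp (gck Pl k L) = gck Pl k (L ⊗[k] L) :=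
    RingHom.ext fun c => ir.commutes _
  exact Eq.trans (by rw [cr]; rfl) (V.map_evm ir.toRingHom (gck Pl k L) Gr p).symm

omit [Fintype A] [DecidableEq A] in
theorem gen_a2 (hc : ∀ p : Pl, ι (τ p) = gpk Pl k L p) (G : Matrix A A O)
    (p : MvPolynomial (A × A) ℂ) :
    evm (gck Pl k L) (G.map ι) p = ι (evm (algebraMap ℂ O) G p) := by
  rw [V.map_evm, gen_cv hc]

variable {n : Type} [Fintype n] [DecidableEq n] {ρ : Matrix n n (MvPolynomial (A × A) ℂ)}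

theorem gen_a3 (hρ : RepU.{0, 0} ρ) (κ : ℂ →+* L) {Gi Gr : Matrix A A L} (hi : Gi * Gr = 1) :
    ρ.map (evm κ Gi) * ρ.map (evm κ Gr) = 1 := by
  rw [← hρ.mul, hi]
  ext i j
  rw [map_apply, gen_one, show evm _ 1 (ρ i j) = _ from congrFun₂ hρ.one i j]
  exact congrFun₂ (Matrix.map_one κ (map_zero _) (map_one _)) i j

theorem gen_a5 (hρ : RepU.{0, 0} ρ) (Gi Gr : Matrix A A L) (b y : n → ℂ) :
    evm (gck Pl k (L ⊗[k] L)) (genX k Gi Gr)
      ((fun j => MvPolynomial.C (b j)) ⬝ᵥ (ρ *ᵥ fun j => MvPolynomial.C (y j))) =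
      (fun j => gck Pl k (L ⊗[k] L) (b j)) ⬝ᵥ
        (genX k (ρ.map (evm (gck Pl k L) Gi)) (ρ.map (evm (gck Pl k L) Gr)) *ᵥ
          fun j => gck Pl k (L ⊗[k] L) (y j)) := by
  have a4 : ρ.map (evm (gck Pl k (L ⊗[k] L)) (genX k Gi Gr)) =
      genX k (ρ.map (evm (gck Pl k L) Gi)) (ρ.map (evm (gck Pl k L) Gr)) := by
    rw [genX, hρ.mul, genX]
    congr 1 <;> ext i j
    · exact gen_il Gi (ρ i j)
    · exact gen_ir Gr (ρ i j)
  rw [← a4]
  simp only [dotProduct, mulVec, map_sum, map_mul, V.evm_C, map_apply]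

theorem gen_base {Gi Gr : Matrix A A L} (hi : Gi * Gr = 1) {p : MvPolynomial (A × A) ℂ}
    (hp : evm (gck Pl k (L ⊗[k] L)) (genX k Gi Gr) p = 0) : evm (RingHom.id ℂ) 1 p = 0 := by
  let μ : L ⊗[k] L →+* L := (Algebra.TensorProduct.lmul' k).toRingHom
  have a1 := congrArg μ hp
  have a2 : μ.comp (gck Pl k (L ⊗[k] L)) = gck Pl k L :=
    RingHom.ext fun c => (Algebra.TensorProduct.lmul' k).commutes _
  have a3 : (genX k Gi Gr).map μ = 1 := by
    rw [genX, Matrix.map_mul, ← hi]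
    congr 1 <;> ext i j
    exacts [mul_one _, one_mul _]
  rw [V.map_evm, a2, a3, gen_one, map_zero] at a1
  exact (map_eq_zero_iff _ (RingHom.injective _)).1 a1

omit [DecidableEq A] in
theorem gen_mem {κ : Type} [Fintype κ] {f : κ → MvPolynomial (A × A) ℂ}
    {ρ : Matrix κ κ (MvPolynomial (A × A) ℂ)}
    (hf : ∀ (S : Type) [CommRing S] (g : ℂ →+* S) (X Y : Matrix A A S) (a : κ),
      evm g (X * Y) (f a) = ∑ b, evm g X (ρ a b) * evm g Y (f b))
    (E : IntermediateField k L) (Gi Gr : Matrix A A L)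
    (hE : ∀ a, evm (gck Pl k L) Gr (f a) ∈ E) {p : MvPolynomial (A × A) ℂ}
    (hp : p ∈ Algebra.adjoin ℂ (Set.range f)) :
    evm (gck Pl k (L ⊗[k] L)) (genX k Gi Gr) p ∈
      AddSubmonoid.closure {w : L ⊗[k] L | ∃ x, ∃ y ∈ E, w = x ⊗ₜ y} := by
  induction hp using Algebra.adjoin_induction with
  | mem x hx =>
    obtain ⟨a, rfl⟩ := hx
    rw [genX, hf]
    refine sum_mem fun b _ => AddSubmonoid.subset_closure
      ⟨evm (gck Pl k L) Gi (ρ a b), _, hE b, ?_⟩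
    rw [gen_il, gen_ir, Algebra.TensorProduct.tmul_mul_tmul, mul_one, one_mul]
  | algebraMap r =>
    exact AddSubmonoid.subset_closure ⟨gck Pl k L r, 1, one_mem _, V.evm_C _ _ r⟩
  | add x y _ _ hx hy =>
    rw [map_add]
    exact add_mem hx hy
  | mul x y _ _ hx hy =>
    rw [map_mul]
    generalize evm (gck Pl k (L ⊗[k] L)) (genX k Gi Gr) x = u at hx
    generalize evm (gck Pl k (L ⊗[k] L)) (genX k Gi Gr) y = v at hy
    induction hx using AddSubmonoid.closure_induction with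
    | zero => simp
    | add _ _ _ _ h1 h2 =>
      rw [add_mul]
      exact add_mem h1 h2
    | mem u hu =>
      induction hy using AddSubmonoid.closure_induction with
      | zero => simp
      | add _ _ _ _ h1 h2 =>
        rw [mul_add]
        exact add_mem h1 h2
      | mem v hv =>
        obtain ⟨x, y, hy, rfl⟩ := hu
        obtain ⟨x', y', hy', rfl⟩ := hv
        exact AddSubmonoid.subset_closure
          ⟨x * x', y * y', mul_mem hy hy', Algebra.TensorProduct.tmul_mul_tmul _ _ _ _⟩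

theorem gen_reg [IsDomain Pl] [IsFractionRing Pl k] (hι : Injective ι) (hτ : Injective τ)
    (hc : ∀ p : Pl, ι (τ p) = gpk Pl k L p) {κ : Type} {g : κ → O} {𝒜 : Subring O}
    (h1 : ∀ p, τ p ∈ 𝒜) (h2 : ∀ a, g a ∈ 𝒜)
    (hC : ∀ u ∈ 𝒜, ∀ v ∈ 𝒜, ∀ (n : ℕ) (p : ℕ → Pl), v ≠ 0 → (∃ j ≤ n, p j ≠ 0) →
      ∑ j ∈ Finset.range (n + 1), τ (p j) * u ^ j * v ^ (n - j) = 0 →
      ∃ a b : Pl, b ≠ 0 ∧ τ b * u = τ a * v) :
    ∀ z ∈ IntermediateField.adjoin k (Set.range fun a => ι (g a)), IsIntegral k z →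
      z ∈ (algebraMap k L).range := fun z hz0 hz => by
  have hj : Injective (ι.comp τ.toRingHom) := hι.comp hτ
  have a1 : ∀ r ∈ Algebra.adjoin k (Set.range fun a => ι (g a)),
      ∃ d : Pl, d ≠ 0 ∧ ∃ u ∈ 𝒜, ι u = ι (τ d) * r := fun r hr => by
    induction hr using Algebra.adjoin_induction with
    | mem x hx =>
      obtain ⟨x, rfl⟩ := hx
      exact ⟨1, one_ne_zero, g x, h2 x, by simp⟩
    | algebraMap r =>
      obtain ⟨a, d, hd, rfl⟩ := IsFractionRing.div_surjective (A := Pl) r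
      refine ⟨d, nonZeroDivisors.ne_zero hd, τ a, h1 a, ?_⟩
      rw [hc, hc, gpk, RingHom.comp_apply, RingHom.comp_apply, ← map_mul,
        mul_div_cancel₀ _ (IsFractionRing.to_map_ne_zero_of_mem_nonZeroDivisors hd)]
    | add x y _ _ hx hy =>
      obtain ⟨d, d0, u, hu, e⟩ := hx
      obtain ⟨d', d0', u', hu', e'⟩ := hy
      refine ⟨d * d', mul_ne_zero d0 d0', τ d' * u + τ d * u',
        add_mem (mul_mem (h1 _) hu) (mul_mem (h1 _) hu'), ?_⟩
      simp only [map_add, map_mul, e, e']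
      ring
    | mul x y _ _ hx hy =>
      obtain ⟨d, d0, u, hu, e⟩ := hx
      obtain ⟨d', d0', u', hu', e'⟩ := hy
      refine ⟨d * d', mul_ne_zero d0 d0', u * u', mul_mem hu hu', ?_⟩
      simp only [map_mul, e, e']
      ring
  have n0 : ∀ d : Pl, d ≠ 0 → ι (τ d) ≠ 0 := fun d d0 => (map_ne_zero_iff _ hj).2 d0
  obtain ⟨r, hr, s, hs, e⟩ := IntermediateField.mem_adjoin_iff_div.1 hz0
  by_cases s0 : s = 0
  · exact ⟨0, by rw [e, s0, div_zero, map_zero]⟩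
  obtain ⟨d, d0, u, hu, e3⟩ := a1 r hr
  obtain ⟨d', d0', u', hu', e4⟩ := a1 s hs
  obtain ⟨q, q1, q2⟩ := hz
  have q3 := IsLocalization.integerNormalization_eval₂_eq_zero (nonZeroDivisors Pl) _ q q2
  have q4 : IsLocalization.integerNormalization (nonZeroDivisors Pl) q ≠ 0 :=
    mt IsFractionRing.integerNormalization_eq_zero_iff.1 q1.ne_zero
  generalize IsLocalization.integerNormalization (nonZeroDivisors Pl) q = Q at q3 q4
  have e5 : ι (τ d * u') ≠ 0 := by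
    rw [map_mul, e4]
    exact mul_ne_zero (n0 d d0) (mul_ne_zero (n0 d' d0') s0)
  have e6 : ι (τ d' * u) = z * ι (τ d * u') := by
    simp only [map_mul, e, e3, e4]
    field_simp
  obtain ⟨a, b, b0, hp⟩ := hC _ (mul_mem (h1 d') hu) _ (mul_mem (h1 d) hu') Q.natDegree Q.coeff
    (fun e7 => e5 (by rw [e7, map_zero])) ⟨_, le_rfl, Polynomial.leadingCoeff_ne_zero.2 q4⟩
    (hι (by
      rw [Polynomial.eval₂_eq_sum_range] at q3
      rw [map_zero, ← zero_mul (ι (τ d * u') ^ Q.natDegree), ← q3, Finset.sum_mul, map_sum]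
      refine Finset.sum_congr rfl fun j hj => ?_
      rw [map_mul, map_mul, map_pow, map_pow, e6, hc, mul_pow, mul_assoc, mul_assoc, mul_assoc,
        ← pow_add, Nat.add_sub_cancel' (Nat.lt_succ_iff.1 (Finset.mem_range.1 hj))]
      rfl))
  refine ⟨algebraMap _ _ a / algebraMap _ _ b, ?_⟩
  rw [map_div₀]
  change gpk Pl k L a / gpk Pl k L b = _
  replace hp := congrArg ι hp
  rw [map_mul, map_mul ι (τ a), e6, ← mul_assoc] at hp
  rw [← hc, ← hc, div_eq_iff (n0 _ b0), ← mul_right_cancel₀ e5 hp, mul_comm]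

end core

theorem gen_fld {A Pl Pl' O κ : Type} [Fintype A] [DecidableEq A] [CommRing Pl] [Algebra ℂ Pl]
    [CommRing Pl'] [Algebra ℂ Pl'] [CommRing O] [Algebra ℂ O] [IsDomain Pl]
    [Fintype κ] {τ : Pl →ₐ[ℂ] O} {ev : Pl →ₐ[ℂ] ℂ} {τ' : Pl' →ₐ[ℂ] O} {ev' : Pl' →ₐ[ℂ] ℂ}
    {cc : O →ₐ[ℂ] ℂ} {G : Matrix A A O} (k L : Type) [Field k] [Algebra Pl k]
    [IsFractionRing Pl k] [Field L] [Algebra k L] {ι : O →+* L} (hι : Injective ι)
    (hc : ∀ p : Pl, ι (τ p) = gpk Pl k L p)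
    (hτ : Injective τ) (hev' : ∀ p, cc (τ' p) = ev' p)
    (alg : ∀ p, IsAlgebraic τ.range (τ' p)) (h0 : G.map cc.toRingHom = 1)
    {f : κ → MvPolynomial (A × A) ℂ} {ρ : Matrix κ κ (MvPolynomial (A × A) ℂ)}
    (hf : ∀ (S : Type) [CommRing S] (g : ℂ →+* S) (X Y : Matrix A A S) (a : κ),
      evm g (X * Y) (f a) = ∑ b, evm g X (ρ a b) * evm g Y (f b))
    {𝒜 : Subring O} (h1 : ∀ p, τ p ∈ 𝒜) (h2 : ∀ a, evm (algebraMap ℂ O) G (f a) ∈ 𝒜)
    (hC : ∀ u ∈ 𝒜, ∀ v ∈ 𝒜, ∀ (n : ℕ) (p : ℕ → Pl), v ≠ 0 → (∃ j ≤ n, p j ≠ 0) →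
      ∑ j ∈ Finset.range (n + 1), τ (p j) * u ^ j * v ^ (n - j) = 0 →
      ∃ a b : Pl, b ≠ 0 ∧ τ b * u = τ a * v) :
    ∃ I, GG2 τ ev τ' ev' G (Algebra.adjoin ℂ (Set.range f)) I := by
  have : CharZero k := RingHom.charZero_iff (gck Pl k k).injective |>.1 inferInstance
  let k' := algebraicClosure k L
  have m' : ∀ p, ι (τ' p) ∈ k' := fun p => by
    let e := AlgEquiv.ofInjective τ hτ
    refine mem_algebraicClosure_iff.2 ((alg p).ringHom_of_comp_eq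
      ((algebraMap Pl k).comp e.symm.toRingEquiv.toRingHom) ι
      ((IsFractionRing.injective Pl k).comp e.symm.injective) (RingHom.ext fun x => ?_))
    obtain ⟨q, rfl⟩ := e.surjective x
    exact Eq.trans (congrArg (gpk Pl k L) (e.symm_apply_apply q)) (hc q).symm
  let _ : Algebra Pl' k' := ((ι.comp τ'.toRingHom).codRestrict k' m').toAlgebra
  have hc' : ∀ p : Pl', ι (τ' p) = gpk Pl' k' L p := fun p => rfl
  have : CharZero k' := RingHom.charZero_iff (algebraMap k k').injective |>.1 inferInstance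
  have : IsDomain (L ⊗[k'] L) := V.reg_field (fun z hz => by
    have := mem_algebraicClosure_iff'.2 hz
    rw [algebraicClosure.algebraicClosure_eq_bot] at this
    exact this) L
  have hi : (G.map ι)⁻¹ * G.map ι = 1 := nonsing_inv_mul _ (Ne.isUnit fun e => by
    have b2 := cc.toRingHom.map_det G
    rw [hι ((ι.map_det G).trans (e.trans (map_zero ι).symm)), map_zero,
      RingHom.mapMatrix_apply, h0, det_one] at b2
    exact zero_ne_one b2)
  generalize (G.map ι)⁻¹ = Gi at hi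
  let Φ : L ⊗[k] L →+* L ⊗[k'] L := (Algebra.TensorProduct.lift
    (Algebra.TensorProduct.includeLeft : L →ₐ[k] L ⊗[k'] L)
    ((Algebra.TensorProduct.includeRight : L →ₐ[k'] L ⊗[k'] L).restrictScalars k)
    fun _ _ => Commute.all _ _).toRingHom
  have hΦ : ∀ x y, Φ (x ⊗ₜ y) = x ⊗ₜ y := fun x y => by simp [Φ]
  have c1 : Φ.comp (gck Pl k (L ⊗[k] L)) = gck Pl' k' (L ⊗[k'] L) := RingHom.ext fun c => by
    change Φ (gck Pl k L c ⊗ₜ 1) = gck Pl' k' L c ⊗ₜ 1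
    rw [hΦ, gen_cv hc, gen_cv hc']
  have c2 : (genX k Gi (G.map ι)).map Φ = genX k' Gi (G.map ι) := by
    rw [genX, Matrix.map_mul, genX]
    congr 1 <;> ext i j <;> exact hΦ _ _
  refine ⟨RingHom.ker (evm (gck Pl' k' (L ⊗[k'] L)) (genX k' Gi (G.map ι))),
    RingHom.ker_isPrime _, fun p hp => gen_base hi (RingHom.mem_ker.1 hp),
    fun n _ _ ρ hρ y ht l hl => ?_, fun n _ _ ρ hρ y ht b hb hB => ?_⟩
  · have a1 : (ρ.map (evm (algebraMap ℂ O) G)).map cc.toRingHom = 1 := by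
      rw [← hρ.one, ← h0]
      ext i j
      exact (V.map_evm cc.toRingHom _ G (ρ i j)).trans (by
        rw [show cc.toRingHom.comp (algebraMap ℂ O) = RingHom.id ℂ from RingHom.ext cc.commutes]
        rfl)
    refine RingHom.mem_ker.2 ((gen_a5 (Pl := Pl') hρ Gi _ (fun j => ev' (l j)) y).trans ?_)
    exact gm_conv (v := AlgHom.id k' L) hι injective_id hc' hev' a1
      (Matrix.ext fun i j => gen_a2 hc' G (ρ i j)) (gen_a3 hρ _ hi) ht l hl
  · have z0 := tens_inj k' (IntermediateField.adjoin k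
      (Set.range fun a => ι (evm (algebraMap ℂ O) G (f a))))
      (fun z hz => mem_algebraicClosure_iff'.1 hz) (gen_reg hι hτ hc h1 h2 hC) Φ hΦ
      (gen_mem (Pl := Pl) hf _ Gi (G.map ι) (fun a => by
        rw [gen_a2 hc]
        exact IntermediateField.subset_adjoin _ _ ⟨a, rfl⟩) hB) (by
        rw [V.map_evm, c1, c2]
        exact RingHom.mem_ker.1 hb)
    rw [gen_a5 hρ] at z0
    exact gm_lift (v := AlgHom.id k L) hι hc
      (Matrix.ext fun i j => gen_a2 hc G (ρ i j)) (gen_a3 hρ _ hi) ht b z0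

theorem gen_frac {A Pl Pl' O κ : Type} [Fintype A] [DecidableEq A] [CommRing Pl] [Algebra ℂ Pl]
    [CommRing Pl'] [Algebra ℂ Pl'] [CommRing O] [Algebra ℂ O] [IsDomain Pl]
    [Fintype κ] {τ : Pl →ₐ[ℂ] O} {ev : Pl →ₐ[ℂ] ℂ} {τ' : Pl' →ₐ[ℂ] O} {ev' : Pl' →ₐ[ℂ] ℂ}
    {cc : O →ₐ[ℂ] ℂ} {G : Matrix A A O} (k L : Type) [Field k] [Algebra Pl k]
    [IsFractionRing Pl k] [Field L] [Algebra O L] [IsFractionRing O L]
    (hτ : Injective τ) (hev' : ∀ p, cc (τ' p) = ev' p)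
    (alg : ∀ p, IsAlgebraic τ.range (τ' p)) (h0 : G.map cc.toRingHom = 1)
    {f : κ → MvPolynomial (A × A) ℂ} {ρ : Matrix κ κ (MvPolynomial (A × A) ℂ)}
    (hf : ∀ (S : Type) [CommRing S] (g : ℂ →+* S) (X Y : Matrix A A S) (a : κ),
      evm g (X * Y) (f a) = ∑ b, evm g X (ρ a b) * evm g Y (f b))
    {𝒜 : Subring O} (h1 : ∀ p, τ p ∈ 𝒜) (h2 : ∀ a, evm (algebraMap ℂ O) G (f a) ∈ 𝒜)
    (hC : ∀ u ∈ 𝒜, ∀ v ∈ 𝒜, ∀ (n : ℕ) (p : ℕ → Pl), v ≠ 0 → (∃ j ≤ n, p j ≠ 0) →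
      ∑ j ∈ Finset.range (n + 1), τ (p j) * u ^ j * v ^ (n - j) = 0 →
      ∃ a b : Pl, b ≠ 0 ∧ τ b * u = τ a * v) :
    ∃ I, GG2 τ ev τ' ev' G (Algebra.adjoin ℂ (Set.range f)) I := by
  have hι : Injective (algebraMap O L) := IsFractionRing.injective _ _
  have hj : Injective ((algebraMap O L).comp τ.toRingHom) := hι.comp hτ
  let _ : Algebra k L := (IsFractionRing.lift hj).toAlgebra
  exact gen_fld k L hι (fun p => (IsFractionRing.lift_algebraMap hj p).symm) hτ hev' alg h0 hf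
    h1 h2 hC

theorem gg2_of {A Pl Pl' O κ : Type} [Fintype A] [DecidableEq A] [CommRing Pl] [Algebra ℂ Pl]
    [CommRing Pl'] [Algebra ℂ Pl'] [CommRing O] [Algebra ℂ O] [IsDomain Pl] [IsDomain O]
    [Fintype κ] {τ : Pl →ₐ[ℂ] O} {ev : Pl →ₐ[ℂ] ℂ} {τ' : Pl' →ₐ[ℂ] O} {ev' : Pl' →ₐ[ℂ] ℂ}
    {cc : O →ₐ[ℂ] ℂ} {G : Matrix A A O} (hτ : Injective τ) (hev' : ∀ p, cc (τ' p) = ev' p)
    (alg : ∀ p, IsAlgebraic τ.range (τ' p)) (h0 : G.map cc.toRingHom = 1)
    {f : κ → MvPolynomial (A × A) ℂ} {ρ : Matrix κ κ (MvPolynomial (A × A) ℂ)}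
    (hf : ∀ (S : Type) [CommRing S] (g : ℂ →+* S) (X Y : Matrix A A S) (a : κ),
      evm g (X * Y) (f a) = ∑ b, evm g X (ρ a b) * evm g Y (f b))
    {𝒜 : Subring O} (h1 : ∀ p, τ p ∈ 𝒜) (h2 : ∀ a, evm (algebraMap ℂ O) G (f a) ∈ 𝒜)
    (hC : ∀ u ∈ 𝒜, ∀ v ∈ 𝒜, ∀ (n : ℕ) (p : ℕ → Pl), v ≠ 0 → (∃ j ≤ n, p j ≠ 0) →
      ∑ j ∈ Finset.range (n + 1), τ (p j) * u ^ j * v ^ (n - j) = 0 →
      ∃ a b : Pl, b ≠ 0 ∧ τ b * u = τ a * v) :
    ∃ I, GG2 τ ev τ' ev' G (Algebra.adjoin ℂ (Set.range f)) I := by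
  exact gen_frac (FractionRing Pl) (FractionRing O) hτ hev' alg h0 hf h1 h2 hC

end

end Pool.Agent.Lib.MP_5591bc_ag.Cv
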