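import Pool.Agent.Lib.MP_5591bc_ag.Cv.AllX
import Pool.Agent.Lib.MP_5591bc_ag.Cv.Tame
import Pool.Agent.Lib.MP_5591bc_ag.Cu.Vhs

/-! The polarisation on the cover. -/

namespace Pool.Agent.Lib.MP_5591bc_ag.Cv

open Polynomial Set Filter Topology Matrix G M A B E Z Cu
open scoped Polynomial.Bivariate

noncomputable section

section
variable {σ 𝓡 ν : Type} [Fintype σ] [DecidableEq σ] [CommRing 𝓡] [Fintype ν] [DecidableEq ν]
  {φ : (σ → ℂ) → 𝓡 →+* ℂ} {f : 𝓡[X][Y]} {d : 𝓡[X]} {m : ℕ} {A : ν → 𝓡[X][Y]} {w : ν → ℕ}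
  {Q : (σ → ℂ) → Matrix ν ν ℂ} {t : σ → ℂ} {ψ : 𝓡 →+* ℂ} {J : Matrix ν ν ℝ} {M M' : Matrix ν ν ℂ}

theorem inv_loc (h : LF φ f d m A w Q t) (J : Matrix ν ν ℝ) : ∃ N, ∀ᶠ z in 𝓝 t, ∀ C,
    Inv2 f d m A w J (φ z) (Q z * C) ↔ Uni C ∧ C * cx J * Cᵀ = -N := by
  obtain ⟨Λ, hΛ⟩ := h.ev.self_of_nhds.lam
  refine ⟨(Q t)⁻¹ * Λ * ((Q t)⁻¹)ᵀ, ?_⟩
  filter_upwards [h.flat hΛ, h.ev] with z h1 k C
  have e : ∀ Λ', IsLam _ _ _ Λ' → (Q z * C * cx J * (Q z * C)ᵀ = -Λ' ↔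
      C * cx J * Cᵀ = -((Q t)⁻¹ * Λ * ((Q t)⁻¹)ᵀ)) := fun Λ' h' => by
    rw [h1 Λ' h']
    refine ⟨fun e => vhs_canc k.fb.2.2.2.1 ?_, fun e => ?_⟩
    · simpa only [transpose_mul, Matrix.mul_assoc, Matrix.mul_neg, Matrix.neg_mul] using e
    · simpa only [transpose_mul, Matrix.mul_assoc, Matrix.mul_neg, Matrix.neg_mul] using
        congrArg (fun X => Q z * X * (Q z)ᵀ) e
  refine ⟨fun ⟨a, Λ', b, c⟩ => ⟨(lat_mul k.fb.2.2.2).1 a.fb.2.2.2, (e _ b).1 c⟩, fun ⟨a, b⟩ => ?_⟩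
  obtain ⟨Λ', h'⟩ := k.lam
  exact ⟨⟨k.mf, k.md, k.w1, k.half, k.fb.1, k.fb.2.1, k.fb.2.2.1, (lat_mul k.fb.2.2.2).2 a⟩,
    Λ', h', (e _ h').2 b⟩

theorem Inv2.hs (h : Inv2 f d m A w J ψ M) : HS J 1 w M := by
  obtain ⟨k, Λ, h1, h2⟩ := h
  obtain ⟨J', a, -, b⟩ := k.pol h1
  obtain rfl : J = J' := Matrix.map_injective Complex.ofReal_injective
    (vhs_canc k.fb.2.2.2.1 (h2.trans b.symm))
  exact a

theorem inv_two (h : LF φ f d m A w Q t) (h1 : Inv2 f d m A w J (φ t) M)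
    (h2 : Inv2 f d m A w J (φ t) M') : ∃ γ : Matrix ν ν ℤ,
      γ.map Int.cast * J * (γ.map Int.cast)ᵀ = J ∧ M' = M * γ.map Int.cast := by
  obtain ⟨N, hN⟩ := inv_loc h J
  have q := h.ev.self_of_nhds.fb.2.2.2.1
  have m0 := h1.1.fb.2.2.2.1
  have e : ∀ X, Q t * ((Q t)⁻¹ * X) = X := fun X => mul_nonsing_inv_cancel_left _ _ q.isUnit
  have e' : M * (M⁻¹ * M') = M' := mul_nonsing_inv_cancel_left _ _ m0.isUnit
  obtain ⟨γ, hγ⟩ := ((lat_mul h1.1.fb.2.2.2).1 (e'.symm ▸ h2.1.fb.2.2.2)).int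
  have a := ((hN.self_of_nhds _).1 ((e M).symm ▸ h1)).2
  have b := ((hN.self_of_nhds _).1 ((e M').symm ▸ h2)).2
  have c : M' * cx J * M'ᵀ = M * cx J * Mᵀ := by
    have := congrArg (fun X => Q t * X * (Q t)ᵀ) (b.trans a.symm)
    simp only [← Matrix.mul_assoc, mul_nonsing_inv _ q.isUnit, Matrix.one_mul] at this
    simpa only [Matrix.mul_assoc, ← transpose_mul, e] using this
  refine ⟨γ, Matrix.map_injective Complex.ofReal_injective (vhs_canc m0 ?_), by rw [← hγ, e']⟩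
  have x : (γ.map Int.cast * J * (γ.map Int.cast)ᵀ).map Complex.ofReal =
      γ.map Int.cast * cx J * (γ.map Int.cast)ᵀ := by
    ext i j
    simp [mul_apply]
  simp only []
  rw [x, ← hγ, ← c]
  conv_rhs => rw [← e']
  simp only [transpose_mul, Matrix.mul_assoc]

theorem inv_det (h : LF φ f d m A w Q t) {R : Subring ℂ}
    (hR : ∀ r, Tame R (tayS (fun t => φ t r) t)) (hI : Inv2 f d m A w J (φ t) (Q t)) :
    IsAlgebraic R ((-(2 * Real.pi * Complex.I)⁻¹ • cx J).det * (Q t).det ^ 2) := by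
  obtain ⟨-, Λ, h1, h2⟩ := hI
  have a := h.lamA hR h1
  have e : (-(2 * Real.pi * Complex.I)⁻¹ • cx J).det * (Q t).det ^ 2 =
      (of fun i k => Λ i k / (2 * Real.pi * Complex.I)).det := by
    have : (of fun i k => Λ i k / (2 * Real.pi * Complex.I)) =
        Q t * (-(2 * Real.pi * Complex.I)⁻¹ • cx J) * (Q t)ᵀ := by
      rw [Matrix.mul_smul, Matrix.smul_mul, h2]
      ext i k
      simp [div_eq_inv_mul]
    rw [this, det_mul, det_mul, det_transpose]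
    ring
  rw [e, det_apply']
  refine (Subalgebra.algebraicClosure R ℂ).sum_mem fun π _ =>
    Subalgebra.mul_mem _ (Subalgebra.intCast_mem _ _) (Subalgebra.prod_mem _ fun i _ => a _ _)

end

variable {σ K ν : Type} [Field K] [NumberField K] [Algebra K ℂ] [Fintype σ] [DecidableEq σ]
  [Fintype ν] [DecidableEq ν] {T : MvPolynomial σ K} {q : (MvPolynomial σ K)[X]} {r n m : ℕ}
  {B : σ → Matrix ν ν (MvPolynomial σ K)[X]} {U U' V V' : Set (σ → ℂ)}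
  {P P' : (σ → ℂ) → Matrix (Option ν) (Option ν) ℂ} {s t : σ → ℂ} {z : ℂ} {w : ν → ℕ}
  {J : Matrix ν ν ℝ}
  {f : (MvPolynomial σ K)[X][X][Y]} {d : (MvPolynomial σ K)[X][X]}
  {A : ν → (MvPolynomial σ K)[X][X][Y]} {R : Fin r → (σ → ℂ) → Matrix (Option ν) (Option ν) ℂ}
  {Bh : σ → Matrix (Ix ν r) (Ix ν r) (MvPolynomial σ K)}

theorem inv_dom (h : Fam2 T q r B f d m A w) (ho : IsOpen U) (hU : IsPreconnected U)
    (hP : FundS T q B U P) (hs : s ∈ U) (ht : t ∈ U) (s0 : MvPolynomial.aeval s T ≠ 0)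
    (t0 : MvPolynomial.aeval t T ≠ 0)
    (hI : Inv2 f d m A w J (evz s (P s none none)) (bl (P s))) :
    Inv2 f d m A w J (evz t (P t none none)) (bl (P t)) := by
  refine mono_ind (I := fun x => Inv2 f d m A w J (evz x (P x none none)) (bl (P x))) h.cv.T0 ho hU
    (fun x hx x0 => ?_) hs ht s0 t0 hI
  obtain ⟨V, hV, Q, e, hQ⟩ := h.cov x _ x0 (hP x hx).2.2.1
  obtain ⟨N, hN⟩ := inv_loc (h.lf hQ hV) J
  have u := FundS.uniq h.cv hQ.1 hP hV (ho.mem_nhds hx) x0 e.symm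
    (h.fb hQ (mem_of_mem_nhds hV)).fb.2.2.2.1
  have k : ∀ᶠ y in 𝓝 x, Inv2 f d m A w J (evz y (P y none none)) (bl (P y)) ↔
      Uni ((bl (Q x))⁻¹ * bl (P x)) ∧
        (bl (Q x))⁻¹ * bl (P x) * cx J * ((bl (Q x))⁻¹ * bl (P x))ᵀ = -N :=
    (u.and hN).mono fun y hy => by
      rw [hy.1.1, hy.1.2]
      exact hy.2 _
  exact k.mono fun y hy => hy.trans k.self_of_nhds.symm

theorem inv_cont (h : Fam2 T q r B f d m A w) (ho : IsOpen U) (hU : IsPreconnected U)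
    (hP : FundS T q B U P) (hs : s ∈ U) (s0 : MvPolynomial.aeval s T ≠ 0)
    (hI : Inv2 f d m A w J (evz s (P s none none)) (bl (P s))) (k : ContM U P U' P') :
    ∀ t ∈ U', MvPolynomial.aeval t T ≠ 0 →
      Inv2 f d m A w J (evz t (P' t none none)) (bl (P' t)) := by
  induction k with
  | base => exact fun t ht t0 => inv_dom h ho hU hP hs ht s0 t0 hI
  | step V V' Q Q' x k o c a x1 x2 e ih =>
    obtain ⟨y, y0, y1, y2, y3⟩ := ((mono_freq h.cv.T0 x).and_eventually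
      (e.and (Filter.Eventually.and ((hP.cont ho hU k).1.mem_nhds x1) (o.mem_nhds x2)))).exists
    exact fun t ht t0 => inv_dom h o c (hP.cont ho hU (.step _ _ _ _ _ k o c a x1 x2 e)).2.2 y3 ht
      y0 t0 (y1 ▸ ih y y2 y0)

theorem Fam2.pol (h : Fam2 T q r B f d m A w) (ho : IsOpen U) (hU : IsPreconnected U)
    (hne : U.Nonempty) (hP : PerS T q B f d m A w U P) : ∃ J, PolS T U P J w ∧ ∃ c : ℂ, c ≠ 0 ∧
      ∀ t ∈ U, MvPolynomial.aeval t T ≠ 0 → IsAlgebraic (Rt t) (c * (bl (P t)).det ^ 2) := by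
  obtain ⟨s, hs, hg⟩ := gen_ex (σ := σ) K ho hne
  have s0 : MvPolynomial.aeval s T ≠ 0 := fun e => h.cv.T0 (hg _ e)
  obtain ⟨Λ, hΛ⟩ := (h.fb hP hs).lam
  obtain ⟨J, -, J0, hJ⟩ := (h.fb hP hs).pol hΛ
  have I' := fun U' P' (k : ContM U P U' P') =>
    inv_cont h ho hU hP.1 hs s0 (J := J) ⟨h.fb hP hs, Λ, hΛ, hJ⟩ k
  refine ⟨J, ⟨fun U' P' k t ht t0 => ⟨(I' _ _ k t ht t0).hs, (I' _ _ k t ht t0).1.fb.2.2.2.1⟩,
    fun U₁ P₁ U₂ P₂ k₁ k₂ t t1 t2 e => ?_⟩, (-(2 * Real.pi * Complex.I)⁻¹ • cx J).det, ?_,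
    fun t ht t0 => inv_det (h.lf hP (ho.mem_nhds ht)) (tame2 h.cv t0 ((hP.1 t ht).1 _ _)
      (mem_of_superset (ho.mem_nhds ht) fun x hx => (hP.1 x hx).2.2.1)) (I' _ _ .base t ht t0)⟩
  · obtain ⟨o1, -, f1⟩ := hP.1.cont ho hU k₁
    obtain ⟨o2, -, f2⟩ := hP.1.cont ho hU k₂
    obtain ⟨ρ, ρ0, hρ⟩ := Metric.eventually_nhds_iff_ball.1
      (e.and (Filter.Eventually.and (o1.mem_nhds t1) (o2.mem_nhds t2)))
    obtain ⟨y, y0, y1⟩ := ((mono_freq h.cv.T0 t).and_eventually (Metric.ball_mem_nhds t ρ0)).exists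
    obtain ⟨y2, y3, y4⟩ := hρ y y1
    obtain ⟨V, hV, Q, e', hQ⟩ := h.cov y _ y0 (f1 y y3).2.2.1
    have i1 := I' _ _ k₁ y y3 y0
    obtain ⟨γ, g1, g2⟩ := inv_two (h.lf hQ hV) (e'.symm ▸ i1) (e'.symm ▸ y2 ▸ I' _ _ k₂ y y4 y0)
    have d1 := i1.1.fb.2.2.2.1
    have u := FundS.uniq h.cv f1 f2 (o1.mem_nhds y3) (o2.mem_nhds y4) y0 y2 d1
    rw [g2, nonsing_inv_mul_cancel_left _ _ d1.isUnit] at u
    refine ⟨γ, g1, mem_of_superset (Metric.ball_mem_nhds t ρ0) fun x hx => Matrix.ext fun i j => ?_⟩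
    refine AnalyticOnNhd.eqOn_of_preconnected_of_eventuallyEq (𝕜 := ℂ)
      (f := fun x => bl (P₂ x) i j) 
      (g := fun x => (bl (P₁ x) * γ.map Int.cast : Matrix ν ν ℂ) i j)
      (fun x hx => (f2 x (hρ x hx).2.2).1 _ _) (fun x hx => ?_) (convex_ball _ _).isPreconnected y1
      (u.mono fun x hx => congrFun₂ hx.2 i j) hx
    simp only [mul_apply]
    exact Finset.analyticAt_fun_sum _ fun a _ =>
      ((f1 x (hρ x hx).2.1).1 _ _).fun_mul analyticAt_const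
  · have e : (cx J).det = ((J.det : ℝ) : ℂ) := (Complex.ofRealHom.map_det J).symm
    rw [det_smul, e]
    exact mul_ne_zero (pow_ne_zero _ (by simp [Real.pi_ne_zero])) (Complex.ofReal_ne_zero.2 J0)

end

end Pool.Agent.Lib.MP_5591bc_ag.Cv
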