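import Pool.Agent.Lib.MP_5591bc_ag.Cv.Down

/-! From the cover to the direct image. -/

namespace Pool.Agent.Lib.MP_5591bc_ag.Cv

open Polynomial Set Filter Topology Matrix G M A B E Z Cu
open scoped Polynomial.Bivariate

noncomputable section

variable {σ K ν : Type} [Field K] [NumberField K] [Algebra K ℂ] [Fintype σ] [DecidableEq σ]
  [Fintype ν] [DecidableEq ν] {T : MvPolynomial σ K} {q : (MvPolynomial σ K)[X]} {r n m : ℕ}
  {B : σ → Matrix ν ν (MvPolynomial σ K)[X]} {U U' V V' : Set (σ → ℂ)}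
  {P P' : (σ → ℂ) → Matrix (Option ν) (Option ν) ℂ} {s t : σ → ℂ} {z : ℂ} {w : ν → ℕ}
  {J : Matrix ν ν ℝ}
  [NeZero r] [NeZero n] {B2 : σ → Matrix (Iy ν r n) (Iy ν r n) (MvPolynomial σ K)}
  {Ph Ph' : (σ → ℂ) → Matrix (Iy ν r n) (Iy ν r n) ℂ} {Z : Matrix (Iy ν r n) (Iy ν r n) ℂ}
  {M : Matrix (Option ν) (Option ν) ℂ}

/-- some continuation of `Ph` has the first columns of `Q` near `x` -/
def LfI (T : MvPolynomial σ K) (B2 : σ → Matrix (Iy ν r n) (Iy ν r n) (MvPolynomial σ K))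
    (V : Set (σ → ℂ)) (Ph : (σ → ℂ) → Matrix (Iy ν r n) (Iy ν r n) ℂ)
    (Q : (σ → ℂ) → Matrix (Option ν) (Option ν) ℂ) (x : σ → ℂ) : Prop :=
  ∃ W Ψ, IsOpen W ∧ x ∈ W ∧ ContM V Ph W Ψ ∧ FundM T B2 W Ψ ∧ ∀ᶠ y in 𝓝 x, Shp (Ψ y) (Q y)

theorem lf_loc (hL : Loc T B2) (ho : IsOpen U') (a : ∀ x ∈ U', ∀ i j,
    AnalyticAt ℂ (fun y => P' y i j) x) (ht : t ∈ U') (hT : MvPolynomial.aeval t T ≠ 0) :
    ∃ D, IsOpen D ∧ IsPreconnected D ∧ t ∈ D ∧ D ⊆ U' ∧ ∀ x ∈ D, LfI T B2 V Ph P' x →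
      ∃ Ψ, ContM V Ph D Ψ ∧ FundM T B2 D Ψ ∧ ∀ y ∈ D, Shp (Ψ y) (P' y) := by
  obtain ⟨W, G, o, tW, hG⟩ := hL t hT
  obtain ⟨ρ, ρ0, hρ⟩ := Metric.eventually_nhds_iff_ball.1 (((aeval_ana T).continuousAt.eventually_ne
    hT).and (Filter.Eventually.and (ho.mem_nhds ht) (o.mem_nhds tW)))
  have c := (convex_ball t ρ).isPreconnected
  refine ⟨_, Metric.isOpen_ball, c, Metric.mem_ball_self ρ0, fun x hx => (hρ x hx).2.1, ?_⟩
  rintro x hx ⟨W', Ψ, o', xW, k, hY, e⟩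
  have e1 := fund_uniq o' o hY hG xW (hρ x hx).2.2 (hρ x hx).1
  have f : FundM T B2 (Metric.ball t ρ) fun y => G y * ((G x)⁻¹ * Ψ x) := fun y hy =>
    fund_mul hG (by
      rw [det_mul]
      exact mul_ne_zero (isUnit_nonsing_inv_det _ (hG x (hρ x hx).2.2).1.isUnit).ne_zero
        (hY x xW).1) y (hρ y hy).2.2
  refine ⟨_, .step _ _ _ _ x k Metric.isOpen_ball c (fun i j y hy => ((f y hy).2 i j).1) xW hx e1,
    f, fun y hy i j => ?_⟩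
  have a1 : AnalyticOnNhd ℂ (fun y => (G y * ((G x)⁻¹ * Ψ x)) i (i0 r n j)) (Metric.ball t ρ) :=
    fun y hy => ((f y hy).2 _ _).1
  have a2 : AnalyticOnNhd ℂ (fun y => if i.2 = 0 then col r (P' y) i.1 j else 0)
      (Metric.ball t ρ) := fun y hy => by
    have b := a y (hρ y hy).2.1
    simp only [col, of_apply]
    split_ifs
    exacts [((b _ _).fun_pow _).fun_mul analyticAt_const, ((b _ _).fun_pow _).fun_mul (b _ _),
      analyticAt_const]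
  refine a1.eqOn_of_preconnected_of_eventuallyEq a2 c hx ?_ hy
  filter_upwards [e, e1] with y h1 h2
  rw [← h2]
  exact h1 i j

theorem lf_all (T0 : T ≠ 0) (hL : Loc T B2) (ho : IsOpen U') (hc : IsPreconnected U')
    (a : ∀ x ∈ U', ∀ i j, AnalyticAt ℂ (fun y => P' y i j) x) (ht : t ∈ U')
    (hT : MvPolynomial.aeval t T ≠ 0) (h : LfI T B2 V Ph P' t) (hs : s ∈ U')
    (hS : MvPolynomial.aeval s T ≠ 0) : LfI T B2 V Ph P' s := by
  refine mono_ind T0 ho hc (fun x hx x0 => ?_) ht hs hT hS h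
  obtain ⟨D, o, -, xD, -, k⟩ := lf_loc (V := V) (Ph := Ph) hL ho a hx x0
  have m : ∀ y ∈ D, ∀ y' ∈ D, LfI T B2 V Ph P' y → LfI T B2 V Ph P' y' := fun y hy y' hy' i => by
    obtain ⟨Ψ, y1, y2, y3⟩ := k y hy i
    exact ⟨D, Ψ, o, hy', y1, y2, eventually_of_mem (o.mem_nhds hy') y3⟩
  filter_upwards [o.mem_nhds xD] with y hy
  exact ⟨m y hy x xD, m x xD y hy⟩

theorem Up.lift (h : Up T q B B2 U P V Ph) (k : ContM U P U' P') (hs : s ∈ U')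
    (hT : MvPolynomial.aeval s T ≠ 0) :
    ∃ V' Ph', s ∈ V' ∧ ContM V Ph V' Ph' ∧ Up T q B B2 U' P' V' Ph' := by
  have hL : Loc T B2 := loc_fund h.op h.ne h.fm h.cv.T0
  have key : ∀ s ∈ U', MvPolynomial.aeval s T ≠ 0 → LfI T B2 V Ph P' s := by
    clear hs hT
    induction k with
    | base =>
      intro s hs hT
      obtain ⟨x, hx⟩ := h.ne
      obtain ⟨y, y0, hy⟩ := ((mono_freq h.cv.T0 x).and_eventually (h.op.mem_nhds hx)).exists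
      exact lf_all h.cv.T0 hL h.ho h.hc (fun x hx => (h.fs x hx).1) (h.sub hy) y0
        ⟨V, Ph, h.op, hy, .base, h.fm, eventually_of_mem (h.op.mem_nhds hy) h.sh⟩ hs hT
    | step U1 U2 P1 P2 x k1 o c a x1 x2 e ih =>
      intro s hs hT
      obtain ⟨y, y0, ⟨y1, y2⟩, y3⟩ := ((mono_freq h.cv.T0 x).and_eventually
        ((Filter.Eventually.and ((h.fs.cont h.ho h.hc k1).1.mem_nhds x1) (o.mem_nhds x2)).and
          e.eventually_nhds)).exists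
      obtain ⟨W, Ψ, w1, w2, w3, w4, w5⟩ := ih y y1 y0
      refine lf_all h.cv.T0 hL o c (fun x hx i j => a i j x hx) y2 y0
        ⟨W, Ψ, w1, w2, w3, w4, ?_⟩ hs hT
      filter_upwards [w5, y3] with u u1 u2
      exact u2 ▸ u1
  obtain ⟨o, c, f⟩ := h.fs.cont h.ho h.hc k
  obtain ⟨D, d1, d2, d3, d4, d5⟩ :=
    lf_loc (V := V) (Ph := Ph) hL o (fun x hx => (f x hx).1) hs hT
  obtain ⟨Ψ, y1, y2, y3⟩ := d5 s d3 (key s hs hT)
  exact ⟨D, Ψ, d3, y1, h.cv, o, c, f, d1, d2, ⟨s, d3⟩, d4, y2, y3⟩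

end

end Pool.Agent.Lib.MP_5591bc_ag.Cv
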