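import Pool.Agent.Lib.MP_5591bc_ag.Cv.SetW

/-! Membership in the ideal of the identity component. -/

namespace Pool.Agent.Lib.MP_5591bc_ag.Cv

open Matrix Finset Function G R M J MvPowerSeries
open V (evm)

noncomputable section

variable {A σ Pl Pl' : Type} [Fintype A] [DecidableEq A] [CommRing Pl] [Algebra ℂ Pl]
  [CommRing Pl'] [Algebra ℂ Pl'] {τ : Pl →ₐ[ℂ] MvPowerSeries σ ℂ}
  {τ' : Pl' →ₐ[ℂ] MvPowerSeries σ ℂ} {ev : Pl →ₐ[ℂ] ℂ} {ev' : Pl' →ₐ[ℂ] ℂ}
  {t : MvPowerSeries σ ℂ} {G : Matrix A A (MvPowerSeries σ ℂ)}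
  {𝓑 : Subalgebra ℂ (MvPolynomial (A × A) ℂ)} {I : Ideal (MvPolynomial (A × A) ℂ)}

theorem mem_tay {δ : σ → Pl → Pl} {B : σ → Matrix A A Pl} (ht : IsUnit t)
    (hδ : ∀ l a, τ (δ l a) = t * pderiv ℂ l (τ a)) (h0 : G.map constantCoeff = 1)
    (ode : ∀ l, t • G.map (pderiv ℂ l) = (B l).map τ * G) (d : ℕ) :
    GTay τ ((ccM σ).comp τ) (piM fun _ : Fin d => exg 1 G) (V.vk d 1) :=
  gtay_of (B := fun l => tB (Fin d) (exg 0 (B l))) ht hδ (by
    rw [piM_map, exg_map _ (map_zero _), map_one, h0, exg_one, piM_one]) (fun l => by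
      rw [show (tB (Fin d) (exg 0 (B l))).map τ = tB (Fin d) (exg 0 ((B l).map τ)) from
        (tB_map τ.toRingHom (exg 0 (B l))).trans (congrArg (tB (Fin d))
          ((exg_map _ (map_zero _) 0 (B l)).trans (congrArg (exg · _) (map_zero _))))]
      refine gm_piM _ ?_
      rw [exg_map _ (map_zero _), exg_smul, exg_mul, ode]
      simp) _

theorem mem_e0 (G : Matrix A A (MvPowerSeries σ ℂ)) (d : ℕ) :
    (piM fun _ : Fin d => exg 1 (V.Xm A)).map (evm (algebraMap ℂ _) G) =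
      piM fun _ => exg 1 G := by
  rw [piM_map, exg_map _ (map_zero _), map_one, V.Xm_map]

theorem mem_e1 (d : ℕ) (c : V.Mo A d → Pl) : gev τ G ((fun μ => MvPolynomial.C (c μ)) ⬝ᵥ
    V.vk d (of fun i j => MvPolynomial.X (i, j))) = (fun μ => τ (c μ)) ⬝ᵥ V.vk d G :=
  V.rep_eval c τ.toRingHom G

theorem mem_e2 (d : ℕ) (c : V.Mo A d → Pl) : MvPolynomial.map ev.toRingHom
    ((fun μ => MvPolynomial.C (c μ)) ⬝ᵥ V.vk d (of fun i j => MvPolynomial.X (i, j))) =
      (fun μ => MvPolynomial.C (ev (c μ))) ⬝ᵥ V.vk d (V.Xm A) :=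
  (DFunLike.congr_fun (MvPolynomial.map_eq_eval₂Hom_C_comp _) _).trans
    (V.rep_eval c (MvPolynomial.C.comp ev.toRingHom) (V.Xm A))

/-- edited copy of the second half of `GGen.mem_iff` -/
theorem GG2.of_rel (h : GG2 τ ev τ' ((ccM σ).comp τ') G 𝓑 I) {δ : σ → Pl' → Pl'}
    {B : σ → Matrix A A Pl'} (ht : IsUnit t) (hδ : ∀ l a, τ' (δ l a) = t * pderiv ℂ l (τ' a))
    (h0 : G.map constantCoeff = 1) (ode : ∀ l, t • G.map (pderiv ℂ l) = (B l).map τ' * G)
    {q : MvPolynomial (A × A) Pl'} (hq : gev τ' G q = 0) :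
    MvPolynomial.map ((ccM σ).comp τ').toRingHom q ∈ I := by
  obtain ⟨c, hc⟩ := V.rep (p := q) le_rfl
  rw [hc] at hq
  rw [hc, mem_e2]
  have := h.conv _ _ (repU_exg.piM (Fin q.totalDegree)) (V.vk _ 1)
    (mem_e0 G _ ▸ mem_tay ht hδ h0 ode _) c
  rw [mem_e0, V.vk, V.gal_tens, V.gal_tens] at this
  exact this ((mem_e1 _ c).symm.trans hq)

/-- edited copy of the first half of `GGen.mem_iff` -/
theorem GG2.to_rel (h : GG2 τ ((ccM σ).comp τ) τ' ev' G 𝓑 I) {δ : σ → Pl → Pl}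
    {B : σ → Matrix A A Pl} (ht : IsUnit t) (hδ : ∀ l a, τ (δ l a) = t * pderiv ℂ l (τ a))
    (h0 : G.map constantCoeff = 1) (ode : ∀ l, t • G.map (pderiv ℂ l) = (B l).map τ * G)
    {Q : MvPolynomial (A × A) ℂ} (hQ : Q ∈ I) (hB : Q ∈ 𝓑) :
    ∃ q : MvPolynomial (A × A) Pl, gev τ G q = 0 ∧
      MvPolynomial.map ((ccM σ).comp τ).toRingHom q = Q := by
  obtain ⟨c, hc⟩ := V.rep (p := Q) le_rfl
  have := h.lift _ _ (repU_exg.piM (Fin Q.totalDegree)) (V.vk _ 1)
    (mem_e0 G _ ▸ mem_tay ht hδ h0 ode _) c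
  rw [mem_e0, V.vk, V.gal_tens, V.gal_tens] at this
  obtain ⟨l, l1, l2⟩ := this (by rw [hc] at hQ; exact hQ) (by rw [hc] at hB; exact hB)
  refine ⟨_, (mem_e1 _ l).trans l1, (mem_e2 _ l).trans ?_⟩
  simp only [l2]
  exact hc.symm

theorem djP_ev {ν : Type} [Fintype ν] [DecidableEq ν] (C0 c : Matrix ν ν ℂ) {S : Type} [CommRing S]
    (g : ℂ →+* S) (Z : Matrix ν ν S) (o : Option (ν × ν)) : evm g Z (djP C0 c o) =
      o.elim (Z * c.map g).det
        fun a => (C0.map g * (Z * c.map g).adjugate : Matrix ν ν S) a.1 a.2 := by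
  have e : (V.Xm ν * c.map MvPolynomial.C).map (evm g Z) = Z * c.map g := by
    rw [Matrix.map_mul, V.Xm_map, Matrix.map_map]
    congr 2
    exact funext fun x => V.evm_C g Z x
  cases o with
  | none => exact (RingHom.map_det (evm g Z) _).trans (congrArg det e)
  | some a =>
    have e1 : (C0.map MvPolynomial.C).map (evm g Z) = C0.map g := by
      rw [Matrix.map_map]
      congr 1
      exact funext fun x => V.evm_C g Z x
    have e2 := RingHom.map_adjugate (evm g Z) (V.Xm ν * c.map MvPolynomial.C)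
    rw [RingHom.mapMatrix_apply, RingHom.mapMatrix_apply, e] at e2
    change ((C0.map MvPolynomial.C * (V.Xm ν * c.map MvPolynomial.C).adjugate).map (evm g Z))
      a.1 a.2 = _
    rw [Matrix.map_mul, e1, e2]
    rfl

theorem djP_mul {ν : Type} [Fintype ν] [DecidableEq ν] (C0 c : Matrix ν ν ℂ) :
    ∃ ρ : Matrix (Option (ν × ν)) (Option (ν × ν)) (MvPolynomial (ν × ν) ℂ),
      ∀ (S : Type) [CommRing S] (g : ℂ →+* S) (X Y : Matrix ν ν S) (a : Option (ν × ν)),
        evm g (X * Y) (djP C0 c a) = ∑ b, evm g X (ρ a b) * evm g Y (djP C0 c b) := by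
  refine ⟨of fun a b => a.elim (b.elim (V.Xm ν).det fun _ => 0) fun a => b.elim 0 fun b =>
    if a.1 = b.1 then (V.Xm ν).adjugate b.2 a.2 else 0, fun S _ g X Y a => ?_⟩
  have e1 : evm g X (V.Xm ν).det = X.det :=
    (RingHom.map_det (evm g X) _).trans (congrArg det (V.Xm_map g X))
  have e2 : ∀ i j, evm g X ((V.Xm ν).adjugate i j) = X.adjugate i j := fun i j => by
    have := RingHom.map_adjugate (evm g X) (V.Xm ν)
    rw [RingHom.mapMatrix_apply, RingHom.mapMatrix_apply, V.Xm_map] at this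
    exact congrFun₂ this i j
  simp only [djP_ev, Fintype.sum_option, of_apply]
  cases a with
  | none => simp [e1, Matrix.mul_assoc]
  | some a =>
    simp only [Option.elim, map_zero, zero_mul, zero_add, Fintype.sum_prod_type,
      apply_ite (evm g X), e2, ite_mul, Matrix.mul_assoc X, adjugate_mul_distrib X,
      ← Matrix.mul_assoc (C0.map g)]
    rw [sum_comm, mul_apply]
    exact sum_congr rfl fun k _ => by simp [mul_comm]

theorem DJ.mem {ν : Type} [Fintype ν] [DecidableEq ν] {C0 c : Matrix ν ν ℂ}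
    {Q : MvPolynomial (ν × ν) ℂ} (h : DJ C0 c Q) :
    Q ∈ Algebra.adjoin ℂ (Set.range (djP C0 c)) := by
  obtain ⟨G, hG⟩ := h
  have e : Q = MvPolynomial.aeval (djP C0 c) G := MvPolynomial.funext fun z => by
    have h1 := hG (of fun i j => z (i, j))
    rw [show (fun a : ν × ν => (of fun i j => z (i, j) : Matrix ν ν ℂ) a.1 a.2) = z from rfl] at h1
    rw [h1, MvPolynomial.aeval_def, MvPolynomial.eval_eval₂, ← MvPolynomial.eval₂_id]
    congr 1
    · ext x; simp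
    · funext o
      have := djP_ev C0 c (RingHom.id ℂ) (of fun i j => z (i, j)) o
      exact this.symm
  rw [Algebra.adjoin_range_eq_range_aeval]
  exact ⟨G, e.symm⟩

end

end Pool.Agent.Lib.MP_5591bc_ag.Cv
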