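import Pool.Agent.Lib.MP_5591bc_ag.Cv.SetW
import Pool.Agent.Lib.MP_5591bc_ag.B.Null

/-! The fibre of the closure acts on the relations. -/

namespace Pool.Agent.Lib.MP_5591bc_ag.Cv

open Matrix Filter Topology MvPowerSeries G R W M A N J B

noncomputable section

variable {σ K ν : Type} [Fintype σ] [DecidableEq σ] [Field K] [Algebra K ℂ] [Fintype ν]
  [DecidableEq ν] {T : MvPolynomial σ K} {B : σ → Matrix ν ν (MvPolynomial σ K)}
  {U : Set (σ → ℂ)} {P : (σ → ℂ) → Matrix ν ν ℂ} {C1 C0 : Matrix ν ν ℂ} {s : σ → ℂ}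

omit [Fintype σ] [DecidableEq σ] in
theorem nr_der {α : Type} {y : α → MvPowerSeries σ ℂ} {t : MvPowerSeries σ ℂ} {l : σ}
    {w : α → MvPolynomial α ℂ} (h : ∀ o, t * pderiv ℂ l (y o) = MvPolynomial.aeval y (w o))
    (H : MvPolynomial α ℂ) : t * pderiv ℂ l (MvPolynomial.aeval y H) =
      MvPolynomial.aeval y (MvPolynomial.mkDerivation ℂ w H) := by
  induction H using MvPolynomial.induction_on with
  | C a => rw [MvPolynomial.derivation_C, MvPolynomial.aeval_C, Derivation.map_algebraMap,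
      mul_zero, map_zero]
  | add p q hp hq => simp only [map_add, mul_add, hp, hq]
  | mul_X p o hp =>
    simp only [map_mul, Derivation.leibniz, smul_eq_mul, map_add, MvPolynomial.aeval_X,
      MvPolynomial.mkDerivation_X, ← hp, ← h]
    ring

theorem nr_ode (hP : FundM T B U P) {t : σ → ℂ} (ht : t ∈ U) (c : Matrix ν ν ℂ) (i j : ν) (l : σ) :
    MvPolynomial.aeval t T * fderiv ℂ (fun z => (P z * c) i j) t (Pi.single l 1) =
      ∑ a, MvPolynomial.aeval t (B l i a) * (P t * c) a j := by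
  have ha := fun a => ((hP t ht).2 i a).1.differentiableAt
  simp only [mul_apply]
  rw [fderiv_fun_sum fun a _ => (ha a).mul_const _]
  simp only [fderiv_mul_const (ha _), _root_.sum_apply, _root_.smul_apply,
    smul_eq_mul, Finset.mul_sum]
  rw [Finset.sum_comm]
  refine Finset.sum_congr rfl fun a _ => ?_
  rw [mul_left_comm, ((hP t ht).2 i a).2 l, Finset.mul_sum]
  exact Finset.sum_congr rfl fun b _ => by ring

/-- the functions `t`, `P C1`, `P g` -/
def nrF (P : (σ → ℂ) → Matrix ν ν ℂ) (C1 g : Matrix ν ν ℂ) (o : σ ⊕ (ν × ν) ⊕ (ν × ν))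
    (t : σ → ℂ) : ℂ :=
  Sum.elim t (Sum.elim (fun a => (P t * C1) a.1 a.2) fun a => (P t * g) a.1 a.2) o

theorem nrF_ana (hP : FundM T B U P) (hs : s ∈ U) (g : Matrix ν ν ℂ)
    (o : σ ⊕ (ν × ν) ⊕ (ν × ν)) : AnalyticAt ℂ (nrF P C1 g o) s := by
  rcases o with m | a | a
  · exact coord_ana m
  · exact serG_ana hP C1 hs a.1 a.2
  · exact serG_ana hP g hs a.1 a.2

theorem nrF_ode (hP : FundM T B U P) (C1 : Matrix ν ν ℂ) (l : σ) :
    ∃ w : σ ⊕ (ν × ν) ⊕ (ν × ν) → MvPolynomial (σ ⊕ (ν × ν) ⊕ (ν × ν)) ℂ, ∀ g o, ∀ t ∈ U,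
      MvPolynomial.aeval t T * fderiv ℂ (nrF P C1 g o) t (Pi.single l 1) =
        MvPolynomial.aeval (nrF P C1 g · t) (w o) := by
  have hq : ∀ q : MvPolynomial σ K, ∃ r : MvPolynomial (σ ⊕ (ν × ν) ⊕ (ν × ν)) ℂ, ∀ g t,
      MvPolynomial.aeval (nrF P C1 g · t) r = MvPolynomial.aeval t q := fun q =>
    ⟨MvPolynomial.rename Sum.inl (q.map (algebraMap K ℂ)), fun g t => by
      rw [MvPolynomial.aeval_rename, MvPolynomial.aeval_map_algebraMap]
      rfl⟩
  choose r hr using hq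
  refine ⟨Sum.elim (fun m => r T * MvPolynomial.C ((Pi.single l 1 : σ → ℂ) m)) (Sum.elim
    (fun a => ∑ k, r (B l a.1 k) * MvPolynomial.X (.inr (.inl (k, a.2))))
    fun a => ∑ k, r (B l a.1 k) * MvPolynomial.X (.inr (.inr (k, a.2)))), fun g o t ht => ?_⟩
  rcases o with m | a | a
  · have : fderiv ℂ (nrF P C1 g (.inl m)) t = ContinuousLinearMap.proj m :=
      (hasFDerivAt_apply m t).fderiv
    rw [this, Sum.elim_inl, map_mul, hr, MvPolynomial.aeval_C]
    rfl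
  · refine (nr_ode hP ht C1 a.1 a.2 l).trans ?_
    simp only [Sum.elim_inr, Sum.elim_inl, map_sum, map_mul, hr, MvPolynomial.aeval_X]
    rfl
  · refine (nr_ode hP ht g a.1 a.2 l).trans ?_
    simp only [Sum.elim_inr, map_sum, map_mul, hr, MvPolynomial.aeval_X]
    rfl

theorem fb_near (ho : IsOpen U) (hP : FundM T B U P) (hs : s ∈ U)
    (hT : MvPolynomial.aeval s T ≠ 0) {g : Matrix ν ν ℂ} (hg : g ∈ Fb P C1 s)
    {H : MvPolynomial (σ ⊕ (ν × ν) ⊕ (ν × ν)) ℂ}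
    (h : ∀ᶠ t in 𝓝 s, MvPolynomial.eval (Sum.elim t (Sum.elim (fun a => (P t * C1) a.1 a.2)
      fun a => P t a.1 a.2)) H = 0) :
    ∀ᶠ t in 𝓝 s, MvPolynomial.eval (Sum.elim t (Sum.elim (fun a => (P t * C1) a.1 a.2)
      fun a => (P t * g) a.1 a.2)) H = 0 := by
  have hA := fun (g : Matrix ν ν ℂ) (H : MvPolynomial (σ ⊕ (ν × ν) ⊕ (ν × ν)) ℂ) =>
    tayM_mv (nrF_ana (C1 := C1) hP hs g) H
  have hZ : ∀ (g : Matrix ν ν ℂ) (H : MvPolynomial (σ ⊕ (ν × ν) ⊕ (ν × ν)) ℂ),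
      MvPolynomial.aeval (fun o => tayM (nrF P C1 g o) s) H = 0 ↔
      ∀ᶠ t in 𝓝 s, MvPolynomial.eval (Sum.elim t (Sum.elim (fun a => (P t * C1) a.1 a.2)
        fun a => (P t * g) a.1 a.2)) H = 0 := fun g H => by
    rw [← (hA g H).2, tayM_eq_zero_iff (hA g H).1]
    rfl
  have hZ1 := hZ 1
  simp only [Matrix.mul_one] at hZ1
  have hu : IsUnit (tayM (fun t => MvPolynomial.aeval t T) s) := by
    rw [isUnit_iff_constantCoeff, constantCoeff_tayM (aeval_ana T)]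
    exact hT.isUnit
  choose w hw using nrF_ode hP C1
  have hD : ∀ l g H, _ := fun l g H => nr_der (y := fun o => tayM (nrF P C1 g o) s)
    (t := tayM (fun t => MvPolynomial.aeval t T) s) (l := l) (w := w l) (fun o => by
      rw [← (hA g (w l o)).2, ← tayM_pd (nrF_ana hP hs g o)]
      exact (tayM_mul (aeval_ana T) (pd_ana (nrF_ana hP hs g o) l)).symm.trans
        (tayM_congr (mem_of_superset (ho.mem_nhds hs) (hw l g o)))) H
  refine (hZ g H).1 (zero_famM hu (F := (MvPolynomial.aeval fun o => tayM (nrF P C1 g o) s) ''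
    {H | MvPolynomial.aeval (fun o => tayM (nrF P C1 1 o) s) H = 0}) ?_ ?_ _
    ⟨H, (hZ1 H).2 h, rfl⟩)
  · rintro _ ⟨H, hH, rfl⟩
    rw [isUnit_iff_constantCoeff, isUnit_iff_ne_zero, not_not, ← (hA g H).2,
      constantCoeff_tayM (hA g H).1]
    exact hg.2 H ((hZ1 H).1 hH)
  · rintro _ ⟨H, hH, rfl⟩ l
    refine ⟨_, ?_, (hD l g H).symm⟩
    refine (hD l 1 H).symm.trans ?_
    rw [Set.mem_ofPred_eq.mp hH, map_zero, mul_zero]

end

end Pool.Agent.Lib.MP_5591bc_ag.Cv
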