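import Pool.Agent.Lib.MP_5591bc_ag.Cv.Ring
import Pool.Agent.Lib.MP_5591bc_ag.B.Null

/-! Nullstellensatz on one block. -/

namespace Pool.Agent.Lib.MP_5591bc_ag.Cv

open Matrix Filter Topology Metric G R W M A N J B

noncomputable section

variable {σ K ν : Type} [Fintype σ] [DecidableEq σ] [Field K] [Algebra K ℂ] [Fintype ν]
  [DecidableEq ν] {T : MvPolynomial σ K} {B : σ → Matrix ν ν (MvPolynomial σ K)}
  {U : Set (σ → ℂ)} {P : (σ → ℂ) → Matrix ν ν ℂ} {C1 C0 : Matrix ν ν ℂ} {s : σ → ℂ}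


/-- edited copy of `nullR` -/
theorem nullD (ho : IsOpen U) (hP : FundM T B U P) (hC : ConnD T U P C1 C0) (hs : s ∈ U)
    (hT : MvPolynomial.aeval s T ≠ 0) {F : MvPolynomial (ν × ν) ℂ} (hD : DJ C0 1 F)
    (hF : ∀ g ∈ Fb P C1 s, MvPolynomial.eval (fun a => (P s * g) a.1 a.2) F = 0) :
    ∃ H : MvPolynomial (σ ⊕ (ν × ν) ⊕ (ν × ν)) ℂ,
      (∀ᶠ t in 𝓝 s, MvPolynomial.eval (Sum.elim t (Sum.elim (fun a => (P t * C1) a.1 a.2)
        fun a => P t a.1 a.2)) H = 0) ∧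
      ∀ Z : Matrix ν ν ℂ, MvPolynomial.eval (Sum.elim s (Sum.elim (fun a => (P s * C1) a.1 a.2)
        fun a => Z a.1 a.2)) H = MvPolynomial.eval (fun a => Z a.1 a.2) F := by
  have hd : IsUnit (P s).det := (hP s hs).1.isUnit
  have eD : ∀ Z : Matrix ν ν ℂ, MvPolynomial.eval (fun a : ν × ν => Z a.1 a.2)
      (of fun i j => (MvPolynomial.X (i, j) : MvPolynomial (ν × ν) ℂ)).det = Z.det := fun Z => by
    rw [RingHom.map_det]
    congr 1
    ext i j
    simp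
  have h1 : null_sub (P s) F * (of fun i j => MvPolynomial.X (i, j)).det ∈
      (nullR_I P C1 s).radical := by
    rw [← MvPolynomial.vanishingIdeal_zeroLocus_eq_radical (K := ℂ)]
    intro z hz
    obtain ⟨Z, rfl⟩ : ∃ Z : Matrix ν ν ℂ, z = fun a => Z a.1 a.2 := ⟨of fun i j => z (i, j), rfl⟩
    rw [map_mul, null_ev]
    refine mul_eq_zero.2 (or_iff_not_imp_right.2 fun hZ => ?_)
    have hZ' : Z.det ≠ 0 := fun h => hZ ((eD Z).trans h)
    have := hF ((P s)⁻¹ * (Z * P s)) ⟨by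
      rw [det_mul, det_mul, mul_left_comm, det_nonsing_inv_mul_det _ hd, mul_one]
      exact hZ', fun H hH => by
      obtain ⟨H', e⟩ := nullR_sub (P s) H
      obtain ⟨Q, e'⟩ := nullR_spc s (fun a => (P s * C1) a.1 a.2) H'
      rw [mul_nonsing_inv_cancel_left _ _ hd, ← e, e']
      refine hz Q ⟨H', hH.mono fun t ht => ?_, e'⟩
      rw [e, nonsing_inv_mul_cancel_right _ _ hd, ht]⟩
    rwa [mul_nonsing_inv_cancel_left _ _ hd] at this
  obtain ⟨I, hp, h0, hin, hout, -⟩ := fib_idD ho hP hC hs hT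
  rcases hp.mem_or_mem (hp.isRadical (Ideal.radical_mono (fun Q hQ => hin Q hQ) h1)) with h | h
  · obtain ⟨G, hG⟩ := hD
    obtain ⟨H, a1, a2⟩ := hout _ h ⟨G, fun Z =>
      (null_ev _ _ _).trans ((hG (Z * P s)).trans (by rw [mul_one]))⟩
    obtain ⟨H', e⟩ := nullR_sub (P s)⁻¹ H
    refine ⟨H', a1.mono fun t ht => (e _ _ _).trans ht, fun Z => ?_⟩
    rw [e, a2]
    refine (null_ev _ _ _).trans ?_
    rw [nonsing_inv_mul_cancel_right _ _ hd]
    rfl
  · have := h0 _ h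
    rw [eD, det_one] at this
    exact absurd this one_ne_zero

end

end Pool.Agent.Lib.MP_5591bc_ag.Cv
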