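import Mathlib

/-! Linear disjointness for one algebraic element. -/

namespace Pool.Agent.Lib.MP_5591bc_ag.Cv

open Polynomial

noncomputable section

variable {𝓢 𝓡 L : Type*} [CommRing 𝓢] [CommRing 𝓡] [Field L]

theorem oneA_mem (f : 𝓢 →+* L) (z : L) :
    z ∈ Subfield.closure (Set.range f) ↔ ∃ a b, f b ≠ 0 ∧ f b * z = f a := by
  constructor
  · intro h
    obtain ⟨x, hx, y, hy, rfl⟩ := Subfield.mem_closure_iff.1 h
    rw [← RingHom.coe_range, Subring.closure_eq] at hx hy
    obtain ⟨a, rfl⟩ := hx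
    obtain ⟨b, rfl⟩ := hy
    by_cases hb : f b = 0
    · exact ⟨0, 1, by simp, by simp [hb]⟩
    · exact ⟨a, b, hb, mul_div_cancel₀ _ hb⟩
  · rintro ⟨a, b, hb, e⟩
    rw [eq_div_of_mul_eq hb ((mul_comm _ _).trans e)]
    exact div_mem (Subfield.subset_closure ⟨a, rfl⟩) (Subfield.subset_closure ⟨b, rfl⟩)

theorem oneA_den (f : 𝓢 →+* L) (q : L[X])
    (h : ∀ i, q.coeff i ∈ Subfield.closure (Set.range f)) :
    ∃ d M, f d ≠ 0 ∧ Polynomial.map f M = C (f d) * q ∧ M.degree = q.degree := by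
  have key : ∀ s : Finset ℕ, ∃ d, f d ≠ 0 ∧ ∀ i ∈ s, f d * q.coeff i ∈ Set.range f := by
    intro s
    induction s using Finset.induction_on with
    | empty => exact ⟨1, by simp, by simp⟩
    | insert j s _ ih =>
      obtain ⟨d, d0, hd⟩ := ih
      obtain ⟨a, b, b0, e⟩ := (oneA_mem f _).1 (h j)
      refine ⟨d * b, by rw [map_mul]; exact mul_ne_zero d0 b0, fun i hi => ?_⟩
      rcases Finset.mem_insert.1 hi with rfl | hi
      · exact ⟨d * a, by rw [map_mul, map_mul, mul_assoc, e]⟩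
      · obtain ⟨c, hc⟩ := hd i hi
        exact ⟨b * c, by rw [map_mul, map_mul, hc]; ring⟩
  obtain ⟨d, d0, hd⟩ := key q.support
  obtain ⟨M, h1, h2⟩ := exists_degree_eq_of_mem_lifts (f := f) (p := C (f d) * q)
    ((lifts_iff_coeff_lifts _).2 fun i => by
      rw [coeff_C_mul]
      by_cases hi : i ∈ q.support
      · exact hd i hi
      · exact ⟨0, by rw [notMem_support_iff.1 hi, mul_zero, map_zero]⟩)
  exact ⟨d, M, d0, h1, by rw [h2, degree_C_mul d0]⟩

theorem oneA_min {k : Type*} [Field k] [Algebra k L] (E : IntermediateField k L)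
    (hE : ∀ z ∈ E, IsIntegral k z → z ∈ Set.range (algebraMap k L)) {u : L} (hu : IsIntegral k u)
    {p : L[X]} (hp : ∀ i, p.coeff i ∈ E) (p0 : p ≠ 0) (h : p.eval u = 0) :
    (minpoly k u).natDegree ≤ p.natDegree := by
  have hu' : IsIntegral E u := hu.tower_top
  obtain ⟨p', rfl, -⟩ := exists_degree_eq_of_mem_lifts (f := algebraMap E L) (p := p)
    ((lifts_iff_coeff_lifts _).2 fun i => ⟨⟨_, hp i⟩, rfl⟩)
  have h1 : (minpoly E u).degree ≤ p'.degree :=
    minpoly.degree_le_of_ne_zero E u (fun e => p0 (by rw [e, Polynomial.map_zero]))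
      (by rwa [aeval_def, ← eval_map])
  have h2 := integralClosure.mem_lifts_of_monic_of_dvd_map (K := E) (minpoly.monic hu)
    (minpoly.monic hu') (minpoly.dvd_map_of_isScalarTower k E u)
  obtain ⟨μ, h3, h4⟩ := exists_degree_eq_of_mem_lifts (f := algebraMap k E) (p := minpoly E u)
    ((lifts_iff_coeff_lifts _).2 fun i => by
      obtain ⟨c, hc⟩ := (lifts_iff_coeff_lifts _).1 h2 i
      obtain ⟨a, ha⟩ := hE _ ((minpoly E u).coeff i).2
        (by rw [← hc]; exact IsIntegral.algebraMap (B := L) c.2)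
      exact ⟨a, Subtype.ext ha⟩)
  have h5 : (minpoly k u).degree ≤ μ.degree :=
    minpoly.degree_le_of_ne_zero k u
      (fun e => minpoly.ne_zero hu' (by rw [← h3, e, Polynomial.map_zero]))
      (by rw [← aeval_map_algebraMap E, h3, minpoly.aeval])
  rw [natDegree_map]
  exact natDegree_le_natDegree (h5.trans (h4.le.trans h1))

/-- a relation between the powers of `u` persists under a specialisation that fixes `𝓢` -/
theorem oneA_abs (ι : 𝓢 →+* 𝓡) (β β' : 𝓡 →+* L) (hk : ∀ a, β a = 0 → β' a = 0)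
    (hι : ∀ a, β' (ι a) = β (ι a)) {u : L} {M₀ : 𝓢[X]} (m0 : M₀.map (β.comp ι) ≠ 0)
    (m1 : M₀.eval₂ (β.comp ι) u = 0)
    (hC : ∀ a b, β b ≠ 0 → ∀ (n : ℕ) (p : ℕ → 𝓢), (∃ j ≤ n, β (ι (p j)) ≠ 0) →
      ∑ j ∈ Finset.range (n + 1), β (ι (p j)) * β a ^ j * β b ^ (n - j) = 0 →
      ∃ c d, β (ι d) ≠ 0 ∧ β (ι d) * β a = β (ι c) * β b)
    (h : 𝓡[X]) (h0 : h.eval₂ β u = 0) : h.eval₂ β' u = 0 := by
  set f := β.comp ι with hf
  let k := Subfield.closure (Set.range f)
  let E : IntermediateField k L := (Subfield.closure (Set.range β)).toIntermediateField fun x =>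
    Subfield.closure_mono (by rintro _ ⟨a, rfl⟩; exact ⟨ι a, rfl⟩) x.2
  have hmin : ∀ z : L, IsIntegral k z → ∃ M : 𝓢[X], f M.leadingCoeff ≠ 0 ∧
      M.natDegree = (minpoly k z).natDegree ∧ M.eval₂ f z = 0 := by
    intro z hz
    obtain ⟨d, M, d0, e1, e2⟩ := oneA_den f ((minpoly k z).map (algebraMap k L)) fun i => by
      rw [coeff_map]; exact ((minpoly k z).coeff i).2
    have e3 := natDegree_eq_of_degree_eq e2
    refine ⟨M, ?_, by rw [e3, natDegree_map], ?_⟩
    · rw [leadingCoeff, ← coeff_map, e1, coeff_C_mul, e3, ← leadingCoeff,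
        ((minpoly.monic hz).map _).leadingCoeff, mul_one]
      exact d0
    · rw [← eval_map, e1, eval_mul, eval_map, ← aeval_def, minpoly.aeval, mul_zero]
  have hE : ∀ z ∈ E, IsIntegral k z → z ∈ Set.range (algebraMap k L) := by
    intro z hz hi
    obtain ⟨a, b, b0, e⟩ := (oneA_mem β z).1 hz
    obtain ⟨M, k1, -, k3⟩ := hmin z hi
    obtain ⟨c, d, d0, e'⟩ := hC a b b0 M.natDegree M.coeff ⟨_, le_rfl, k1⟩ (by
      rw [eval₂_eq_sum_range] at k3
      rw [← mul_zero (β b ^ M.natDegree), ← k3, Finset.mul_sum]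
      refine Finset.sum_congr rfl fun j hj => ?_
      obtain ⟨r, hr⟩ := Nat.exists_eq_add_of_le (Nat.lt_succ_iff.1 (Finset.mem_range.1 hj))
      rw [← e, hr, Nat.add_sub_cancel_left, hf, RingHom.comp_apply]
      ring)
    refine ⟨⟨z, (oneA_mem f z).2 ⟨c, d, d0, mul_right_cancel₀ b0 ?_⟩⟩, rfl⟩
    rw [hf, RingHom.comp_apply, RingHom.comp_apply, ← e', ← e]
    ring
  have hu : IsIntegral k u := by
    obtain ⟨q, e, -⟩ := exists_degree_eq_of_mem_lifts (f := algebraMap k L) (p := M₀.map f)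
      ((lifts_iff_coeff_lifts _).2 fun i =>
        ⟨⟨_, Subfield.subset_closure ⟨M₀.coeff i, rfl⟩⟩, by rw [coeff_map]; rfl⟩)
    exact IsAlgebraic.isIntegral ⟨q, fun e' => m0 (by rw [← e, e', Polynomial.map_zero]),
      by rw [aeval_def, ← eval_map, e, eval_map, m1]⟩
  obtain ⟨M, k1, k2, k3⟩ := hmin u hu
  have k4 : (M.map ι).leadingCoeff = ι M.leadingCoeff :=
    leadingCoeff_map_of_leadingCoeff_ne_zero ι fun e => k1 (by
      rw [hf, RingHom.comp_apply, e, map_zero])
  have k5 : (M.map ι).natDegree = (minpoly k u).natDegree := by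
    rw [← k2]
    exact natDegree_map_of_leadingCoeff_ne_zero ι fun e => k1 (by
      rw [hf, RingHom.comp_apply, e, map_zero])
  have k6 : (M.map ι).eval₂ β u = 0 := by rw [eval₂_map]; exact k3
  have k7 : (M.map ι).eval₂ β' u = 0 := by
    rw [eval₂_map, show β'.comp ι = f from RingHom.ext hι]; exact k3
  induction hn : h.natDegree using Nat.strong_induction_on generalizing h with
  | _ n ih =>
    by_cases hlt : h.natDegree < (minpoly k u).natDegree
    · have : h.map β = 0 := by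
        by_contra hne
        have := oneA_min E hE hu (p := h.map β)
          (fun i => by rw [coeff_map]; exact Subfield.subset_closure ⟨_, rfl⟩) hne
          (by rwa [eval_map])
        exact absurd (this.trans natDegree_map_le) (not_le.2 hlt)
      rw [eval₂_eq_sum_range]
      refine Finset.sum_eq_zero fun j _ => ?_
      rw [hk _ (by rw [← coeff_map, this, coeff_zero]), zero_mul]
    · have hle : (M.map ι).natDegree ≤ h.natDegree := by rw [k5]; exact not_lt.1 hlt
      have := ih _ (hn ▸ natDegree_cancelLeads_lt_of_natDegree_le_natDegree hle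
        ((k5 ▸ minpoly.natDegree_pos hu).trans_le hle)) _ (by
          simp only [cancelLeads, eval₂_sub, eval₂_mul, h0, k6, mul_zero, sub_zero]) rfl
      simp only [cancelLeads, eval₂_sub, eval₂_mul, k7, mul_zero, sub_zero, eval₂_C, k4, hι,
        Nat.sub_eq_zero_of_le hle, pow_zero, mul_one] at this
      exact (mul_eq_zero.1 this).resolve_left k1

end

end Pool.Agent.Lib.MP_5591bc_ag.Cv
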