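import Pool.Agent.Lib.MP_5591bc_ag.Cv.Null
import Pool.Agent.Lib.MP_5591bc_ag.Cv.Near
import Pool.Agent.Lib.MP_5591bc_ag.Cv.Inj
import Pool.Agent.Lib.MP_5591bc_ag.Cv.OneA
import Pool.Agent.Lib.MP_5591bc_ag.M.TayB

/-! Non constant arcs in a base of dimension one are full. -/

namespace Pool.Agent.Lib.MP_5591bc_ag.Cv

open Matrix Filter Topology MvPowerSeries G R W M N J K

noncomputable section

variable {σ K ν : Type} [Fintype σ] [DecidableEq σ] [Field K] [Algebra K ℂ] [Fintype ν]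
  [DecidableEq ν] {T : MvPolynomial σ K} {B : σ → Matrix ν ν (MvPolynomial σ K)}
  {U : Set (σ → ℂ)} {P : (σ → ℂ) → Matrix ν ν ℂ} {C1 C0 : Matrix ν ν ℂ} {s : σ → ℂ}

theorem one_dj (C0 Z : Matrix ν ν ℂ) (o : Option (ν × ν)) :
    MvPolynomial.aeval (fun a : ν × ν => Z a.1 a.2) (djP C0 1 o) = dj C0 Z o := by
  have := djP_ev C0 1 (RingHom.id ℂ) Z o
  rw [RingHom.coe_id, Matrix.map_id, Matrix.map_id, Matrix.mul_one] at this
  exact this

/-- the functions `t`, `P C1` and `dj (P g)` -/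
def oneF (P : (σ → ℂ) → Matrix ν ν ℂ) (C1 C0 g : Matrix ν ν ℂ)
    (o : (σ ⊕ ν × ν) ⊕ Option (ν × ν)) (t : σ → ℂ) : ℂ :=
  Sum.elim (Sum.elim t (uuN P C1 t)) (dj C0 (P t * g)) o

omit [Fintype σ] [DecidableEq σ] in
theorem one_inl (g : Matrix ν ν ℂ) (o : σ ⊕ ν × ν) :
    oneF P C1 C0 g (.inl o) = oneF P C1 C0 1 (.inl o) := rfl

theorem one_an (hP : FundM T B U P) (hs : s ∈ U) (g : Matrix ν ν ℂ)
    (o : (σ ⊕ ν × ν) ⊕ Option (ν × ν)) : AnalyticAt ℂ (oneF P C1 C0 g o) s := by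
  rcases o with (l | a) | o
  · exact coord_ana l
  · exact serG_ana hP C1 hs a.1 a.2
  · have := (tayM_mv (f := fun (a : ν × ν) t => (P t * g) a.1 a.2)
      (fun a => serG_ana hP g hs a.1 a.2) (djP C0 1 o)).1
    simp only [one_dj] at this
    exact this

theorem one_near (ho : IsOpen U) (hP : FundM T B U P) (hs : s ∈ U)
    (hT : MvPolynomial.aeval s T ≠ 0) {g : Matrix ν ν ℂ} (hg : g ∈ MP_5591bc_ag.B.Fb P C1 s)
    {G : MvPolynomial ((σ ⊕ ν × ν) ⊕ Option (ν × ν)) ℂ}
    (h : ∀ᶠ t in 𝓝 s, MvPolynomial.aeval (oneF P C1 C0 1 · t) G = 0) :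
    ∀ᶠ t in 𝓝 s, MvPolynomial.aeval (oneF P C1 C0 g · t) G = 0 := by
  let θ : (σ ⊕ ν × ν) ⊕ Option (ν × ν) → MvPolynomial (σ ⊕ (ν × ν) ⊕ (ν × ν)) ℂ :=
    Sum.elim (Sum.elim (fun l => MvPolynomial.X (.inl l)) fun a => MvPolynomial.X (.inr (.inl a)))
      fun o => MvPolynomial.rename (fun a => .inr (.inr a)) (djP C0 1 o)
  have e : ∀ (g : Matrix ν ν ℂ) (t : σ → ℂ), MvPolynomial.eval (Sum.elim t (Sum.elim
      (fun a => (P t * C1) a.1 a.2) fun a => (P t * g) a.1 a.2)) (MvPolynomial.aeval θ G) =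
      MvPolynomial.aeval (oneF P C1 C0 g · t) G := by
    intro g t
    rw [← MvPolynomial.coe_aeval_eq_eval, RingHom.coe_coe, MvPolynomial.comp_aeval_apply]
    congr 2
    funext o
    rcases o with (l | a) | o
    · simp [θ, oneF]
    · simp [θ, oneF, uuN]
    · simp only [θ, oneF, Sum.elim_inr, MvPolynomial.aeval_rename, ← one_dj]
      rfl
  have := fb_near ho hP hs hT hg (H := MvPolynomial.aeval θ G) (by
    filter_upwards [h] with t ht
    have := e 1 t
    rw [Matrix.mul_one] at this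
    exact this.trans ht)
  simpa only [e] using this

omit [DecidableEq σ] in
theorem one_open (h1 : Fintype.card σ = 1) {y : ℂ → σ → ℂ} (hy : AnalyticAt ℂ y 0) (h0 : y 0 = s)
    (hn : ¬ ∀ᶠ u in 𝓝 (0 : ℂ), y u = s) {p : (σ → ℂ) → Prop}
    (h : ∀ᶠ v in 𝓝 (0 : Unit → ℂ), p (y (v ()))) : ∀ᶠ t in 𝓝 s, p t := by
  obtain ⟨l, hl⟩ := Fintype.card_eq_one_iff.1 h1
  have e : ∀ t : σ → ℂ, (fun _ => t l) = t := fun t => funext fun m => by rw [hl m]
  have h' : ∀ᶠ u in 𝓝 (0 : ℂ), p (y u) :=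
    (show Tendsto (fun (u : ℂ) (_ : Unit) => u) (𝓝 0) (𝓝 0) from
      (continuous_pi fun _ => continuous_id).tendsto 0).eventually h
  rcases (analyticAt_pi_iff.1 hy l).eventually_constant_or_nhds_le_map_nhds with k | k
  · refine absurd ?_ hn
    filter_upwards [k] with u hu
    rw [← e (y u), hu, e, h0]
  · have k2 : ∀ᶠ w in 𝓝 (s l), p fun _ => w := by
      rw [← h0]
      refine k (mem_map.2 (h'.mono fun u hu => ?_))
      show p fun _ => y u l
      rwa [e]
    filter_upwards [((continuous_apply l).tendsto s).eventually k2] with t ht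
    rwa [e] at ht

theorem one_two {q : MvPolynomial (Fin 2) ℂ} {x : Fin 2 → ℂ} {l : σ}
    (h : ∀ᶠ t in 𝓝 s, MvPolynomial.eval ![x 0, t l] q = 0) : MvPolynomial.eval x q = 0 := by
  have ha : AnalyticOnNhd ℂ (fun t : σ → ℂ => MvPolynomial.eval ![x 0, t l] q) Set.univ := by
    intro t _
    have := (tayM_mv (p := t) (f := ![fun _ => x 0, fun t => t l]) (fun o => by
      fin_cases o
      · exact analyticAt_const
      · exact coord_ana l) q).1
    refine this.congr (Eventually.of_forall fun z => ?_)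
    simp only [← MvPolynomial.coe_aeval_eq_eval, RingHom.coe_coe]
    congr 2
    funext o
    fin_cases o <;> rfl
  have := ha.eqOn_zero_of_preconnected_of_eventuallyEq_zero isPreconnected_univ
    (Set.mem_univ s) h (Set.mem_univ fun _ => x 1)
  rw [show x = ![x 0, x 1] from funext fun o => by fin_cases o <;> rfl]
  exact this

theorem one_tay {α A L : Type} [CommRing A] [Algebra ℂ A] [CommRing L]
    (j : MvPowerSeries Unit ℂ →+* L) (b : A →+* L)
    (hb : ∀ c : ℂ, b (algebraMap ℂ A c) = j (C c)) {f : α → (Unit → ℂ) → ℂ}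
    (hf : ∀ o, AnalyticAt ℂ (f o) 0) {u : L} {θ : α → Polynomial A}
    (hθ : ∀ o, (θ o).eval₂ b u = j (tayM (f o) 0)) (H : MvPolynomial α ℂ) :
    (MvPolynomial.aeval θ H).eval₂ b u =
      j (tayM (fun v => MvPolynomial.aeval (f · v) H) 0) := by
  rw [(tayM_mv hf H).2]
  induction H using MvPolynomial.induction_on with
  | C a =>
    rw [MvPolynomial.aeval_C, MvPolynomial.aeval_C, Polynomial.algebraMap_apply,
      Polynomial.eval₂_C, hb]
    rfl
  | add p q hp hq => simp only [map_add, Polynomial.eval₂_add, hp, hq]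
  | mul_X p o hp => simp only [map_mul, Polynomial.eval₂_mul, hp, MvPolynomial.aeval_X, hθ]

theorem full_one (h1 : Fintype.card σ = 1) (ho : IsOpen U) (hP : FundM T B U P)
    (hC : ConnD T U P C1 C0) (hs : s ∈ U) (hT : MvPolynomial.aeval s T ≠ 0) {y : ℂ → σ → ℂ}
    (hy : Arc s y) (hn : ¬ ∀ᶠ u in 𝓝 (0 : ℂ), y u = s) : FullA P C1 C0 s y := by
  intro H hH
  obtain ⟨ya, y0, yq⟩ := hy
  obtain ⟨l₀, hl⟩ := Fintype.card_eq_one_iff.1 h1
  have hu : AnalyticAt ℂ (fun v : Unit → ℂ => v ()) 0 := coord_ana ()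
  have hη : AnalyticAt ℂ (fun v : Unit → ℂ => y (v ())) 0 :=
    AnalyticAt.comp (g := y) (f := fun v : Unit → ℂ => v ()) ya hu
  have hη' : Tendsto (fun v : Unit → ℂ => y (v ())) (𝓝 0) (𝓝 s) := by
    rw [← y0]; exact hη.continuousAt
  have hu' : Tendsto (fun v : Unit → ℂ => v ()) (𝓝 0) (𝓝 0) := hu.continuousAt
  have an : ∀ g o, AnalyticAt ℂ (fun v : Unit → ℂ => oneF P C1 C0 g o (y (v ()))) 0 :=
    fun g o => AnalyticAt.comp_of_eq (g := oneF P C1 C0 g o) (one_an hP hs g o) hη y0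
  let j := algebraMap (MvPowerSeries Unit ℂ) (FractionRing (MvPowerSeries Unit ℂ))
  have ji : Function.Injective j := IsFractionRing.injective _ _
  let b := fun g : Matrix ν ν ℂ => MvPolynomial.aeval (R := ℂ)
    fun o => tayM (fun v : Unit → ℂ => oneF P C1 C0 g o (y (v ()))) 0
  let β := fun g : Matrix ν ν ℂ => j.comp (b g).toRingHom
  let α := MvPolynomial.aeval (R := ℂ) fun o => tayM (oneF P C1 C0 1 o) s
  have k1 : ∀ g G, β g G = 0 ↔
      ∀ᶠ v in 𝓝 (0 : Unit → ℂ), MvPolynomial.aeval (oneF P C1 C0 g · (y (v ()))) G = 0 := by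
    intro g G
    rw [← tayM_eq_zero_iff (tayM_mv (an g) G).1, (tayM_mv (an g) G).2]
    exact map_eq_zero_iff j ji
  have k2 : ∀ G, α G = 0 ↔ ∀ᶠ t in 𝓝 s, MvPolynomial.aeval (oneF P C1 C0 1 · t) G = 0 := by
    intro G
    rw [← tayM_eq_zero_iff (tayM_mv (one_an hP hs 1) G).1, (tayM_mv (one_an hP hs 1) G).2]
  have k3 : ∀ G, β 1 G = 0 ↔ α G = 0 := fun G => by
    rw [k1, k2]
    exact ⟨one_open h1 ya y0 hn (p := fun t => MvPolynomial.aeval (oneF P C1 C0 1 · t) G = 0),
      hη'.eventually⟩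
  let ι : MvPolynomial (σ ⊕ ν × ν) ℂ →ₐ[ℂ] MvPolynomial ((σ ⊕ ν × ν) ⊕ Option (ν × ν)) ℂ :=
    MvPolynomial.rename Sum.inl
  have hβ : ∀ g (c : ℂ), β g (algebraMap ℂ _ c) = j (C c) := fun g c =>
    congrArg j ((b g).commutes c)
  -- the parameter is algebraic
  obtain ⟨q, q0, hq⟩ := yq l₀
  have k4 : ∀ a : (Unit → ℂ) → ℂ, AnalyticAt ℂ a 0 →
      (MvPolynomial.aeval ![Polynomial.X, Polynomial.C (MvPolynomial.X (.inl l₀))] q).eval₂
        ((β 1).comp ι.toRingHom) (j (tayM a 0)) =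
      j (tayM (fun v => MvPolynomial.aeval (![a, fun v => y (v ()) l₀] · v) q) 0) := by
    intro a ha
    refine one_tay j _ (fun c => (congrArg (β 1) (ι.commutes c)).trans (hβ 1 c)) (fun o => ?_) (fun o => ?_) q
    · fin_cases o
      · exact ha
      · exact an 1 (.inl (.inl l₀))
    · fin_cases o
      · simp
      · simp [β, b, ι, oneF]
  have k5 : ∀ (a : (Unit → ℂ) → ℂ) (v : Unit → ℂ),
      MvPolynomial.aeval (![a, fun v => y (v ()) l₀] · v) q =
        MvPolynomial.eval ![a v, y (v ()) l₀] q := by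
    intro a v
    rw [← MvPolynomial.coe_aeval_eq_eval, RingHom.coe_coe]
    congr 2
    funext o
    fin_cases o <;> rfl
  have k6 : ∀ a : (Unit → ℂ) → ℂ, AnalyticAt ℂ a 0 →
      AnalyticAt ℂ (fun v => MvPolynomial.aeval (![a, fun v => y (v ()) l₀] · v) q) 0 :=
    fun a ha => (tayM_mv (fun o => by
      fin_cases o
      · exact ha
      · exact an 1 (.inl (.inl l₀))) q).1
  obtain ⟨𝒜, c1, c2, -, c4⟩ := hC U P .base s hs hT
  have s1 : ∀ c, α (ι c) ∈ SN fun a => tayM (uuN P C1 · a) s := by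
    intro c
    induction c using MvPolynomial.induction_on with
    | C a => rw [← MvPolynomial.algebraMap_eq, AlgHom.commutes, AlgHom.commutes]
             exact Subalgebra.algebraMap_mem _ a
    | add p q hp hq => rw [map_add, map_add]; exact add_mem hp hq
    | mul_X p o hp =>
      rw [map_mul, map_mul]
      refine mul_mem hp ?_
      rw [MvPolynomial.rename_X, MvPolynomial.aeval_X]
      rcases o with l | a
      · show tayM (fun z => z l) s ∈ _
        rw [tayM_coord]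
        exact add_mem (Algebra.subset_adjoin (.inl ⟨l, rfl⟩)) (Subalgebra.algebraMap_mem _ (s l))
      · exact Algebra.subset_adjoin (.inr ⟨a, rfl⟩)
  have s2 : ∀ p ∈ SN fun a => tayM (uuN P C1 · a) s, ∃ c, α (ι c) = p := by
    refine Algebra.adjoin_le (S := (α.comp ι).range) ?_
    rintro _ (⟨l, rfl⟩ | ⟨a, rfl⟩)
    · refine ⟨MvPolynomial.X (.inl l) - algebraMap ℂ _ (s l), ?_⟩
      rw [AlgHom.toRingHom_eq_coe, RingHom.coe_coe, map_sub, AlgHom.commutes, AlgHom.comp_apply,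
        MvPolynomial.rename_X, MvPolynomial.aeval_X]
      show tayM (fun z => z l) s - _ = _
      rw [tayM_coord]
      exact add_sub_cancel_right _ _
    · refine ⟨MvPolynomial.X (.inr a), ?_⟩
      rw [AlgHom.toRingHom_eq_coe, RingHom.coe_coe, AlgHom.comp_apply,
        MvPolynomial.rename_X, MvPolynomial.aeval_X]
      rfl
  have s3 : ∀ G, α G ∈ 𝒜 := by
    intro G
    induction G using MvPolynomial.induction_on with
    | C a => rw [← MvPolynomial.algebraMap_eq, AlgHom.commutes]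
             exact c2 _ (Subalgebra.algebraMap_mem _ a)
    | add p q hp hq => rw [map_add]; exact add_mem hp hq
    | mul_X p o hp =>
      rw [map_mul]
      refine mul_mem hp ?_
      rcases o with o | o
      · have := c2 _ (s1 (MvPolynomial.X o))
        rwa [MvPolynomial.rename_X] at this
      · rw [MvPolynomial.aeval_X]
        rw [show oneF P C1 C0 1 (.inr o) = fun t => dj C0 (P t) o from
          funext fun t => by simp only [oneF, Sum.elim_inr, Matrix.mul_one]]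
        exact c4 o
  let θ : Option σ ⊕ Option (ν × ν) →
      Polynomial (MvPolynomial ((σ ⊕ ν × ν) ⊕ Option (ν × ν)) ℂ) :=
    Sum.elim (fun o => o.elim Polynomial.X fun l => Polynomial.C (MvPolynomial.X (.inl (.inl l))))
      fun o => Polynomial.C (MvPolynomial.X (.inr o))
  let f : Matrix ν ν ℂ → Option σ ⊕ Option (ν × ν) → (Unit → ℂ) → ℂ := fun g o v =>
    Sum.elim (fun o => o.elim (v ()) (y (v ()))) (dj C0 (P (y (v ())) * g)) o
  have fa : ∀ g o, AnalyticAt ℂ (f g o) 0 := by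
    rintro g ((_ | l) | o)
    · exact hu
    · exact an g (.inl (.inl l))
    · exact an g (.inr o)
  have k7 : ∀ g, (MvPolynomial.aeval θ H).eval₂ (β g) (j (tayM (fun v : Unit → ℂ => v ()) 0)) =
      j (tayM (fun v => MvPolynomial.aeval (f g · v) H) 0) := by
    intro g
    refine one_tay j _ (hβ g) (fa g) ?_ H
    rintro ((_ | l) | o)
    · simp [θ, f]
    · simp [θ, f, β, b, oneF]
    · simp [θ, f, β, b, oneF]
  let F : MvPolynomial (ν × ν) ℂ := MvPolynomial.aeval
    (Sum.elim (fun o : Option σ => MvPolynomial.C (o.elim 0 s)) (djP C0 1)) H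
  have eF : ∀ Z : Matrix ν ν ℂ, MvPolynomial.eval (fun a => Z a.1 a.2) F =
      MvPolynomial.eval (Sum.elim (fun o => o.elim 0 s) (dj C0 Z)) H := by
    intro Z
    rw [← MvPolynomial.coe_aeval_eq_eval, ← MvPolynomial.coe_aeval_eq_eval, RingHom.coe_coe,
      RingHom.coe_coe, MvPolynomial.comp_aeval_apply]
    congr 2
    funext o
    rcases o with o | o
    · simp
    · exact one_dj C0 Z o
  refine (nullD ho hP hC hs hT (F := F) ⟨MvPolynomial.aeval
    (Sum.elim (fun o : Option σ => MvPolynomial.C (o.elim 0 s)) MvPolynomial.X) H, fun Z => by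
      rw [eF, Matrix.mul_one, ← MvPolynomial.coe_aeval_eq_eval, ← MvPolynomial.coe_aeval_eq_eval,
        RingHom.coe_coe, RingHom.coe_coe, MvPolynomial.comp_aeval_apply]
      congr 2
      funext o
      rcases o with o | o <;> simp⟩ fun g hg => ?_).imp
    fun H' e => ⟨e.1, fun Z => (e.2 Z).trans (eF Z)⟩
  have m0 : (MvPolynomial.aeval ![Polynomial.X, Polynomial.C (MvPolynomial.X (.inl l₀))] q).map
      ((β 1).comp ι.toRingHom) ≠ 0 := fun e => q0 (MvPolynomial.funext fun x => by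
    have k := k4 (fun _ => x 0) analyticAt_const
    rw [← Polynomial.eval_map, e, Polynomial.eval_zero, eq_comm, map_eq_zero_iff j ji,
      tayM_eq_zero_iff (k6 _ analyticAt_const)] at k
    simp only [k5] at k
    rw [map_zero]
    exact one_two (one_open h1 ya y0 hn (p := fun t => MvPolynomial.eval ![x 0, t l₀] q = 0) k))
  have m1 := k4 _ hu
  rw [(tayM_eq_zero_iff (k6 _ hu)).2 (by simp only [k5]; exact hu'.eventually hq), map_zero] at m1
  have m2 : ∀ a, β g (ι.toRingHom a) = β 1 (ι.toRingHom a) := fun a => by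
    refine congrArg j (?_ : b g (ι a) = b 1 (ι a))
    rw [MvPolynomial.aeval_rename, MvPolynomial.aeval_rename]
    refine congrArg (fun φ => MvPolynomial.aeval φ a) (funext fun o => ?_)
    rw [Function.comp_apply, Function.comp_apply, one_inl]
  have m3 : ∀ a c, β 1 c ≠ 0 → ∀ (n : ℕ) (p : ℕ → MvPolynomial (σ ⊕ ν × ν) ℂ),
      (∃ i ≤ n, β 1 (ι (p i)) ≠ 0) →
      ∑ i ∈ Finset.range (n + 1), β 1 (ι (p i)) * β 1 a ^ i * β 1 c ^ (n - i) = 0 →
      ∃ x z, β 1 (ι z) ≠ 0 ∧ β 1 (ι z) * β 1 a = β 1 (ι x) * β 1 c := by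
    intro a c c0 n p hp e
    obtain ⟨x, hx, z, hz, z0, e'⟩ := c1 _ (s3 a) _ (s3 c) n (fun i => α (ι (p i)))
      (fun i => s1 _) (fun h => c0 ((k3 _).2 h))
      (hp.imp fun i hi => ⟨hi.1, fun h => hi.2 ((k3 _).2 h)⟩) (by
        have := (k3 (∑ i ∈ Finset.range (n + 1), ι (p i) * a ^ i * c ^ (n - i))).1 (by
          simpa only [map_sum, map_mul, map_pow] using e)
        simpa only [map_sum, map_mul, map_pow] using this)
    obtain ⟨x, rfl⟩ := s2 x hx
    obtain ⟨z, rfl⟩ := s2 z hz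
    refine ⟨x, z, fun h => z0 ((k3 _).1 h), sub_eq_zero.1 ?_⟩
    have := (k3 (ι z * a - ι x * c)).2 (by rw [map_sub, map_mul, map_mul, e', sub_self])
    simpa only [map_sub, map_mul] using this
  have m4 := k7 1
  rw [(tayM_eq_zero_iff (tayM_mv (fa 1) H).1).2 (by
    filter_upwards [hu'.eventually hH] with v hv
    rw [← hv, ← MvPolynomial.coe_aeval_eq_eval, RingHom.coe_coe]
    simp only [f, Matrix.mul_one]), map_zero] at m4
  have k8 := oneA_abs ι.toRingHom (β 1) (β g)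
    (fun a ha => (k1 g a).2 (hη'.eventually (one_near ho hP hs hT hg ((k2 a).1 ((k3 a).1 ha)))))
    m2 m0 m1 m3 _ m4
  rw [k7, map_eq_zero_iff j ji, tayM_eq_zero_iff (tayM_mv (fa g) H).1] at k8
  have := k8.self_of_nhds
  simp only [f, Pi.zero_apply, y0] at this
  rw [eF, ← MvPolynomial.coe_aeval_eq_eval, RingHom.coe_coe]
  exact this

end

end Pool.Agent.Lib.MP_5591bc_ag.Cv
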