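import Pool.Agent.Lib.MP_5591bc_ag.Cv.Gen
import Pool.Agent.Lib.MP_5591bc_ag.Cv.Mem
import Pool.Agent.Lib.MP_5591bc_ag.B.Irr

/-! The prime ideal of the identity component of the fibre. -/

namespace Pool.Agent.Lib.MP_5591bc_ag.Cv

open Matrix Filter Topology MvPowerSeries G R W M N J

noncomputable section

/-- the formal statement over a stable algebra -/
theorem ringD_formal {σ ν : Type} [Fintype ν] [DecidableEq ν]
    {S : Subalgebra ℂ (MvPowerSeries σ ℂ)} {s : σ → ℂ} (hS : ∀ p, τm s p ∈ S)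
    {T : MvPolynomial σ ℂ} (hT : MvPolynomial.eval s T ≠ 0) (hD : DN (τm s T) S)
    {B : σ → Matrix ν ν (MvPolynomial σ ℂ)} {Y : Matrix ν ν (MvPowerSeries σ ℂ)}
    (h0 : Y.map constantCoeff = 1)
    (ode : ∀ l, τm s T • Y.map (pderiv ℂ l) = (B l).map (τm s) * Y) {C0 c : Matrix ν ν ℂ}
    {𝒜 : Subring (MvPowerSeries σ ℂ)} (h1 : ∀ p ∈ S, p ∈ 𝒜)
    (h2 : ∀ o, V.evm (algebraMap ℂ _) Y (djP C0 c o) ∈ 𝒜)
    (hC : ConnTN S 𝒜) : ∃ I : Ideal (MvPolynomial (ν × ν) ℂ), I.IsPrime ∧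
      (∀ p ∈ I, V.evm (RingHom.id ℂ) 1 p = 0) ∧
      (∀ q : MvPolynomial (ν × ν) S, gev S.val Y q = 0 →
        MvPolynomial.map ((ccM σ).comp S.val).toRingHom q ∈ I) ∧
      (∀ Q ∈ I, DJ C0 c Q → ∃ q : MvPolynomial (ν × ν) S, gev S.val Y q = 0 ∧
        MvPolynomial.map ((ccM σ).comp S.val).toRingHom q = Q) ∧
      ∀ (δ : ℕ) (u m : Mo δ ν → ℂ), (pX δ u ⬝ᵥ fun μ => MvPolynomial.C (m μ)) ∈ I →
        DJ C0 c (pX δ u ⬝ᵥ fun μ => MvPolynomial.C (m μ)) →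
        ∃ l : Mo δ ν → MvPowerSeries σ ℂ, (∀ μ, l μ ∈ S) ∧ (∀ μ, constantCoeff (l μ) = m μ) ∧
          l ⬝ᵥ ((fun β => C (u β)) ᵥ* Adj δ Y) = 0 := by
  have : IsDomain (MvPowerSeries σ ℂ) := NoZeroDivisors.to_isDomain _
  let j : MvPolynomial σ ℂ →+* S := (τm s).codRestrict S hS
  let d : σ → S → S := fun l a => ⟨_, hD l a a.2⟩
  have ht : IsUnit (τm s T) := by rwa [isUnit_iff_constantCoeff, isUnit_iff_ne_zero, frT_const]
  obtain ⟨ρ, hρ⟩ := djP_mul C0 c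
  obtain ⟨I, h⟩ := gg2_of (τ := S.val) (τ' := S.val) (cc := ccM σ) (ev := (ccM σ).comp S.val)
    (ev' := (ccM σ).comp S.val) (G := Y) Subtype.val_injective (fun _ => rfl)
    (fun p => isAlgebraic_algebraMap (⟨S.val p, p, rfl⟩ : S.val.range)) h0 hρ
    (fun p => h1 _ p.2) h2 fun u hu v hv n p v0 hp e => by
      obtain ⟨i, hi, hp⟩ := hp
      obtain ⟨a, ha, b, hb, b0, r⟩ := hC _ hu _ hv n (fun i => p i) (fun i => (p i).2) v0
        ⟨i, hi, fun c => hp (Subtype.ext c)⟩ e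
      exact ⟨⟨a, ha⟩, ⟨b, hb⟩, fun c => b0 (congrArg Subtype.val c), r⟩
  refine ⟨I, h.prime, h.one, fun q hq => ?_, fun Q hQ hJ => ?_, fun δ u m hm hJ => ?_⟩
  · exact h.of_rel (δ := d) (B := fun l => (B l).map j) ht (fun _ _ => rfl) h0 ode hq
  · exact h.to_rel (δ := d) (B := fun l => (B l).map j) ht (fun _ _ => rfl) h0 ode hQ hJ.mem
  · have hu : IsUnit Y.det := by
      rw [isUnit_iff_constantCoeff, RingHom.map_det, RingHom.mapMatrix_apply, h0, det_one]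
      exact isUnit_one
    obtain ⟨l, l1, l2⟩ := h.lift _ _ (ringN_rep δ) u (by
      rw [ringN_map]
      refine gtay_of (δ := d) (B := fun l => (Bd δ (B l)).map j) ht (fun _ _ => rfl)
        (by rw [transpose_map, Adj_map, h0, Adj_one, transpose_one]) (fun l => ?_) u
      have := congrArg transpose (der_Adj (ode l) hu δ)
      rw [transpose_mul, transpose_transpose, ← Bd_map] at this
      exact this) m (by
        rw [mulVec_transpose, dotProduct_comm]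
        exact hm) (by
        rw [mulVec_transpose, dotProduct_comm]
        exact hJ.mem)
    rw [ringN_map, mulVec_transpose] at l1
    exact ⟨fun μ => l μ, fun μ => (l μ).2, l2, l1⟩

variable {σ K ν : Type} [Fintype σ] [DecidableEq σ] [Field K] [Algebra K ℂ] [Fintype ν]
  [DecidableEq ν] {T : MvPolynomial σ K} {B : σ → Matrix ν ν (MvPolynomial σ K)}
  {U : Set (σ → ℂ)} {P : (σ → ℂ) → Matrix ν ν ℂ} {C1 C0 : Matrix ν ν ℂ} {s : σ → ℂ}


/-- edited copy of `ringJ_formal`, `fib_ringJ`, `irr_ideal` -/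
theorem fib_idD (ho : IsOpen U) (hP : FundM T B U P) (hC : ConnD T U P C1 C0) (hs : s ∈ U)
    (hT : MvPolynomial.aeval s T ≠ 0) : ∃ I : Ideal (MvPolynomial (ν × ν) ℂ), I.IsPrime ∧
      (∀ Q ∈ I, MvPolynomial.eval (fun a : ν × ν => (1 : Matrix ν ν ℂ) a.1 a.2) Q = 0) ∧
      (∀ Q, InFibR P C1 s Q → Q ∈ I) ∧ (∀ Q ∈ I, DJ C0 (P s) Q → InFibR P C1 s Q) ∧
      ∀ (δ : ℕ) (u m : Mo δ ν → ℂ), (pX δ u ⬝ᵥ fun μ => MvPolynomial.C (m μ)) ∈ I →
        DJ C0 (P s) (pX δ u ⬝ᵥ fun μ => MvPolynomial.C (m μ)) → LiftN P C1 δ s u m := by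
  have a := fun t ht i j => ((hP t ht).2 i j).1
  have an : ∀ (M : Matrix ν ν ℂ), ∀ t ∈ U, ∀ i j, AnalyticAt ℂ (fun t => (P t * M) i j) t :=
    fun M t ht i j => Finset.analyticAt_fun_sum _ fun k _ => (a t ht i k).fun_mul analyticAt_const
  have e : ∀ M : Matrix ν ν ℂ, tayX (fun t => P t * M) s = tayX P s * M.map C := fun M => by
    ext1 i j
    refine (tayM_sum _ fun k _ => (a s hs i k).fun_mul analyticAt_const).trans
      (Finset.sum_congr rfl fun k _ => ?_)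
    rw [tayM_mul (a s hs i k) analyticAt_const, tayM_const]
    rfl
  obtain ⟨𝒜, c1, c2, -, c3⟩ := hC U P .base s hs hT
  obtain ⟨I, hp, h1, h2, h2', h3⟩ := ringD_formal (S := SN fun a => tayM (uuN P C1 · a) s) (s := s)
    (τm_mem_SN s _) (T := TM ℂ T) (by rwa [MvPolynomial.eval_map]) (DN_SN (uuN_ode ho hP C1 hs))
    (B := BM ℂ B) (Y := tayX (fun t => P t * (P s)⁻¹) s) (by
      rw [← mul_nonsing_inv _ (hP s hs).1.isUnit]
      ext i j
      exact constantCoeff_tayM (an _ s hs i j)) (fun l => by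
      rw [e, ← Matrix.mul_assoc, ← irr_ode ho hP hs, Matrix.smul_mul]
      congr 1
      ext1 i j
      simp [mul_apply, mul_comm]) (C0 := C0) (c := P s) c2 (fun o => by
      have k := (tayM_mv (f := fun (a : ν × ν) t => (P t * (P s)⁻¹) a.1 a.2)
        (fun a => an _ s hs a.1 a.2) (djP C0 (P s) o)).2
      have k' : (fun t => MvPolynomial.aeval (fun a : ν × ν => (P t * (P s)⁻¹) a.1 a.2)
          (djP C0 (P s) o)) = fun t => dj C0 (P t) o := funext fun t => by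
        refine (djP_ev C0 (P s) (RingHom.id ℂ) (P t * (P s)⁻¹) o).trans ?_
        rw [RingHom.coe_id, Matrix.map_id, Matrix.map_id,
          nonsing_inv_mul_cancel_right _ _ (hP s hs).1.isUnit]
        rfl
      rw [k'] at k
      exact (k ▸ c3 o :)) c1
  have hf : ∀ o, AnalyticAt ℂ (fun t => Sum.elim t (Sum.elim (fun a : ν × ν => (P t * C1) a.1 a.2)
      fun a : ν × ν => (P t * (P s)⁻¹) a.1 a.2) o) s := by
    rintro (l | b | b)
    exacts [coord_ana l, an _ s hs _ _, an _ s hs _ _]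
  have m1 : ∀ l, tayM (· l) s ∈ SN fun a => tayM (uuN P C1 · a) s := fun l =>
    tayM_coord (p := s) l ▸ add_mem (Algebra.subset_adjoin (.inl ⟨l, rfl⟩)) (algebraMap_mem _ _)
  let Φ : MvPolynomial (σ ⊕ (ν × ν) ⊕ (ν × ν)) ℂ →ₐ[ℂ]
      MvPolynomial (ν × ν) (SN fun a => tayM (uuN P C1 · a) s) :=
    MvPolynomial.aeval (Sum.elim (fun l => MvPolynomial.C ⟨_, m1 l⟩) (Sum.elim
      (fun b => MvPolynomial.C ⟨_, brg_mem _ b⟩) MvPolynomial.X))
  have k1 : ∀ H, gev (Subalgebra.val _) (tayX (fun t => P t * (P s)⁻¹) s) (Φ H) = 0 ↔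
      ∀ᶠ t in 𝓝 s, MvPolynomial.eval (Sum.elim t (Sum.elim (fun a => (P t * C1) a.1 a.2)
        fun a => (P t * (P s)⁻¹) a.1 a.2)) H = 0 := fun H => by
    obtain ⟨q3, q4⟩ := tayM_mv hf H
    refine Iff.trans (Eq.congr_left (Eq.trans ?_ q4.symm)) (tayM_eq_zero_iff q3)
    rw [MvPolynomial.map_aeval, MvPolynomial.aeval_eq_eval₂Hom]
    congr 2
    · exact RingHom.ext fun c => gev_C _
    · funext o
      rcases o with l | b | b
      exacts [gev_C _, gev_C _, gev_X _]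
  have k2 : ∀ H Z, MvPolynomial.eval Z (MvPolynomial.map ((ccM σ).comp
      (Subalgebra.val _)).toRingHom (Φ H)) =
      MvPolynomial.eval (Sum.elim s (Sum.elim (fun a => (P s * C1) a.1 a.2) Z)) H := fun H Z => by
    rw [ringJ_ev]
    refine congrArg (MvPolynomial.eval · H) (funext ?_)
    rintro (l | b | b)
    exacts [constantCoeff_tayM (hf (.inl l)), constantCoeff_tayM (hf (.inr (.inl b))), rfl]
  refine ⟨I, hp, h1, fun Q hQ => ?_, fun Q hQ hJ => ?_, fun δ u m hm hJ => ?_⟩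
  · obtain ⟨H, q1, q2⟩ := hQ
    have := h2 _ ((k1 H).2 q1)
    rwa [MvPolynomial.funext fun Z => (k2 H Z).trans (q2 Z)] at this
  · obtain ⟨q, q1, rfl⟩ := h2' Q hQ hJ
    obtain ⟨H, rfl⟩ : ∃ H, Φ H = q :=
      MP_5591bc_ag.B.irr_surj (s := s) (fun l => tayM_coord l) (fun _ => rfl) q
    exact ⟨H, (k1 H).1 q1, fun Z => (k2 H Z).symm⟩
  · obtain ⟨l, l1, l2, l3⟩ := h3 δ u m hm hJ
    choose q hq using fun μ => (mem_SN s).1 (l1 μ)
    have b0 := fun μ => (tay_vlN (u := uuN P C1) (uuN_an hP C1 hs) (q μ)).1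
    have b1 := fun μ => (tay_vlC (u := uuN P C1) (uuN_an hP C1 hs) (q μ)).trans (hq μ)
    have b2 := serM_adj (Y := fun t => P t * (P s)⁻¹) (an _ s hs) δ
    have b3 := fun μ => covM_ana hP (P s)⁻¹ u μ hs
    refine ⟨q, fun μ => by rw [← l2, ← b1, constantCoeff_tayM (b0 μ)],
      eventually_zero_of_tayM (Finset.analyticAt_fun_sum _ fun μ _ => (b0 μ).fun_mul (b3 μ)) ?_⟩
    refine (tayM_sum _ fun μ _ => (b0 μ).fun_mul (b3 μ)).trans (Eq.trans ?_ l3)
    refine Finset.sum_congr rfl fun μ _ => ?_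
    rw [tayM_mul (b0 μ) (b3 μ), b1]
    refine congrArg _ ((tayM_sum _ fun β _ => analyticAt_const.fun_mul (b2 β μ).1).trans
      (Finset.sum_congr rfl fun β _ => ?_))
    rw [tayM_mul analyticAt_const (b2 β μ).1, tayM_const, (b2 β μ).2]

end

end Pool.Agent.Lib.MP_5591bc_ag.Cv
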