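import Pool.Agent.Lib.MP_5591bc_ag.Cv.SetP
import Pool.Agent.Lib.MP_5591bc_ag.Cu.Mono

/-! The points of the cover. -/

namespace Pool.Agent.Lib.MP_5591bc_ag.Cv

open Polynomial Set Filter Topology Matrix G M A B E Z Cu
open scoped Polynomial.Bivariate

noncomputable section

variable {σ K ν : Type} [Field K] [NumberField K] [Algebra K ℂ] [Fintype σ] [DecidableEq σ]
  [Fintype ν] [DecidableEq ν] {T : MvPolynomial σ K} {q : (MvPolynomial σ K)[X]} {r n m : ℕ}
  {B : σ → Matrix ν ν (MvPolynomial σ K)[X]} {U U' V V' : Set (σ → ℂ)}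
  {P P' : (σ → ℂ) → Matrix (Option ν) (Option ν) ℂ} {s t : σ → ℂ} {z : ℂ} {w : ν → ℕ}
  {J : Matrix ν ν ℝ}
  {ζ ζ' : (σ → ℂ) → ℂ}

theorem root_map (p : (MvPolynomial σ K)[X]) : evz t z p = (p.map (evt t)).eval z :=
  eval₂_eq_eval_map _

theorem root_sum (p : (MvPolynomial σ K)[X]) (hp : p.natDegree < n) :
    evz t z p = ∑ a ∈ Finset.range n, MvPolynomial.aeval t (p.coeff a) * z ^ a :=
  eval₂_eq_sum_range' (evt t) hp z

theorem root_alg (t : σ → ℂ) (p : MvPolynomial σ K) :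
    IsAlgebraic (Rt t) (MvPolynomial.aeval t p) := by
  induction p using MvPolynomial.induction_on with
  | C k =>
    rw [MvPolynomial.aeval_C]
    have h1 : IsAlgebraic ℤ k := (IsFractionRing.isAlgebraic_iff ℤ ℚ K).2 (.of_finite ℚ k)
    have h2 : IsAlgebraic ℤ (algebraMap K ℂ k) := h1.algHom (algebraMap K ℂ).toIntAlgHom
    exact h2.extendScalars (algebraMap ℤ (Rt t)).injective_int
  | add p q hp hq => rw [map_add]; exact hp.add hq
  | mul_X p l hp =>
    rw [map_mul, MvPolynomial.aeval_X]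
    exact hp.mul (isAlgebraic_algebraMap (⟨t l, MvPolynomial.X l, by simp⟩ : Rt t))

theorem evz_C (p : MvPolynomial σ K) : evz t z (C p) = MvPolynomial.aeval t p := by
  simp [evz]

theorem evz_X : evz t z (X : (MvPolynomial σ K)[X]) = z := by
  simp [evz]

theorem evz_an (h : AnalyticAt ℂ ζ t) (p : (MvPolynomial σ K)[X]) :
    AnalyticAt ℂ (fun x => evz x (ζ x) p) t := by
  simp only [root_sum p (Nat.lt_succ_self _)]
  exact Finset.analyticAt_fun_sum _ fun a _ => (aeval_ana _).fun_mul (h.fun_pow a)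

theorem Cov.der (h : Cov T q r) (hT : MvPolynomial.aeval t T ≠ 0) (hz : evz t z q = 0) :
    evz t z (derivative q) ≠ 0 := by
  obtain ⟨u, v, e⟩ := Ideal.mem_span_pair.1 h.et
  intro h0
  have := congrArg (evz t z) e
  rw [map_add, map_mul, map_mul, hz, h0, evz_C] at this
  exact hT (by simpa using this.symm)

theorem Cov.roots (h : Cov T q r) (hT : MvPolynomial.aeval t T ≠ 0) :
    ∃ ξ : Fin r → ℂ, Function.Injective ξ ∧ ∀ z, evz t z q = 0 ↔ z ∈ Set.range ξ := by
  have hm := h.mq.map (evt t)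
  have hs : (q.map (evt t)).Separable := by
    rw [separable_def, derivative_map]
    refine isCoprime_of_irreducible_dvd (fun e => hm.ne_zero e.1) fun p hp h1 h2 => ?_
    obtain ⟨z, hz⟩ := IsAlgClosed.exists_root p (degree_pos_of_irreducible hp).ne'
    exact h.der hT (z := z) ((root_map q).trans (hz.dvd h1)) ((root_map _).trans (hz.dvd h2))
  have hc : (q.map (evt t)).roots.toFinset.card = r := by
    rw [Multiset.toFinset_card_of_nodup (nodup_roots hs), IsAlgClosed.card_roots_eq_natDegree,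
      h.mq.natDegree_map, h.dq]
  let e := (Finset.equivFinOfCardEq hc).symm
  refine ⟨fun i => e i, Subtype.val_injective.comp e.injective, fun z => ?_⟩
  rw [root_map, ← IsRoot.def, ← mem_roots hm.ne_zero, ← Multiset.mem_toFinset]
  exact ⟨fun hz => ⟨e.symm ⟨z, hz⟩, by simp⟩, fun ⟨i, hi⟩ => hi ▸ (e i).2⟩

theorem Cov.alg (h : Cov T q r) (hz : evz t z q = 0) : IsAlgebraic (Rt t) z := by
  let S := Subalgebra.algebraicClosure (Rt t) ℂ
  let g : MvPolynomial σ K →+* S := (evt t).codRestrict S fun p => root_alg t p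
  have h1 : IsIntegral S z := ⟨q.map g, h.mq.map g, by rw [eval₂_map]; exact hz⟩
  have : Algebra.IsAlgebraic (Rt t) S := ⟨fun x => (isAlgebraic_algebraMap_iff
    (A := ℂ) Subtype.val_injective).1 x.2⟩
  exact h1.trans_isAlgebraic _

theorem Cov.uniq (h : Cov T q r) (hT : MvPolynomial.aeval t T ≠ 0) (a : ContinuousAt ζ t)
    (a' : ContinuousAt ζ' t) (e : ∀ᶠ x in 𝓝 t, evz x (ζ x) q = 0)
    (e' : ∀ᶠ x in 𝓝 t, evz x (ζ' x) q = 0) (h0 : ζ' t = ζ t) : ∀ᶠ x in 𝓝 t, ζ' x = ζ x := by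
  let g : (σ → ℂ) → ℂ := fun x => ∑ k ∈ Finset.range (r + 1), MvPolynomial.aeval x (q.coeff k) *
    ∑ i ∈ Finset.range k, ζ' x ^ i * ζ x ^ (k - 1 - i)
  have hr : q.natDegree < r + 1 := h.dq ▸ Nat.lt_succ_self _
  have g1 : ∀ x, g x * (ζ' x - ζ x) = evz x (ζ' x) q - evz x (ζ x) q := fun x => by
    rw [root_sum q hr, root_sum q hr, ← Finset.sum_sub_distrib, Finset.sum_mul]
    exact Finset.sum_congr rfl fun k _ => by rw [mul_assoc, geom_sum₂_mul, mul_sub]
  have g2 : ContinuousAt g t := tendsto_finsetSum _ fun k _ =>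
    (aeval_ana _).continuousAt.mul (tendsto_finsetSum _ fun i _ => (a'.pow i).mul (a.pow _))
  have g3 : g t = evz t (ζ t) (derivative q) := by
    conv_rhs => rw [q.as_sum_range' _ hr]
    simp only [g, h0, geom_sum₂_self, map_sum, derivative_monomial]
    refine Finset.sum_congr rfl fun k _ => ?_
    rw [← C_mul_X_pow_eq_monomial, map_mul, map_pow, evz_C, evz_X, map_mul, map_natCast, mul_assoc]
  filter_upwards [e, e', g2.eventually_ne (g3 ▸ h.der hT e.self_of_nhds)] with x h1 h2 h3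
  have := g1 x
  rw [h1, h2, sub_zero] at this
  exact sub_eq_zero.1 ((mul_eq_zero.1 this).resolve_left h3)

theorem Cov.mod (h : Cov T q r) (hz : evz t z q = 0) (p : (MvPolynomial σ K)[X]) :
    ∑ a : Fin r, MvPolynomial.aeval t ((p %ₘ q).coeff a) * z ^ (a : ℕ) = evz t z p := by
  have h1 : q ≠ 1 := fun e => by rw [e, map_one] at hz; exact one_ne_zero hz
  rw [Fin.sum_univ_eq_sum_range (fun a => MvPolynomial.aeval t ((p %ₘ q).coeff a) * z ^ a),
    ← root_sum _ (h.dq ▸ natDegree_modByMonic_lt p h.mq h1)]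
  conv_rhs => rw [← modByMonic_add_div p q, map_add, map_mul, hz, zero_mul, add_zero]

theorem Cov.sheets (h : Cov T q r) {ξ : Fin (r + 1) → (σ → ℂ) → ℂ}
    (a : ∀ i, AnalyticAt ℂ (ξ i) t) (e : ∀ i, ∀ᶠ x in 𝓝 t, evz x (ξ i x) q = 0) :
    ∃ i i', i ≠ i' ∧ ∀ᶠ x in 𝓝 t, ξ i' x = ξ i x := by
  have an : ∀ p : Fin (r + 1) × Fin (r + 1), AnalyticAt ℂ (fun x => ξ p.2 x - ξ p.1 x) t :=
    fun p => (a _).fun_sub (a _)
  have h1 : tayM (fun x => ∏ p ∈ (Finset.univ : Finset (Fin (r + 1))).offDiag,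
      (ξ p.2 x - ξ p.1 x)) t = 0 := by
    rw [tayM_eq_zero_iff (Finset.analyticAt_fun_prod _ fun p _ => an p)]
    filter_upwards [eventually_all.2 e] with x hx
    have hm := h.mq.map (evt x)
    obtain ⟨i, -, j, -, hij, e1⟩ := Finset.exists_ne_map_eq_of_card_lt_of_maps_to
      (s := Finset.univ) (t := (q.map (evt x)).roots.toFinset) (f := fun i => ξ i x) (by
        have := (Multiset.toFinset_card_le _).trans (card_roots' (q.map (evt x)))
        rw [h.mq.natDegree_map, h.dq] at this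
        simpa using Nat.lt_succ_of_le this) fun i _ => by
        simpa [hm.ne_zero, ← root_map] using hx i
    exact Finset.prod_eq_zero (i := (i, j)) (by simpa using hij) (sub_eq_zero.2 e1.symm)
  have : IsDomain (MvPowerSeries σ ℂ) := NoZeroDivisors.to_isDomain _
  rw [tayM_prod _ fun p _ => an p] at h1
  obtain ⟨p, hp, e1⟩ := Finset.prod_eq_zero_iff.1 h1
  exact ⟨p.1, p.2, by simpa using hp,
    ((tayM_eq_zero_iff (an p)).1 e1).mono fun x hx => sub_eq_zero.1 hx⟩

end

end Pool.Agent.Lib.MP_5591bc_ag.Cv
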