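import Pool.Agent.Lib.MP_5591bc_ag.Cv.Defs
import Pool.Agent.Lib.MP_5591bc_ag.Cu.Set
import Pool.Agent.Lib.MP_5591bc_ag.B.Set

/-! The direct image of a system on a finite cover. -/

namespace Pool.Agent.Lib.MP_5591bc_ag.Cv

open Polynomial Set Filter Topology Matrix G M A B Cu
open scoped Polynomial.Bivariate

noncomputable section

variable {σ K ν : Type} [Field K] [Algebra K ℂ] [Fintype σ] [DecidableEq σ] [Fintype ν]
  [DecidableEq ν]

/-- the block of the periods -/
abbrev bl {R : Type*} (M : Matrix (Option ν) (Option ν) R) : Matrix ν ν R := M.submatrix some some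

/-- the point of the cover as a matrix -/
abbrev sz {R : Type*} [Zero R] (ν : Type) [DecidableEq ν] (z : R) :
    Matrix (Option ν) (Option ν) R := single none none z

/-- the cover is finite and unramified over `T ≠ 0` -/
structure Cov (T : MvPolynomial σ K) (q : (MvPolynomial σ K)[X]) (r : ℕ) : Prop where
  T0 : T ≠ 0
  mq : q.Monic
  dq : q.natDegree = r
  et : C T ∈ Ideal.span {q, derivative q}

/-- the hypotheses on the family -/
structure Fam2 (T : MvPolynomial σ K) (q : (MvPolynomial σ K)[X]) (r : ℕ)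
    (B : σ → Matrix ν ν (MvPolynomial σ K)[X]) (f : (MvPolynomial σ K)[X][X][Y])
    (d : (MvPolynomial σ K)[X][X]) (m : ℕ) (A : ν → (MvPolynomial σ K)[X][X][Y]) (w : ν → ℕ) :
    Prop where
  cv : Cov T q r
  mf : f.Monic
  md : d.Monic
  w1 : ∀ i, w i ≤ 1
  half : 2 * ∑ i, w i = Fintype.card ν
  cov : ∀ t z, MvPolynomial.aeval t T ≠ 0 → evz t z q = 0 →
    ∃ V ∈ 𝓝 t, ∃ P, P t none none = z ∧ PerS T q B f d m A w V P

/-- `M` is a period matrix of the fibre at `ψ` in which the residue pairing is `J` -/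
def Inv2 {𝓡 : Type} [CommRing 𝓡] (f : 𝓡[X][Y]) (d : 𝓡[X]) (m : ℕ) (A : ν → 𝓡[X][Y]) (w : ν → ℕ)
    (J : Matrix ν ν ℝ) (ψ : 𝓡 →+* ℂ) (M : Matrix ν ν ℂ) : Prop :=
  Cu.Fb (sp ψ f) (d.map ψ) m (fun i => sp ψ (A i)) w M ∧
    ∃ Λ, IsLam (sp ψ f) (rts (d.map ψ)) (fun i => frm (sp ψ (A i)) (d.map ψ) m) Λ ∧
      M * cx J * Mᵀ = -Λ

/-- all branches off `T = 0` are polarised by `J`, and two branches over the same point of the
cover differ by an integral automorphism of `J` -/
structure PolS (T : MvPolynomial σ K) (U : Set (σ → ℂ))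
    (P : (σ → ℂ) → Matrix (Option ν) (Option ν) ℂ) (J : Matrix ν ν ℝ) (w : ν → ℕ) : Prop where
  hs : ∀ U' P', ContM U P U' P' → ∀ t ∈ U', MvPolynomial.aeval t T ≠ 0 →
    HS J 1 w (bl (P' t)) ∧ (bl (P' t)).det ≠ 0
  two : ∀ U₁ P₁ U₂ P₂, ContM U P U₁ P₁ → ContM U P U₂ P₂ → ∀ t ∈ U₁, t ∈ U₂ →
    (∀ᶠ z in 𝓝 t, P₂ z none none = P₁ z none none) → ∃ γ : Matrix ν ν ℤ,
      γ.map Int.cast * J * (γ.map Int.cast)ᵀ = J ∧
      ∀ᶠ z in 𝓝 t, bl (P₂ z) = bl (P₁ z) * γ.map Int.cast

/-- the indices of the direct image -/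
abbrev Ix (ν : Type) (r : ℕ) := Option ν × Fin r

/-- the indices of `n` copies -/
abbrev Iy (ν : Type) (r n : ℕ) := Ix ν r × Fin n

/-- the columns `ζ ^ a Q` and `ζ ^ a` -/
def col (r : ℕ) (M : Matrix (Option ν) (Option ν) ℂ) : Matrix (Ix ν r) (Option ν) ℂ :=
  of fun a j => M none none ^ (a.2 : ℕ) * if a.1 = none ∧ j = none then 1 else M a.1 j

/-- the columns of all branches -/
def pu {r : ℕ} (R : Fin r → Matrix (Option ν) (Option ν) ℂ) : Matrix (Ix ν r) (Ix ν r) ℂ :=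
  of fun a b => col r (R b.2) a b.1

/-- `n` diagonal copies -/
abbrev bd {α R : Type*} [Zero R] (n : ℕ) (X : Matrix α α R) : Matrix (α × Fin n) (α × Fin n) R :=
  blockDiagonal fun _ => X

/-- the columns of every branch solve the system `Bh` -/
def Sys (T : MvPolynomial σ K) (q : (MvPolynomial σ K)[X])
    (B : σ → Matrix ν ν (MvPolynomial σ K)[X]) {r : ℕ}
    (Bh : σ → Matrix (Ix ν r) (Ix ν r) (MvPolynomial σ K)) : Prop :=
  ∀ V P, IsOpen V → FundS T q B V P → ∀ t ∈ V, ∀ a j l,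
    MvPolynomial.aeval t T * fderiv ℂ (fun z => col r (P z) a j) t (Pi.single l 1) =
      ∑ b, MvPolynomial.aeval t (Bh l a b) * col r (P t) b j

/-- `r` branches over `V` with distinct points of the cover -/
structure All (T : MvPolynomial σ K) (q : (MvPolynomial σ K)[X])
    (B : σ → Matrix ν ν (MvPolynomial σ K)[X]) {r : ℕ} (V : Set (σ → ℂ))
    (R : Fin r → (σ → ℂ) → Matrix (Option ν) (Option ν) ℂ) : Prop where
  op : IsOpen V
  co : IsPreconnected V
  ne : V.Nonempty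
  fs : ∀ b, FundS T q B V (R b)
  dt : ∀ b, ∀ t ∈ V, (bl (R b t)).det ≠ 0
  inj : ∀ t ∈ V, Function.Injective fun b => R b t none none

variable {r n : ℕ} [NeZero r] [NeZero n]

/-- the first branch in the first copy -/
def i0 (r n : ℕ) [NeZero r] [NeZero n] (j : Option ν) : Iy ν r n := ((j, 0), 0)

/-- the indices of the periods -/
abbrev ic (ν : Type) (r n : ℕ) [NeZero r] [NeZero n] (j : ν) : Iy ν r n := i0 r n (some j)

/-- the projector on the column of the powers of `ζ` -/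
abbrev c1 (ν : Type) [DecidableEq ν] (r n : ℕ) [NeZero r] [NeZero n] :
    Matrix (Iy ν r n) (Iy ν r n) ℂ := single (i0 r n none) (i0 r n none) 1

/-- the column of the powers of `z` -/
def z1 {R : Type*} [CommRing R] (ν : Type) [DecidableEq ν] (r n : ℕ) [NeZero r] [NeZero n]
    (z : R) : Matrix (Iy ν r n) (Iy ν r n) R :=
  of fun a b => if a.1.1 = none ∧ a.2 = 0 ∧ b = i0 r n none then z ^ (a.1.2 : ℕ) else 0

/-- the branch contained in a matrix of the direct image -/
def bk (q : (MvPolynomial σ K)[X]) (t : σ → ℂ) (Z : Matrix (Iy ν r n) (Iy ν r n) ℂ) :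
    Matrix (Option ν) (Option ν) ℂ :=
  of fun i j => match i, j with
    | some i, some j => Z (ic ν r n i) (ic ν r n j)
    | none, none => ∑ a : Fin r,
        MvPolynomial.aeval t ((X %ₘ q).coeff a) * Z ((none, a), 0) (i0 r n none)
    | _, _ => 0

/-- the first columns of `Z` are the columns of the branch `M` -/
def Shp (Z : Matrix (Iy ν r n) (Iy ν r n) ℂ) (M : Matrix (Option ν) (Option ν) ℂ) : Prop :=
  ∀ a j, Z a (i0 r n j) = if a.2 = 0 then col r M a.1 j else 0

/-- `Ph` on `V` is a fundamental matrix of `B2` whose first columns come from `P` on `U` -/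
structure Up (T : MvPolynomial σ K) (q : (MvPolynomial σ K)[X])
    (B : σ → Matrix ν ν (MvPolynomial σ K)[X])
    (B2 : σ → Matrix (Iy ν r n) (Iy ν r n) (MvPolynomial σ K)) (U : Set (σ → ℂ))
    (P : (σ → ℂ) → Matrix (Option ν) (Option ν) ℂ) (V : Set (σ → ℂ))
    (Ph : (σ → ℂ) → Matrix (Iy ν r n) (Iy ν r n) ℂ) : Prop where
  cv : Cov T q r
  ho : IsOpen U
  hc : IsPreconnected U
  fs : FundS T q B U P
  op : IsOpen V
  co : IsPreconnected V
  ne : V.Nonempty
  sub : V ⊆ U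
  fm : FundM T B2 V Ph
  sh : ∀ t ∈ V, Shp (Ph t) (P t)

end

end Pool.Agent.Lib.MP_5591bc_ag.Cv
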